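import Pool.Agent.H636R2.LD.Stmts

set_option autoImplicit false

namespace Pool.Agent.H636R2.LD

open Finset

open MeasureTheory in
theorem ALL (h : S_CUBE) : S_ALL := by
  intro d hd
  obtain ⟨c, hc, M₀, hM₀, H⟩ := h d hd 1 one_pos
  obtain ⟨d, rfl⟩ : ∃ k, d = k + 1 := ⟨d - 1, by omega⟩
  have hlM : 0 < Real.log M₀ := Real.log_pos (by linarith)
  have hll3 : 0 < Real.log (Real.log 3) := by
    refine Real.log_pos ?_
    rw [Real.lt_log_iff_exp_lt (by norm_num)]
    linarith [Real.exp_one_lt_d9]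
  set α : ℝ := (((d + 1 : ℕ) : ℝ) - 1) / 2 with hα
  have hα0 : 0 ≤ α := by
    rw [hα]; push_cast
    have : (0:ℝ) ≤ d := Nat.cast_nonneg d
    linarith
  set Q : ℝ := ((Real.log M₀) ^ α + 1) / (Real.log (Real.log 3)) ^ (d + 1) with hQ
  have hQ0 : 0 < Q := by
    have : 0 ≤ (Real.log M₀) ^ α := Real.rpow_nonneg hlM.le α
    positivity
  have hK : 0 < 4 * 4 ^ (d + 1) * M₀ * Q := by
    have : (0:ℝ) < M₀ := by linarith
    positivity
  refine ⟨min c (1 / (4 * 4 ^ (d + 1) * M₀ * Q)), lt_min hc (by positivity),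
    fun m hm ι S P hS => ?_⟩
  have hm3 : (3 : ℝ) ≤ m := by exact_mod_cast hm
  have hlm : 0 ≤ Real.log m := Real.log_nonneg (by linarith)
  have hlm3 : Real.log 3 ≤ Real.log m := Real.log_le_log (by norm_num) hm3
  have hl3 : 0 < Real.log 3 := Real.log_pos (by norm_num)
  have hllm : Real.log (Real.log 3) ≤ Real.log (Real.log m) := Real.log_le_log hl3 hlm3
  have hlα : 0 ≤ (Real.log m) ^ α := Real.rpow_nonneg hlm α
  have hden : 0 < (Real.log (Real.log m)) ^ (d + 1) := by
    have : 0 < Real.log (Real.log m) := by linarith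
    positivity
  have hq0 : 0 ≤ (Real.log m) ^ α / (Real.log (Real.log m)) ^ (d + 1) :=
    div_nonneg hlα hden.le
  rcases le_total M₀ m with hmM | hmM
  · refine le_trans (ENNReal.ofReal_le_ofReal ?_) (H m hmM ι S (fun _ => 1) P (by rw [hS, one_mul]))
    rw [mul_div_assoc, mul_div_assoc]
    exact mul_le_mul_of_nonneg_right (min_le_left _ _) hq0
  · refine le_trans (ENNReal.ofReal_le_ofReal ?_)
      (H736R2.Lone.small_bound d m (by omega) ι S P)
    have h1 : (Real.log m) ^ α ≤ (Real.log M₀) ^ α + 1 := by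
      have : (Real.log m) ^ α ≤ (Real.log M₀) ^ α :=
        Real.rpow_le_rpow hlm (Real.log_le_log (by linarith) hmM) hα0
      linarith
    have h2 : (Real.log m) ^ α / (Real.log (Real.log m)) ^ (d + 1) ≤ Q := by
      rw [hQ]
      refine div_le_div₀ (by linarith) h1 (by positivity) ?_
      exact pow_le_pow_left₀ hll3.le hllm _
    rw [mul_div_assoc]
    calc min c (1 / (4 * 4 ^ (d + 1) * M₀ * Q)) *
          ((Real.log m) ^ α / (Real.log (Real.log m)) ^ (d + 1))
        ≤ (1 / (4 * 4 ^ (d + 1) * M₀ * Q)) * Q :=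
          mul_le_mul (min_le_right _ _) h2 hq0 (by positivity)
      _ = 1 / (4 * 4 ^ (d + 1) * M₀) := by
          field_simp
      _ ≤ 1 / (4 * 4 ^ (d + 1) * m) := by
          apply one_div_le_one_div_of_le (by positivity)
          have : (0 : ℝ) < 4 * 4 ^ (d + 1) := by positivity
          nlinarith

end Pool.Agent.H636R2.LD
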