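import Pool.Agent.H636R2.LD.Stmts

set_option autoImplicit false

/-!
# BLK: the block estimate, assembly
-/

namespace Pool.Agent.H636R2.LD

open Finset

namespace Blk

variable {d : ℕ} {Ω : Type} [Fintype Ω]
set_option linter.unusedSectionVars false

/-- double average -/
noncomputable def E2 {𝕜 : Type} [Field 𝕜] (F : (Fin d → Ω) → (Fin d → Ω) → 𝕜) : 𝕜 :=
  EE fun x => EE fun y => F x y

theorem E2_add {𝕜 : Type} [Field 𝕜] (F G : (Fin d → Ω) → (Fin d → Ω) → 𝕜) :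
    E2 (fun x y => F x y + G x y) = E2 F + E2 G := by
  unfold E2
  simp only [EE_add]

theorem E2_sub {𝕜 : Type} [Field 𝕜] (F G : (Fin d → Ω) → (Fin d → Ω) → 𝕜) :
    E2 (fun x y => F x y - G x y) = E2 F - E2 G := by
  unfold E2
  simp only [EE_sub]

theorem E2_mul_left {𝕜 : Type} [Field 𝕜] (c : 𝕜) (F : (Fin d → Ω) → (Fin d → Ω) → 𝕜) :
    E2 (fun x y => c * F x y) = c * E2 F := by
  unfold E2
  simp only [EE_mul_left]

theorem E2_sum {𝕜 : Type} [Field 𝕜] {ι : Type} (s : Finset ι)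
    (F : ι → (Fin d → Ω) → (Fin d → Ω) → 𝕜) :
    E2 (fun x y => ∑ i ∈ s, F i x y) = ∑ i ∈ s, E2 (F i) := by
  unfold E2
  simp only [EE_sum]

theorem E2_mono {F G : (Fin d → Ω) → (Fin d → Ω) → ℝ} (h : ∀ x y, F x y ≤ G x y) :
    E2 F ≤ E2 G := EE_mono fun x => EE_mono fun y => h x y

theorem norm_E2_le (F : (Fin d → Ω) → (Fin d → Ω) → ℂ) : ‖E2 F‖ ≤ E2 fun x y => ‖F x y‖ :=
  (norm_EE_le _).trans (EE_mono fun _ => norm_EE_le _)

theorem wild_mem (g : (Fin d → Ω) → ℂ) (τ : Finset (Fin d) → ℝ) (T : Finset (Fin d))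
    (x : Fin d → Ω) : 0 ≤ wild g τ T x ∧ wild g τ T x ≤ 1 := by
  unfold wild
  split_ifs <;> norm_num

theorem K0_mem (g : (Fin d → Ω) → ℂ) (τ : Finset (Fin d) → ℝ) (x : Fin d → Ω) :
    0 ≤ K0 g τ x ∧ K0 g τ x ≤ 1 := by
  unfold K0
  constructor
  · exact Finset.prod_nonneg fun T _ => by linarith [(wild_mem g τ T x).2]
  · exact Finset.prod_le_one (fun T _ => by linarith [(wild_mem g τ T x).2])
      fun T _ => by linarith [(wild_mem g τ T x).1]

theorem KK_mem (g : (Fin d → Ω) → ℂ) (τ : Finset (Fin d) → ℝ) (x y : Fin d → Ω) :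
    0 ≤ KK g τ x y ∧ KK g τ x y ≤ 1 := by
  unfold KK
  exact ⟨Finset.prod_nonneg fun W _ => (K0_mem g τ _).1,
    Finset.prod_le_one (fun W _ => (K0_mem g τ _).1) fun W _ => (K0_mem g τ _).2⟩

theorem KK_le (g : (Fin d → Ω) → ℂ) (τ : Finset (Fin d) → ℝ) (x y : Fin d → Ω)
    (W : Finset (Fin d)) : KK g τ x y ≤ K0 g τ (mix W y x) := by
  unfold KK
  rw [← Finset.mul_prod_erase univ _ (Finset.mem_univ W)]
  have h1 : ∏ V ∈ univ.erase W, K0 g τ (mix V y x) ≤ 1 :=
    Finset.prod_le_one (fun V _ => (K0_mem g τ _).1) fun V _ => (K0_mem g τ _).2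
  have h2 := (K0_mem g τ (mix W y x)).1
  calc K0 g τ (mix W y x) * ∏ V ∈ univ.erase W, K0 g τ (mix V y x) ≤
      K0 g τ (mix W y x) * 1 := mul_le_mul_of_nonneg_left h1 h2
    _ = _ := mul_one _

theorem norm_cj (W : Finset (Fin d)) (z : ℂ) : ‖cj W z‖ = ‖z‖ := by
  unfold cj
  split_ifs
  · rfl
  · exact RCLike.norm_conj z

theorem norm_chi_le {h : Fin d → Ω → ℝ} (hh : ∀ s w, |h s w| ≤ 1) (x : Fin d → Ω) :
    ‖((∏ s, h s (x s) : ℝ) : ℂ)‖ ≤ 1 := by
  rw [Complex.norm_real, Real.norm_eq_abs, Finset.abs_prod]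
  exact Finset.prod_le_one (fun s _ => abs_nonneg _) fun s _ => hh s _

end Blk

open Blk

theorem BLK (hEXP : S_EXP) (hPAIR : S_PAIR) (hSING : S_SING) (hK1 : S_K1) (hZERO : S_ZERO)
    (hMAIN : S_MAIN) (hKAP : S_KAP) : S_BLK := by
  intro d Ω _ _ g hg τ ρ hT hη h hh hh0 t Θ q hq hq2 hR
  have hρ := hT.rho
  have hη0 : 0 ≤ EE (fun x => ‖g x‖) := EE_nonneg fun x => norm_nonneg _
  set η := EE (fun x => ‖g x‖) with hηd
  have hg2 : ∀ x, ‖g x‖ ≤ 2 := by
    intro x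
    calc ‖g x‖ = ‖(1 + g x) - 1‖ := by rw [add_sub_cancel_left]
      _ ≤ ‖1 + g x‖ + ‖(1 : ℂ)‖ := norm_sub_le _ _
      _ = 2 := by rw [hg x, norm_one]; norm_num
  have hχ := norm_chi_le (d := d) (Ω := Ω) hh
  have hq0 : 0 ≤ q := by
    obtain ⟨ω⟩ := (inferInstance : Nonempty Ω)
    exact (abs_nonneg _).trans (hq2 (fun _ => ω) fun _ => ω)
  set c : (Fin d → Ω) → ℂ := fun x => ((∏ s, h s (x s) : ℝ) : ℂ) with hc
  set K : (Fin d → Ω) → (Fin d → Ω) → ℂ := fun x y => ((KK g τ x y : ℝ) : ℂ) with hK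
  set z : Finset (Fin d) → (Fin d → Ω) → (Fin d → Ω) → ℂ :=
    fun W x y => cj W (g (mix W y x)) with hz
  have hnK : ∀ x y, ‖K x y‖ = KK g τ x y := by
    intro x y
    rw [hK]
    simp only
    rw [Complex.norm_real, Real.norm_eq_abs, abs_of_nonneg (KK_mem g τ x y).1]
  have hcK : ∀ x y, ‖c x * K x y‖ ≤ KK g τ x y := by
    intro x y
    rw [norm_mul, hnK]
    calc ‖c x‖ * KK g τ x y ≤ 1 * KK g τ x y :=
          mul_le_mul_of_nonneg_right (hχ x) (KK_mem g τ x y).1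
      _ = _ := one_mul _
  -- the main term
  have h1 : |(E2 fun x y => c x * K x y * RR g x y).im + Θ * ∏ s, EE (fun w => h s w * t s w)| ≤
      q ^ 2 + q * (4 ^ d * ρ) := by
    have h2 := hMAIN d Ω (KK g τ) (KK_mem g τ) h hh hh0 t Θ q hq hq2
    have h3 := hK1 d Ω g τ ρ hT hη
    have h4 : q * EE (fun x => EE fun y => 1 - KK g τ x y) ≤ q * (4 ^ d * ρ) :=
      mul_le_mul_of_nonneg_left h3 hq0
    refine le_trans (le_of_eq ?_) (h2.trans (by linarith))
    unfold E2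
    simp only [hR, hc, hK]
  -- the quadratic terms
  have hcard : (univ : Finset (Finset (Fin d))).card = 2 ^ d := by
    rw [Finset.card_univ, Fintype.card_finset, Fintype.card_fin]
  have hquad : ‖E2 fun x y => c x * K x y * (RR g x y - 1 - ∑ W, z W x y)‖ ≤
      3 ^ (2 ^ d) * 4 ^ d * (ρ * η) := by
    have e1 : ∀ x y, ‖c x * K x y * (RR g x y - 1 - ∑ W, z W x y)‖ ≤
        3 ^ (2 ^ d) * ∑ W : Finset (Fin d), ∑ W' ∈ univ.erase W,
          KK g τ x y * (‖g (mix W y x)‖ * ‖g (mix W' y x)‖) := by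
      intro x y
      have e2 := hEXP (Finset (Fin d)) univ (fun W => z W x y) (fun W _ => by
        rw [hz]; simp only; rw [norm_cj]; exact hg2 _)
      rw [hcard] at e2
      simp only [hz, norm_cj] at e2
      have e3 : ‖RR g x y - 1 - ∑ W, z W x y‖ ≤ 3 ^ (2 ^ d) * ∑ W : Finset (Fin d),
          ∑ W' ∈ univ.erase W, ‖g (mix W y x)‖ * ‖g (mix W' y x)‖ := e2
      rw [norm_mul]
      calc ‖c x * K x y‖ * ‖RR g x y - 1 - ∑ W, z W x y‖ ≤
          KK g τ x y * (3 ^ (2 ^ d) * ∑ W : Finset (Fin d),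
          ∑ W' ∈ univ.erase W, ‖g (mix W y x)‖ * ‖g (mix W' y x)‖) :=
            mul_le_mul (hcK x y) e3 (norm_nonneg _) (KK_mem g τ x y).1
        _ = _ := by
            rw [mul_left_comm, Finset.mul_sum]
            congr 1
            refine Finset.sum_congr rfl fun W _ => ?_
            rw [Finset.mul_sum]
    refine (norm_E2_le _).trans ((E2_mono e1).trans ?_)
    rw [E2_mul_left, E2_sum]
    have e4 : ∀ W : Finset (Fin d), E2 (fun x y => ∑ W' ∈ univ.erase W,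
          KK g τ x y * (‖g (mix W y x)‖ * ‖g (mix W' y x)‖)) ≤ 2 ^ d * (ρ * η) := by
      intro W
      rw [E2_sum]
      calc ∑ W' ∈ univ.erase W, E2 (fun x y => KK g τ x y *
            (‖g (mix W y x)‖ * ‖g (mix W' y x)‖)) ≤ ∑ W' ∈ univ.erase W, (ρ * η) :=
            Finset.sum_le_sum fun W' hW' =>
              hPAIR d Ω g τ ρ hT W W' (Finset.ne_of_mem_erase hW').symm
        _ = ((univ : Finset (Finset (Fin d))).erase W).card * (ρ * η) := by
            rw [Finset.sum_const, nsmul_eq_mul]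
        _ ≤ 2 ^ d * (ρ * η) := by
            refine mul_le_mul_of_nonneg_right ?_ (by positivity)
            have : ((univ : Finset (Finset (Fin d))).erase W).card ≤ 2 ^ d := by
              rw [← hcard]; exact Finset.card_le_card (Finset.erase_subset _ _)
            exact_mod_cast this
    have e5 : ∑ W : Finset (Fin d), E2 (fun x y => ∑ W' ∈ univ.erase W,
          KK g τ x y * (‖g (mix W y x)‖ * ‖g (mix W' y x)‖)) ≤ 4 ^ d * (ρ * η) := by
      calc _ ≤ ∑ _W : Finset (Fin d), (2 : ℝ) ^ d * (ρ * η) := Finset.sum_le_sum fun W _ => e4 W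
        _ = 2 ^ d * (2 ^ d * (ρ * η)) := by
            rw [Finset.sum_const, nsmul_eq_mul, hcard]; push_cast; ring
        _ = 4 ^ d * (ρ * η) := by
            rw [← mul_assoc, ← mul_pow]; norm_num
    calc 3 ^ (2 ^ d) * ∑ W : Finset (Fin d), E2 (fun x y => ∑ W' ∈ univ.erase W,
          KK g τ x y * (‖g (mix W y x)‖ * ‖g (mix W' y x)‖)) ≤
          3 ^ (2 ^ d) * (4 ^ d * (ρ * η)) := mul_le_mul_of_nonneg_left e5 (by positivity)
      _ = _ := by ring
  -- one corner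
  have hcorner : ∀ W : Finset (Fin d), ‖(E2 fun x y => c x * K x y * z W x y) -
      E2 fun x y => c x * ((K0 g τ (mix W y x) : ℝ) : ℂ) * z W x y‖ ≤ 4 ^ d * ρ * η := by
    intro W
    rw [← E2_sub]
    refine (norm_E2_le _).trans (le_trans ?_ (hSING d Ω g τ ρ hT hη W))
    refine E2_mono fun x y => ?_
    have e1 : c x * K x y * z W x y - c x * ((K0 g τ (mix W y x) : ℝ) : ℂ) * z W x y =
        -(c x * (((K0 g τ (mix W y x) - KK g τ x y : ℝ)) : ℂ) * z W x y) := by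
      rw [hK]; push_cast; ring
    have e0 : ‖((K0 g τ (mix W y x) - KK g τ x y : ℝ) : ℂ)‖ =
        K0 g τ (mix W y x) - KK g τ x y := by
      rw [Complex.norm_real, Real.norm_eq_abs, abs_of_nonneg (sub_nonneg.2 (KK_le g τ x y W))]
    rw [e1, norm_neg, norm_mul, norm_mul, e0]
    have e2 : ‖z W x y‖ = ‖g (mix W y x)‖ := norm_cj W _
    rw [e2]
    have e3 := sub_nonneg.2 (KK_le g τ x y W)
    calc ‖c x‖ * (K0 g τ (mix W y x) - KK g τ x y) * ‖g (mix W y x)‖ ≤
        1 * (K0 g τ (mix W y x) - KK g τ x y) * ‖g (mix W y x)‖ :=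
          mul_le_mul_of_nonneg_right (mul_le_mul_of_nonneg_right (hχ x) e3) (norm_nonneg _)
      _ = _ := by rw [one_mul]
  have hzero : ∀ W : Finset (Fin d), W.Nonempty →
      (E2 fun x y => c x * ((K0 g τ (mix W y x) : ℝ) : ℂ) * z W x y) = 0 := by
    intro W hW
    have e1 := hZERO d Ω h hh0 (fun v => ((K0 g τ v : ℝ) : ℂ) * cj W (g v)) W hW
    rw [← e1]
    unfold E2
    simp only [hc, hz, mul_assoc]
  have hempty : (E2 fun x y => c x * ((K0 g τ (mix ∅ y x) : ℝ) : ℂ) * z ∅ x y) =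
      EE fun x => c x * g x * ((K0 g τ x : ℝ) : ℂ) := by
    unfold E2
    simp only [hz, mix_empty, cj, Finset.card_empty, Even.zero, if_true]
    congr 1
    funext x
    rw [EE_const]
    ring
  -- the difference of K₀ and κ
  have hkap : ‖(EE fun x => c x * g x * ((K0 g τ x : ℝ) : ℂ)) -
      EE fun x => c x * g x * ((kap (fun T => wild g τ T x) univ : ℝ) : ℂ)‖ ≤
      2 * (4 ^ d * (1 + 2 ^ (d ^ 2)) * ρ * η) := by
    rw [← EE_sub]
    refine (norm_EE_le _).trans ?_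
    refine le_trans ?_ (mul_le_mul_of_nonneg_left (hKAP d Ω g τ ρ hT hη) (by norm_num))
    rw [← EE_mul_left]
    refine EE_mono fun x => ?_
    have e0 : ‖((K0 g τ x : ℝ) : ℂ) - ((kap (fun T => wild g τ T x) univ : ℝ) : ℂ)‖ =
        |K0 g τ x - kap (fun T => wild g τ T x) univ| := by
      rw [← Complex.ofReal_sub, Complex.norm_real, Real.norm_eq_abs]
    rw [← mul_sub, norm_mul, norm_mul, e0]
    refine mul_le_mul_of_nonneg_right ?_ (abs_nonneg _)
    calc ‖c x‖ * ‖g x‖ ≤ 1 * 2 := mul_le_mul (hχ x) (hg2 x) (norm_nonneg _) zero_le_one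
      _ = 2 := one_mul _
  -- decomposition
  have hdec : (E2 fun x y => c x * K x y * RR g x y) = (E2 fun x y => c x * K x y) +
      ∑ W, (E2 fun x y => c x * K x y * z W x y) +
      E2 fun x y => c x * K x y * (RR g x y - 1 - ∑ W, z W x y) := by
    rw [← E2_sum, ← E2_add, ← E2_add]
    congr 1
    funext x y
    rw [← Finset.mul_sum]
    ring
  have hreal : (E2 fun x y => c x * K x y).im = 0 := by
    have e1 : (E2 fun x y => c x * K x y) =
        ((E2 (fun x y => (∏ s, h s (x s)) * KK g τ x y) : ℝ) : ℂ) := by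
      unfold E2
      rw [← EE_ofReal]
      congr 1
      funext x
      rw [← EE_ofReal]
      simp only [hc, hK, Complex.ofReal_mul]
    rw [e1, Complex.ofReal_im]
  -- the sum over the corners
  have hsum : ‖(∑ W, (E2 fun x y => c x * K x y * z W x y)) -
      EE fun x => c x * g x * ((K0 g τ x : ℝ) : ℂ)‖ ≤ 2 ^ d * (4 ^ d * ρ * η) := by
    have e1 : (EE fun x => c x * g x * ((K0 g τ x : ℝ) : ℂ)) =
        ∑ W, E2 fun x y => c x * ((K0 g τ (mix W y x) : ℝ) : ℂ) * z W x y := by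
      rw [← hempty]
      rw [Finset.sum_eq_single (∅ : Finset (Fin d))]
      · intro W _ hW
        exact hzero W (Finset.nonempty_iff_ne_empty.2 hW)
      · intro h'; exact absurd (Finset.mem_univ _) h'
    rw [e1, ← Finset.sum_sub_distrib]
    refine (norm_sum_le _ _).trans ?_
    calc _ ≤ ∑ _W : Finset (Fin d), 4 ^ d * ρ * η := Finset.sum_le_sum fun W _ => hcorner W
      _ = _ := by rw [Finset.sum_const, nsmul_eq_mul, hcard]; push_cast; ring
  -- conclusion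
  set X1 := E2 fun x y => c x * K x y * RR g x y with hX1
  set X2 := ∑ W, (E2 fun x y => c x * K x y * z W x y) with hX2
  set X3 := E2 fun x y => c x * K x y * (RR g x y - 1 - ∑ W, z W x y) with hX3
  set X4 := EE fun x => c x * g x * ((K0 g τ x : ℝ) : ℂ) with hX4
  set X5 := EE fun x => c x * g x * ((kap (fun T => wild g τ T x) univ : ℝ) : ℂ) with hX5
  set Pm := Θ * ∏ s, EE (fun w => h s w * t s w) with hPm
  have i1 : X1.im = X2.im + X3.im := by
    rw [hdec, Complex.add_im, Complex.add_im, hreal, zero_add]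
  have i2 : |X2.im - X4.im| ≤ 2 ^ d * (4 ^ d * ρ * η) := by
    rw [← Complex.sub_im]; exact (Complex.abs_im_le_norm _).trans hsum
  have i3 : |X4.im - X5.im| ≤ 2 * (4 ^ d * (1 + 2 ^ (d ^ 2)) * ρ * η) := by
    rw [← Complex.sub_im]; exact (Complex.abs_im_le_norm _).trans hkap
  have i4 : |X3.im| ≤ 3 ^ (2 ^ d) * 4 ^ d * (ρ * η) := (Complex.abs_im_le_norm _).trans hquad
  have i5 : X5.im + Pm = (X1.im + Pm) - X3.im - (X2.im - X4.im) - (X4.im - X5.im) := by
    rw [i1]; ring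
  have i6 : |X5.im + Pm| ≤ |X1.im + Pm| + |X3.im| + |X2.im - X4.im| + |X4.im - X5.im| := by
    rw [i5]
    have a1 := abs_sub (X1.im + Pm - X3.im - (X2.im - X4.im)) (X4.im - X5.im)
    have a2 := abs_sub (X1.im + Pm - X3.im) (X2.im - X4.im)
    have a3 := abs_sub (X1.im + Pm) X3.im
    linarith
  have e8 : (8 : ℝ) ^ d = 2 ^ d * 4 ^ d := by rw [← mul_pow]; norm_num
  have hq2' : 0 ≤ q ^ 2 := sq_nonneg q
  have hqρ : 0 ≤ q * ρ := mul_nonneg hq0 hρ
  have hρη : 0 ≤ ρ * η := mul_nonneg hρ hη0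
  set A := (3 : ℝ) ^ (2 ^ d) * 4 ^ d with hA
  set B := (8 : ℝ) ^ d with hB
  set C := 2 * (4 : ℝ) ^ d * (1 + 2 ^ (d ^ 2)) with hC
  set D := (4 : ℝ) ^ d with hD
  have hA0 : 0 ≤ A := by positivity
  have hB0 : 0 ≤ B := by positivity
  have hC0 : 0 ≤ C := by positivity
  have hD0 : 0 ≤ D := by positivity
  have hCb : Cb d = A + B + C + D + 1 := rfl
  refine i6.trans ?_
  have j1 : |X1.im + Pm| + |X3.im| + |X2.im - X4.im| + |X4.im - X5.im| ≤
      q ^ 2 + D * (q * ρ) + A * (ρ * η) + B * (ρ * η) + C * (ρ * η) := by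
    have k1 : 2 ^ d * (D * ρ * η) = B * (ρ * η) := by rw [e8]; ring
    have k2 : 2 * (D * (1 + 2 ^ (d ^ 2)) * ρ * η) = C * (ρ * η) := by rw [hC]; ring
    have k3 : q * (D * ρ) = D * (q * ρ) := by ring
    rw [k1] at i2
    rw [k2] at i3
    rw [k3] at h1
    linarith
  refine j1.trans ?_
  rw [hCb]
  nlinarith [mul_nonneg hA0 hq2', mul_nonneg hB0 hq2', mul_nonneg hC0 hq2', mul_nonneg hD0 hq2',
    mul_nonneg hA0 hqρ, mul_nonneg hB0 hqρ, mul_nonneg hC0 hqρ, mul_nonneg hD0 hρη]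

end Pool.Agent.H636R2.LD
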