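import Pool.Agent.H636R2.LD.Defs

set_option autoImplicit false

/-! Basic properties of averages. -/

namespace Pool.Agent.H636R2.LD

open Finset

section gen
variable {𝕜 : Type} [Field 𝕜] {α β : Type} [Fintype α] [Fintype β]

theorem EE_add (f g : α → 𝕜) : EE (fun x => f x + g x) = EE f + EE g := by
  simp only [EE, Finset.sum_add_distrib, add_div]

theorem EE_sub (f g : α → 𝕜) : EE (fun x => f x - g x) = EE f - EE g := by
  simp only [EE, Finset.sum_sub_distrib, sub_div]

theorem EE_neg (f : α → 𝕜) : EE (fun x => - f x) = - EE f := by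
  simp only [EE, Finset.sum_neg_distrib, neg_div]

theorem EE_mul_left (c : 𝕜) (f : α → 𝕜) : EE (fun x => c * f x) = c * EE f := by
  simp only [EE, ← Finset.mul_sum, mul_div_assoc]

theorem EE_mul_right (c : 𝕜) (f : α → 𝕜) : EE (fun x => f x * c) = EE f * c := by
  simp only [EE, ← Finset.sum_mul, div_mul_eq_mul_div]

theorem EE_sum {ι : Type} (s : Finset ι) (f : ι → α → 𝕜) :
    EE (fun x => ∑ i ∈ s, f i x) = ∑ i ∈ s, EE (f i) := by
  simp only [EE]
  rw [Finset.sum_comm, Finset.sum_div]

theorem EE_comm (F : α → β → 𝕜) :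
    EE (fun x => EE fun y => F x y) = EE (fun y => EE fun x => F x y) := by
  simp only [EE, ← Finset.sum_div]
  rw [Finset.sum_comm, div_div, div_div, mul_comm]

theorem EE_prod (F : α × β → 𝕜) : EE F = EE (fun x => EE fun y => F (x, y)) := by
  simp only [EE, ← Finset.sum_div]
  rw [Fintype.sum_prod_type, Fintype.card_prod, div_div]
  push_cast
  rw [mul_comm]

theorem EE_equiv (e : α ≃ β) (f : β → 𝕜) : EE (fun x => f (e x)) = EE f := by
  simp only [EE]
  rw [Equiv.sum_comp e f, Fintype.card_congr e]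

theorem EE_const [CharZero 𝕜] [Nonempty α] (c : 𝕜) : EE (fun _ : α => c) = c := by
  simp only [EE, Finset.sum_const, Finset.card_univ, nsmul_eq_mul]
  rw [mul_comm, mul_div_assoc, div_self, mul_one]
  exact_mod_cast Fintype.card_ne_zero

end gen

section real
variable {α : Type} [Fintype α]

theorem EE_mono {f g : α → ℝ} (h : ∀ x, f x ≤ g x) : EE f ≤ EE g := by
  unfold EE
  exact div_le_div_of_nonneg_right (Finset.sum_le_sum fun x _ => h x) (Nat.cast_nonneg _)

theorem EE_nonneg {f : α → ℝ} (h : ∀ x, 0 ≤ f x) : 0 ≤ EE f :=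
  div_nonneg (Finset.sum_nonneg fun x _ => h x) (Nat.cast_nonneg _)

theorem norm_EE_le (f : α → ℂ) : ‖EE f‖ ≤ EE fun x => ‖f x‖ := by
  unfold EE
  rw [norm_div, Complex.norm_natCast]
  exact div_le_div_of_nonneg_right (norm_sum_le _ _) (Nat.cast_nonneg _)

theorem abs_EE_le (f : α → ℝ) : |EE f| ≤ EE fun x => |f x| := by
  unfold EE
  rw [abs_div, Nat.abs_cast]
  exact div_le_div_of_nonneg_right (Finset.abs_sum_le_sum_abs _ _) (Nat.cast_nonneg _)

theorem EE_ofReal (f : α → ℝ) : EE (fun x => (f x : ℂ)) = ((EE f : ℝ) : ℂ) := by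
  simp [EE]

theorem EE_im (f : α → ℂ) : (EE f).im = EE fun x => (f x).im := by
  simp only [EE]
  rw [Complex.div_natCast_im, Complex.im_sum]

theorem EE_re (f : α → ℂ) : (EE f).re = EE fun x => (f x).re := by
  simp only [EE]
  rw [Complex.div_natCast_re, Complex.re_sum]

end real

/-- independence of the coordinates -/
theorem EE_pi {𝕜 : Type} [Field 𝕜] {d : ℕ} {Ω : Type} [Fintype Ω] (f : Fin d → Ω → 𝕜) :
    EE (fun x : Fin d → Ω => ∏ s, f s (x s)) = ∏ s, EE (f s) := by
  simp only [EE]
  rw [← Fintype.prod_sum, Finset.prod_div_distrib]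
  simp

section mix
variable {d : ℕ} {Ω : Type}

theorem mix_mem {T : Finset (Fin d)} {x y : Fin d → Ω} {s : Fin d} (h : s ∈ T) :
    mix T x y s = x s := if_pos h

theorem mix_notMem {T : Finset (Fin d)} {x y : Fin d → Ω} {s : Fin d} (h : s ∉ T) :
    mix T x y s = y s := if_neg h

@[simp] theorem mix_self (T : Finset (Fin d)) (x : Fin d → Ω) : mix T x x = x := by
  funext s; simp [mix]

@[simp] theorem mix_empty (x y : Fin d → Ω) : mix ∅ x y = y := by
  funext s; simp [mix]

@[simp] theorem mix_univ (x y : Fin d → Ω) : mix univ x y = x := by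
  funext s; simp [mix]

/-- swapping the coordinates outside `T` of a pair of points -/
def swp (T : Finset (Fin d)) : ((Fin d → Ω) × (Fin d → Ω)) ≃ ((Fin d → Ω) × (Fin d → Ω)) where
  toFun p := (mix T p.1 p.2, mix T p.2 p.1)
  invFun p := (mix T p.1 p.2, mix T p.2 p.1)
  left_inv p := by
    ext s
    · by_cases h : s ∈ T <;> simp [mix, h]
    · by_cases h : s ∈ T <;> simp [mix, h]
  right_inv p := by
    ext s
    · by_cases h : s ∈ T <;> simp [mix, h]
    · by_cases h : s ∈ T <;> simp [mix, h]

variable [Fintype Ω] {𝕜 : Type} [Field 𝕜]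

/-- invariance of the law of a pair of points under exchanging coordinates -/
theorem EE_swp (T : Finset (Fin d)) (F : (Fin d → Ω) → (Fin d → Ω) → 𝕜) :
    EE (fun x => EE fun y => F (mix T x y) (mix T y x)) = EE fun x => EE fun y => F x y := by
  have h := EE_equiv (swp T) (fun p : (Fin d → Ω) × (Fin d → Ω) => F p.1 p.2)
  rw [EE_prod, EE_prod] at h
  exact h

/-- the mixture of two independent points is uniform -/
theorem EE_mix [CharZero 𝕜] [Nonempty Ω] (T : Finset (Fin d)) (F : (Fin d → Ω) → 𝕜) :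
    EE (fun x => EE fun y => F (mix T x y)) = EE F := by
  rw [EE_swp T (fun x _ => F x)]
  congr 1
  funext x
  exact EE_const _

/-- resampling one coordinate -/
theorem EE_update [CharZero 𝕜] [Nonempty Ω] (s : Fin d) (F : (Fin d → Ω) → 𝕜) :
    EE (fun x => EE fun v : Ω => F (Function.update x s v)) = EE F := by
  classical
  have h := EE_mix (𝕜 := 𝕜) (Ω := Ω) ({s} : Finset (Fin d))ᶜ F
  rw [← h]
  congr 1
  funext x
  have h1 : ∀ y : Fin d → Ω, mix ({s} : Finset (Fin d))ᶜ x y = Function.update x s (y s) := by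
    intro y
    funext s'
    by_cases h : s' = s
    · subst h; simp [mix]
    · simp [mix, h]
  simp only [h1]
  symm
  have h2 := EE_pi (𝕜 := 𝕜) (d := d) (Ω := Ω) (fun s' v => if s' = s then F (Function.update x s v) else 1)
  have h3 : ∀ y : Fin d → Ω, (∏ s', (if s' = s then F (Function.update x s (y s')) else 1)) =
      F (Function.update x s (y s)) := by
    intro y
    rw [Finset.prod_eq_single s]
    · simp
    · intro b _ hb; simp [hb]
    · intro h; exact absurd (mem_univ s) h
  simp only [h3] at h2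
  rw [h2, Finset.prod_eq_single s]
  · simp
  · intro b _ hb
    simp only [hb, if_false]
    exact EE_const 1
  · intro h; exact absurd (mem_univ s) h

end mix

end Pool.Agent.H636R2.LD
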