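import Pool.Agent.H636R2.LD.Stmts

set_option autoImplicit false

/-! Task CHAOS: moments of the sum with the cut-offs, by induction on the set of coordinates. -/

namespace Pool.Agent.H636R2.LD

open Finset

theorem ch_kap {d : ℕ} (b : Finset (Fin d) → ℝ) (U : Finset (Fin d)) :
    kap b U = 1 - ∑ T ∈ U.ssubsets, b T * kap b T := by
  rw [kap]
  congr 1
  exact Finset.sum_attach U.ssubsets (fun T => b T * kap b T)

theorem ch_kap_congr {d : ℕ} (b b' : Finset (Fin d) → ℝ) (n : ℕ) :
    ∀ U : Finset (Fin d), U.card = n → (∀ T, T ⊂ U → b T = b' T) → kap b U = kap b' U := by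
  induction n using Nat.strong_induction_on with
  | _ n ih =>
    intro U hU h
    rw [ch_kap, ch_kap]
    congr 1
    refine sum_congr rfl fun T hT => ?_
    have hT' := mem_ssubsets.1 hT
    rw [h T hT', ih T.card (by rw [← hU]; exact card_lt_card hT') T rfl
      (fun T' hT'' => h T' (hT''.trans hT'))]

section
variable {d R : ℕ}

theorem ch_NU_nonneg (Δ : Finset (Fin d → Fin R)) (U : Finset (Fin d))
    (F : (Fin d → Fin R) → Pt d R → ℝ) (x : Pt d R) : 0 ≤ NU Δ U F x :=
  sum_nonneg fun _ _ => sq_nonneg _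

theorem ch_NU_neg (Δ : Finset (Fin d → Fin R)) (U : Finset (Fin d))
    (F : (Fin d → Fin R) → Pt d R → ℝ) (x : Pt d R) :
    NU Δ U (fun J x => -F J x) x = NU Δ U F x := by
  unfold NU
  refine sum_congr rfl fun K _ => ?_
  simp only [mul_neg, sum_neg_distrib, neg_sq]

theorem ch_NU_sum {ι : Type} (s : Finset ι) (Δ : Finset (Fin d → Fin R)) (U : Finset (Fin d))
    (G : ι → (Fin d → Fin R) → Pt d R → ℝ) (x : Pt d R) :
    NU Δ U (fun J x => ∑ i ∈ s, G i J x) x ≤ s.card * ∑ i ∈ s, NU Δ U (G i) x := by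
  unfold NU
  rw [sum_comm, mul_sum]
  refine sum_le_sum fun K _ => ?_
  have e : ∑ J ∈ Δ.filter (fun J => off U J = K), (∏ s ∈ U, sg (x s (J s))) * ∑ i ∈ s, G i J x =
      ∑ i ∈ s, ∑ J ∈ Δ.filter (fun J => off U J = K), (∏ s ∈ U, sg (x s (J s))) * G i J x := by
    rw [sum_comm]
    exact sum_congr rfl fun J _ => mul_sum _ _ _
  rw [e]
  exact sq_sum_le_card_mul_sum_sq

theorem ch_iter (hs : S_STEP) (m : ℕ) (hm : 1 ≤ m) (Δ : Finset (Fin d → Fin R))
    (F : (Fin d → Fin R) → Pt d R → ℝ) (V : Finset (Fin d)) (W : Finset (Fin d)) :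
    Disjoint V W → (∀ s ∈ W, ∀ J ∈ Δ, Pred s J (F J)) →
    EE (fun x => NU Δ (V ∪ W) F x ^ m) ≤
      ((8 * (m : ℝ) ^ 2) ^ W.card) ^ m * EE (fun x => NU Δ V F x ^ m) := by
  induction W using Finset.induction_on with
  | empty =>
    intro _ _
    simp
  | insert s W hsW ih =>
    intro hd hP
    have hd' : Disjoint V W := disjoint_of_subset_right (subset_insert s W) hd
    have hsV : s ∉ V := fun h => (disjoint_left.1 hd h) (mem_insert_self s W)
    have h1 := ih hd' (fun s' hs' => hP s' (mem_insert_of_mem hs'))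
    have h2 := hs d R m Δ (V ∪ insert s W) s F hm
      (mem_union_right _ (mem_insert_self s W)) (hP s (mem_insert_self s W))
    have he : (V ∪ insert s W).erase s = V ∪ W := by
      ext a
      simp only [mem_erase, mem_union, mem_insert]
      constructor
      · rintro ⟨h, h' | h' | h'⟩
        · exact Or.inl h'
        · exact absurd h' h
        · exact Or.inr h'
      · rintro (h | h)
        · exact ⟨fun e => hsV (e ▸ h), Or.inl h⟩
        · exact ⟨fun e => hsW (e ▸ h), Or.inr (Or.inr h)⟩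
    rw [he] at h2
    refine h2.trans ?_
    rw [card_insert_of_notMem hsW]
    calc (8 * (m : ℝ) ^ 2) ^ m * EE (fun x => NU Δ (V ∪ W) F x ^ m)
        ≤ (8 * (m : ℝ) ^ 2) ^ m * (((8 * (m : ℝ) ^ 2) ^ W.card) ^ m *
            EE (fun x => NU Δ V F x ^ m)) := mul_le_mul_of_nonneg_left h1 (by positivity)
      _ = ((8 * (m : ℝ) ^ 2) ^ (W.card + 1)) ^ m * EE (fun x => NU Δ V F x ^ m) := by
        rw [pow_succ (8 * (m : ℝ) ^ 2) W.card, mul_pow ((8 * (m : ℝ) ^ 2) ^ W.card)]
        generalize (8 * (m : ℝ) ^ 2) ^ W.card = A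
        generalize (8 * (m : ℝ) ^ 2) = B
        ring

theorem ch_NU_empty (Δ : Finset (Fin d → Fin R)) (F : (Fin d → Fin R) → Pt d R → ℝ) (x : Pt d R)
    (hF : ∀ J, |F J x| ≤ 1) : NU Δ ∅ F x ≤ Δ.card := by
  unfold NU
  have hinj : ∀ J J' : Fin d → Fin R, off ∅ J = off ∅ J' → J = J' := by
    intro J J' h
    funext s
    have := congrFun h s
    simpa [off] using this
  have h1 : ∀ K : Fin d → Option (Fin R),
      (∑ J ∈ Δ.filter (fun J => off ∅ J = K), (∏ s ∈ (∅ : Finset (Fin d)), sg (x s (J s))) * F J x) ^ 2 ≤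
        ((Δ.filter (fun J => off ∅ J = K)).card : ℝ) := by
    intro K
    rcases (Δ.filter (fun J => off ∅ J = K)).eq_empty_or_nonempty with he | ⟨J0, hJ0⟩
    · rw [he]; simp
    · have hs : Δ.filter (fun J => off ∅ J = K) = {J0} := by
        ext J
        rw [mem_singleton]
        constructor
        · intro hJ
          exact hinj _ _ ((mem_filter.1 hJ).2.trans (mem_filter.1 hJ0).2.symm)
        · rintro rfl; exact hJ0
      rw [hs, sum_singleton, prod_empty, one_mul, card_singleton]
      have := hF J0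
      rw [← sq_abs]
      push_cast
      exact pow_le_one₀ (abs_nonneg _) this
  refine (sum_le_sum fun K _ => h1 K).trans ?_
  rw [← Nat.cast_sum, card_eq_sum_card_fiberwise (f := fun J => off ∅ J) (t := univ)
    (fun _ _ => mem_coe.2 (mem_univ _))]

theorem ch_num (u t : ℕ) (h : t < u) : (4 : ℝ) ^ u * 8 ^ (u - t) * 32 ^ (t ^ 2) ≤ 32 ^ (u ^ 2) := by
  have h1 : (8 : ℝ) ^ (u - t) ≤ 8 ^ u := pow_le_pow_right₀ (by norm_num) (by omega)
  have h2 : u + t ^ 2 ≤ u ^ 2 := by
    have : t + 1 ≤ u := h
    nlinarith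
  calc (4 : ℝ) ^ u * 8 ^ (u - t) * 32 ^ (t ^ 2) ≤ 4 ^ u * 8 ^ u * 32 ^ (t ^ 2) := by
        gcongr
    _ = 32 ^ (u + t ^ 2) := by
        rw [← mul_pow, pow_add]; norm_num
    _ ≤ 32 ^ (u ^ 2) := pow_le_pow_right₀ (by norm_num) h2

theorem ch_num2 (u : ℕ) : (4 : ℝ) ^ u * 8 ^ u ≤ 32 ^ (u ^ 2) := by
  rw [← mul_pow]
  norm_num
  refine pow_le_pow_right₀ (by norm_num) ?_
  rcases Nat.eq_zero_or_pos u with h | h
  · rw [h]; norm_num
  · nlinarith

end

theorem ch_fin (n t m c : ℕ) (h : t < n) :
    ((4 : ℝ) ^ n * 8 ^ (n - t) * 32 ^ (t ^ 2) * (m : ℝ) ^ (2 * n) * c) ^ m ≤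
      (32 ^ (n ^ 2) * (m : ℝ) ^ (2 * n) * c) ^ m := by
  refine pow_le_pow_left₀ (by positivity) ?_ m
  have := ch_num n t h
  gcongr

/-- the moment bound for the sum of the pieces -/
theorem ch_main (hs : S_STEP) (d R m : ℕ) (Δ : Finset (Fin d → Fin R))
    (a : (Fin d → Fin R) → Pt d R → ℝ) (b : Finset (Fin d) → (Fin d → Fin R) → Pt d R → ℝ)
    (hm : 1 ≤ m) (ha : ∀ J x, |a J x| ≤ 1) (hap : ∀ s J, Pred s J (a J))
    (hb : ∀ T J x, 0 ≤ b T J x ∧ b T J x ≤ 1) (hbp : ∀ T J s, s ∉ T → Pred s J (b T J))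
    (hbc : ∀ T J J' x, (∀ s, s ∉ T → J s = J' s) → b T J x = b T J' x) (n : ℕ) :
    ∀ U : Finset (Fin d), U.card = n →
    EE (fun x : Pt d R => NU Δ U (fun J x => a J x * kap (fun T => b T J x) U) x ^ m) ≤
      (32 ^ (n ^ 2) * (m : ℝ) ^ (2 * n) * Δ.card) ^ m := by
  classical
  induction n using Nat.strong_induction_on with
  | _ n ih =>
    intro U hU
    set G : Finset (Fin d) → (Fin d → Fin R) → Pt d R → ℝ := fun T J x =>
      if T = U then a J x else -(a J x * (b T J x * kap (fun T' => b T' J x) T)) with hG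
    -- decomposition
    have hdec : (fun (J : Fin d → Fin R) (x : Pt d R) => a J x * kap (fun T => b T J x) U) =
        fun J x => ∑ T ∈ U.powerset, G T J x := by
      funext J x
      have hp : U.powerset = insert U U.ssubsets := by
        ext T
        rw [mem_insert, mem_powerset, mem_ssubsets]
        exact (subset_iff_ssubset_or_eq.trans or_comm)
      have hn : U ∉ U.ssubsets := fun h => (mem_ssubsets.1 h).2 (Subset.refl U)
      rw [hp, sum_insert hn, ch_kap, mul_sub, mul_one, mul_sum, sub_eq_add_neg, ← sum_neg_distrib]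
      congr 1
      · rw [hG]; simp
      · refine sum_congr rfl fun T hT => ?_
        have : T ≠ U := (mem_ssubsets.1 hT).ne
        rw [hG]
        simp [this]
    have hcard : (U.powerset.card : ℝ) = 2 ^ n := by
      rw [card_powerset, hU]; push_cast; rfl
    -- each piece
    have hpiece : ∀ T ∈ U.powerset, 
        (4 ^ n : ℝ) ^ m * EE (fun x : Pt d R => NU Δ U (G T) x ^ m) ≤
        (32 ^ (n ^ 2) * (m : ℝ) ^ (2 * n) * Δ.card) ^ m := by
      intro T hT
      by_cases hTU : T = U
      · have hGa : G T = a := by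
          funext J x
          rw [hG]
          simp [hTU]
        rw [hGa]
        have h1 := ch_iter hs m hm Δ a ∅ U (disjoint_empty_left U) (fun s _ J _ => hap s J)
        rw [empty_union, hU] at h1
        have h2 : EE (fun x : Pt d R => NU Δ ∅ a x ^ m) ≤ (Δ.card : ℝ) ^ m := by
          refine (EE_mono fun x => pow_le_pow_left₀ (ch_NU_nonneg Δ ∅ a x)
            (ch_NU_empty Δ a x (fun J => ha J x)) m).trans ?_
          exact le_of_eq (EE_const _)
        calc (4 ^ n : ℝ) ^ m * EE (fun x : Pt d R => NU Δ U a x ^ m)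
            ≤ (4 ^ n : ℝ) ^ m * (((8 * (m : ℝ) ^ 2) ^ n) ^ m * (Δ.card : ℝ) ^ m) :=
              mul_le_mul_of_nonneg_left (h1.trans
                (mul_le_mul_of_nonneg_left h2 (by positivity))) (by positivity)
          _ = (4 ^ n * 8 ^ n * (m : ℝ) ^ (2 * n) * Δ.card) ^ m := by
              rw [← mul_pow, ← mul_pow]
              congr 1
              rw [mul_pow, ← pow_mul]
              ring
          _ ≤ _ := by
              refine pow_le_pow_left₀ (by positivity) ?_ m
              have := ch_num2 n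
              gcongr
      · have hTs : T ⊂ U := (mem_powerset.1 hT).ssubset_of_ne hTU
        have hlt : T.card < n := by rw [← hU]; exact card_lt_card hTs
        set F : (Fin d → Fin R) → Pt d R → ℝ :=
          fun J x => a J x * (b T J x * kap (fun T' => b T' J x) T) with hF
        have hGF : G T = fun J x => -F J x := by
          funext J x
          rw [hG, hF]
          simp [hTU]
        have e1 : (fun x : Pt d R => NU Δ U (G T) x ^ m) = fun x => NU Δ U F x ^ m := by
          funext x
          rw [hGF, ch_NU_neg]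
        rw [e1]
        have hUT : T ∪ (U \ T) = U := union_sdiff_of_subset hTs.1
        have hcd : (U \ T).card = n - T.card := by
          rw [card_sdiff_of_subset hTs.1, hU]
        have hpred : ∀ s ∈ U \ T, ∀ J ∈ Δ, Pred s J (F J) := by
          intro s hs J _ x y hxy hpre
          have hsT : s ∉ T := (mem_sdiff.1 hs).2
          rw [hF]
          dsimp only
          rw [hap s J x y hxy hpre, hbp T J s hsT x y hxy hpre,
            ch_kap_congr (fun T' => b T' J x) (fun T' => b T' J y) T.card T rfl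
              (fun T' hT' => hbp T' J s (fun h => hsT (hT'.1 h)) x y hxy hpre)]
        have h1 := ch_iter hs m hm Δ F T (U \ T) disjoint_sdiff hpred
        rw [hUT, hcd] at h1
        have h2 : EE (fun x : Pt d R => NU Δ T F x ^ m) ≤
            EE (fun x : Pt d R => NU Δ T (fun J x => a J x * kap (fun T' => b T' J x) T) x ^ m) := by
          refine EE_mono fun x => pow_le_pow_left₀ (ch_NU_nonneg Δ T F x) ?_ m
          unfold NU
          refine sum_le_sum fun K _ => ?_
          rcases (Δ.filter (fun J => off T J = K)).eq_empty_or_nonempty with he | ⟨J0, hJ0⟩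
          · rw [he]; simp
          · have hbk : ∀ J ∈ Δ.filter (fun J => off T J = K), b T J x = b T J0 x := by
              intro J hJ
              refine hbc T J J0 x fun s hs => ?_
              have h3 : off T J = off T J0 :=
                (mem_filter.1 hJ).2.trans (mem_filter.1 hJ0).2.symm
              have h4 := congrFun h3 s
              unfold off at h4
              rw [if_neg hs, if_neg hs] at h4
              exact Option.some.inj h4
            have e2 : ∑ J ∈ Δ.filter (fun J => off T J = K), (∏ s ∈ T, sg (x s (J s))) * F J x =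
                b T J0 x * ∑ J ∈ Δ.filter (fun J => off T J = K), (∏ s ∈ T, sg (x s (J s))) *
                  (a J x * kap (fun T' => b T' J x) T) := by
              rw [mul_sum]
              refine sum_congr rfl fun J hJ => ?_
              rw [hF]
              dsimp only
              rw [hbk J hJ]
              ring
            rw [e2, mul_pow]
            have hb1 := hb T J0 x
            have hb2 : (b T J0 x) ^ 2 ≤ 1 := pow_le_one₀ hb1.1 hb1.2
            exact mul_le_of_le_one_left (sq_nonneg _) hb2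
        have h3 := ih T.card hlt T rfl
        calc (4 ^ n : ℝ) ^ m * EE (fun x : Pt d R => NU Δ U F x ^ m)
            ≤ (4 ^ n : ℝ) ^ m * (((8 * (m : ℝ) ^ 2) ^ (n - T.card)) ^ m *
                (32 ^ (T.card ^ 2) * (m : ℝ) ^ (2 * T.card) * Δ.card) ^ m) :=
              mul_le_mul_of_nonneg_left (h1.trans
                (mul_le_mul_of_nonneg_left (h2.trans h3) (by positivity))) (by positivity)
          _ = (4 ^ n * 8 ^ (n - T.card) * 32 ^ (T.card ^ 2) * (m : ℝ) ^ (2 * n) * Δ.card) ^ m := by
              rw [← mul_pow, ← mul_pow]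
              congr 1
              have e3 : (m : ℝ) ^ (2 * n) = (m : ℝ) ^ (2 * (n - T.card)) * (m : ℝ) ^ (2 * T.card) := by
                rw [← pow_add]
                congr 1
                omega
              rw [e3, mul_pow, ← pow_mul]
              ring
          _ ≤ _ := ch_fin n T.card m Δ.card hlt
    -- assembly
    have hnum : EE (fun x : Pt d R => NU Δ U (fun J x => ∑ T ∈ U.powerset, G T J x) x ^ m) ≤
        ∑ T ∈ U.powerset, (2 ^ n : ℝ) ^ m * ((2 ^ n : ℝ) ^ (m - 1) *
          EE (fun x : Pt d R => NU Δ U (G T) x ^ m)) := by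
      have e : ∑ T ∈ U.powerset, (2 ^ n : ℝ) ^ m * ((2 ^ n : ℝ) ^ (m - 1) *
          EE (fun x : Pt d R => NU Δ U (G T) x ^ m)) =
          EE (fun x : Pt d R => (2 ^ n : ℝ) ^ m * ((2 ^ n : ℝ) ^ (m - 1) *
            ∑ T ∈ U.powerset, NU Δ U (G T) x ^ m)) := by
        rw [EE_mul_left, EE_mul_left, EE_sum, mul_sum, mul_sum]
      rw [e]
      refine EE_mono fun x => ?_
      have h1 := ch_NU_sum U.powerset Δ U G x
      rw [hcard] at h1
      have h2 : (∑ T ∈ U.powerset, NU Δ U (G T) x) ^ m ≤
          (2 ^ n : ℝ) ^ (m - 1) * ∑ T ∈ U.powerset, NU Δ U (G T) x ^ m := by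
        have h3 := pow_sum_le_card_mul_sum_pow (s := U.powerset) (f := fun T => NU Δ U (G T) x)
          (fun T _ => ch_NU_nonneg Δ U (G T) x) (m - 1)
        rw [hcard, show m - 1 + 1 = m by omega] at h3
        exact h3
      calc NU Δ U (fun J x => ∑ T ∈ U.powerset, G T J x) x ^ m
          ≤ ((2 ^ n : ℝ) * ∑ T ∈ U.powerset, NU Δ U (G T) x) ^ m :=
            pow_le_pow_left₀ (ch_NU_nonneg _ _ _ _) h1 m
        _ = (2 ^ n : ℝ) ^ m * (∑ T ∈ U.powerset, NU Δ U (G T) x) ^ m := mul_pow _ _ _
        _ ≤ _ := mul_le_mul_of_nonneg_left h2 (by positivity)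
    rw [hdec]
    refine hnum.trans ?_
    have hfin : ∀ T ∈ U.powerset, (2 ^ n : ℝ) ^ m * ((2 ^ n : ℝ) ^ (m - 1) *
          EE (fun x : Pt d R => NU Δ U (G T) x ^ m)) ≤
        (1 / 2 ^ n) * (32 ^ (n ^ 2) * (m : ℝ) ^ (2 * n) * Δ.card) ^ m := by
      intro T hT
      have h1 := hpiece T hT
      have e : (2 ^ n : ℝ) ^ m * ((2 ^ n : ℝ) ^ (m - 1) *
          EE (fun x : Pt d R => NU Δ U (G T) x ^ m)) =
          (1 / 2 ^ n) * ((4 ^ n : ℝ) ^ m * EE (fun x : Pt d R => NU Δ U (G T) x ^ m)) := by
        have h4 : (4 ^ n : ℝ) = 2 ^ n * 2 ^ n := by rw [← mul_pow]; norm_num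
        have h6 : (2 ^ n : ℝ) ≠ 0 := pow_ne_zero _ (by norm_num)
        rw [h4]
        generalize (2 ^ n : ℝ) = P at h6 ⊢
        generalize EE (fun x : Pt d R => NU Δ U (G T) x ^ m) = E1
        have h5 : P ^ m = P ^ (m - 1) * P := by
          rw [← pow_succ]; congr 1; omega
        rw [mul_pow, h5]
        generalize P ^ (m - 1) = Q1
        field_simp
      rw [e]
      exact mul_le_mul_of_nonneg_left h1 (by positivity)
    refine (sum_le_sum hfin).trans ?_
    rw [sum_const, nsmul_eq_mul, hcard, ← mul_assoc]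
    have h6 : (2 ^ n : ℝ) * (1 / 2 ^ n) = 1 := by
      have h7 : (2 ^ n : ℝ) ≠ 0 := pow_ne_zero _ (by norm_num)
      exact mul_one_div_cancel h7
    rw [h6, one_mul]

theorem CHAOS (hs : S_STEP) : S_CHAOS := by
  classical
  intro d R m Δ a b hm ha hap hb hbp hbc
  have h := ch_main hs d R m Δ a b hm ha hap hb hbp hbc d univ (by simp)
  refine le_trans (le_of_eq ?_) h
  congr 1
  funext x
  rw [pow_mul]
  congr 1
  unfold NU
  have hoff : ∀ J : Fin d → Fin R, off univ J = fun _ => none := by
    intro J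
    funext s
    simp [off]
  rw [Finset.sum_eq_single (fun _ => none : Fin d → Option (Fin R))]
  · have e : Δ.filter (fun J => off univ J = fun _ => none) = Δ := by
      refine filter_true_of_mem fun J _ => hoff J
    rw [e]
    congr 1
    refine sum_congr rfl fun J _ => ?_
    unfold chi
    ring
  · intro K _ hK
    have e : Δ.filter (fun J => off univ J = K) = ∅ := by
      refine filter_false_of_mem fun J _ h => hK ?_
      rw [← h, hoff]
    rw [e]
    simp
  · intro h
    exact absurd (mem_univ _) h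

end Pool.Agent.H636R2.LD
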