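import Pool.Agent.H636R2.LD.Stmts

set_option autoImplicit false

/-! # CLO: signed sum over chains of a family closed under intersection (helper55) -/

namespace Pool.Agent.H636R2.LD

open Finset

theorem kap_eq {d : ℕ} (b : Finset (Fin d) → ℝ) (U : Finset (Fin d)) :
    kap b U = 1 - ∑ T ∈ U.ssubsets, b T * kap b T := by
  rw [kap, Finset.sum_attach U.ssubsets (fun T => b T * kap b T)]

theorem CLO : S_CLO := by
  classical
  intro d b hb hb0 hcl
  by_cases hF : ∃ T : Finset (Fin d), T ≠ univ ∧ b T = 1
  · -- a member of minimal cardinality
    have hne : ((univ : Finset (Finset (Fin d))).filter fun T => T ≠ univ ∧ b T = 1).Nonempty := by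
      obtain ⟨T, h1, h2⟩ := hF
      exact ⟨T, by simp [h1, h2]⟩
    obtain ⟨T0, hT0, hmin⟩ := Finset.exists_min_image _ (fun T => T.card) hne
    rw [mem_filter] at hT0
    have hle : ∀ T : Finset (Fin d), T ≠ univ → b T = 1 → T0 ⊆ T := by
      intro T h1 h2
      have h3 : b (T0 ∩ T) = 1 := hcl T0 T hT0.2.1 h1 hT0.2.2 h2
      have h4 : T0 ∩ T ≠ univ := by
        intro h
        apply hT0.2.1
        rw [Finset.eq_univ_iff_forall] at h ⊢
        intro x
        exact (mem_inter.mp (h x)).1
      have h5 := hmin (T0 ∩ T) (by simp [h3, h4])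
      have h6 : T0 ∩ T = T0 := Finset.eq_of_subset_of_card_le inter_subset_left h5
      rw [← h6]
      exact inter_subset_right
    have hk0 : kap b T0 = 1 := by
      rw [kap_eq]
      have : ∑ T ∈ T0.ssubsets, b T * kap b T = 0 := by
        refine Finset.sum_eq_zero fun T hT => ?_
        rw [mem_ssubsets] at hT
        rcases hb T with h | h
        · rw [h, zero_mul]
        · exfalso
          have hTu : T ≠ univ := by
            rintro rfl
            exact hT.2 (subset_univ _)
          exact hT.2 (hle T hTu h)
      rw [this, sub_zero]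
    have hk : ∀ n : ℕ, ∀ U : Finset (Fin d), U.card = n → T0 ⊂ U → kap b U = 0 := by
      intro n
      induction n using Nat.strong_induction_on with
      | _ n ih =>
        intro U hU hTU
        rw [kap_eq, Finset.sum_eq_single T0]
        · rw [hT0.2.2, hk0]; ring
        · intro T hT hne'
          rw [mem_ssubsets] at hT
          rcases hb T with h | h
          · rw [h, zero_mul]
          · have hTu : T ≠ univ := by
              rintro rfl
              exact hT.2 (subset_univ _)
            have h1 := hle T hTu h
            have h2 : T0 ⊂ T := lt_of_le_of_ne h1 (fun e => hne' e.symm)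
            rw [ih T.card (by rw [← hU]; exact card_lt_card hT) T rfl h2, mul_zero]
        · intro h
          exact absurd (mem_ssubsets.mpr hTU) h
    have hss : T0 ⊂ univ := lt_of_le_of_ne (subset_univ _) hT0.2.1
    rw [hk _ univ rfl hss]
    symm
    apply Finset.prod_eq_zero (i := T0)
    · exact mem_erase.mpr ⟨hT0.2.1, mem_univ _⟩
    · rw [hT0.2.2]; ring
  · have hz : ∀ T : Finset (Fin d), T ≠ univ → b T = 0 := by
      intro T hT
      rcases hb T with h | h
      · exact h
      · exact absurd ⟨T, hT, h⟩ hF
    rw [kap_eq, Finset.sum_eq_zero, Finset.prod_eq_one]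
    · ring
    · intro T hT
      rw [hz T (mem_erase.mp hT).1]; ring
    · intro T hT
      rw [mem_ssubsets] at hT
      have hTu : T ≠ univ := by
        rintro rfl
        exact hT.2 (subset_univ _)
      rw [hz T hTu, zero_mul]

end Pool.Agent.H636R2.LD
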