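import Pool.Agent.H636R2.LD.Stmts

set_option autoImplicit false

/-! Task CNT: few boxes contain points. -/

namespace Pool.Agent.H636R2.LD

open Finset

namespace CNT

/-- lexicographic order -/
lemma num_lt {R : ℕ} (a b : Fin R → Bool) (i : Fin R) (h : ∀ k, k < i → a k = b k)
    (ha : a i = false) (hb : b i = true) : num a < num b := by
  have hsplit : ∀ c : Fin R → Bool, num c =
      ∑ k ∈ Iio i, (if c k then 2 ^ (R - 1 - (k : ℕ)) else 0) +
      ((if c i then 2 ^ (R - 1 - (i : ℕ)) else 0) +
      ∑ k ∈ Ioi i, (if c k then 2 ^ (R - 1 - (k : ℕ)) else 0)) := by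
    intro c
    unfold num
    have h1 : (univ : Finset (Fin R)) = Iio i ∪ (insert i (Ioi i)) := by
      ext k
      simp only [mem_univ, mem_union, mem_Iio, mem_insert, mem_Ioi, true_iff]
      rcases lt_trichotomy k i with h | h | h
      · exact Or.inl h
      · exact Or.inr (Or.inl h)
      · exact Or.inr (Or.inr h)
    rw [h1, Finset.sum_union, Finset.sum_insert]
    · simp
    · rw [Finset.disjoint_left]
      intro k hk hk'
      rw [mem_Iio] at hk
      rw [mem_insert, mem_Ioi] at hk'
      rcases hk' with h | h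
      · exact absurd (h ▸ hk) (lt_irrefl _)
      · exact absurd (hk.trans h) (lt_irrefl _)
  rw [hsplit a, hsplit b]
  have h1 : ∑ k ∈ Iio i, (if a k then 2 ^ (R - 1 - (k : ℕ)) else 0) =
      ∑ k ∈ Iio i, (if b k then 2 ^ (R - 1 - (k : ℕ)) else 0) := by
    refine Finset.sum_congr rfl fun k hk => ?_
    rw [h k (mem_Iio.1 hk)]
  have h2 : ∑ k ∈ Ioi i, (if a k then 2 ^ (R - 1 - (k : ℕ)) else 0) < 2 ^ (R - 1 - (i : ℕ)) := by
    have h3 : ∑ k ∈ Ioi i, (if a k then 2 ^ (R - 1 - (k : ℕ)) else 0) ≤
        ∑ k ∈ Ioi i, 2 ^ (R - 1 - (k : ℕ)) :=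
      Finset.sum_le_sum fun k _ => by split_ifs <;> simp
    have h4 : ∑ k ∈ Ioi i, 2 ^ (R - 1 - (k : ℕ)) =
        ∑ x ∈ (Ioi i).image (fun k : Fin R => R - 1 - (k : ℕ)), 2 ^ x := by
      rw [Finset.sum_image]
      intro k hk l hl hkl
      have h5 := k.2
      have h6 := l.2
      simp only at hkl
      exact Fin.ext (by omega)
    have h5 : ∑ x ∈ (Ioi i).image (fun k : Fin R => R - 1 - (k : ℕ)), 2 ^ x <
        2 ^ (R - 1 - (i : ℕ)) := by
      refine Nat.geomSum_lt le_rfl fun x hx => ?_
      rw [mem_image] at hx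
      obtain ⟨k, hk, rfl⟩ := hx
      have h6 : (i : ℕ) < k := by simpa using hk
      have h7 := k.2
      omega
    omega
  rw [h1, ha, hb]
  simp only [Bool.false_eq_true, if_false, if_true]
  omega

/-- all words separated by `P` have the same first digits -/
lemma prefix_eq {R : ℕ} (P : ℕ) (j : Fin R) (v v' : Fin R → Bool) (h : ¬ cst P j v)
    (h' : ¬ cst P j v') : ∀ i, i < j → v i = v' i := by
  have key : ∀ v v' : Fin R → Bool, ¬ cst P j v → ¬ cst P j v' → ∀ i, i < j →
      (∀ k, k < i → v k = v' k) → v i = false → v' i = true → False := by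
    intro v v' h h' i hij hk h0 h1
    unfold cst at h h'
    push Not at h h'
    -- a word of `v` which is at least `P`
    obtain ⟨w, hw⟩ : ∃ w, P ≤ num (splw j v w) := by
      obtain ⟨w, w', h2⟩ := h
      rcases h2 with h2 | h2
      · exact ⟨w, h2.1⟩
      · exact ⟨w', h2.2⟩
    obtain ⟨w', hw'⟩ : ∃ w, num (splw j v' w) < P := by
      obtain ⟨w, w', h2⟩ := h'
      rcases h2 with h2 | h2
      · exact ⟨w', h2.2⟩
      · exact ⟨w, h2.1⟩
    have h3 : num (splw j v w) < num (splw j v' w') := by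
      refine num_lt _ _ i (fun k hki => ?_) ?_ ?_
      · simp only [splw, if_pos (hki.trans hij)]
        exact hk k hki
      · simp only [splw, if_pos hij]
        exact h0
      · simp only [splw, if_pos hij]
        exact h1
    omega
  by_contra hcon
  push Not at hcon
  -- the first difference
  have hex : ∃ n : ℕ, ∃ hn : n < R, (⟨n, hn⟩ : Fin R) < j ∧ v ⟨n, hn⟩ ≠ v' ⟨n, hn⟩ := by
    obtain ⟨i, hi, hne⟩ := hcon
    exact ⟨i, i.2, hi, hne⟩
  classical
  obtain ⟨hn, hj, hne⟩ := Nat.find_spec hex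
  have hmin : ∀ k : Fin R, k < ⟨Nat.find hex, hn⟩ → v k = v' k := by
    intro k hk
    by_contra hne'
    exact Nat.find_min hex (m := k) hk ⟨k.2, hk.trans hj, hne'⟩
  cases hv : v ⟨Nat.find hex, hn⟩ with
  | false =>
    cases hv' : v' ⟨Nat.find hex, hn⟩ with
    | false => rw [hv, hv'] at hne; exact hne rfl
    | true => exact key v v' h h' _ hj hmin hv hv'
  | true =>
    cases hv' : v' ⟨Nat.find hex, hn⟩ with
    | false => exact key v' v h' h _ hj (fun k hk => (hmin k hk).symm) hv' hv
    | true => rw [hv, hv'] at hne; exact hne rfl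

open Classical in
/-- few words are separated by `P` -/
lemma card_sep {R : ℕ} (P : ℕ) (j : Fin R) :
    (univ.filter (fun v : Fin R → Bool => ¬ cst P j v)).card ≤ 2 ^ (R - (j : ℕ)) := by
  rcases (univ.filter (fun v : Fin R → Bool => ¬ cst P j v)).eq_empty_or_nonempty with h | h
  · rw [h]; simp
  · obtain ⟨v0, hv0⟩ := h
    rw [mem_filter] at hv0
    have hsub : univ.filter (fun v : Fin R → Bool => ¬ cst P j v) ⊆
        Fintype.piFinset (fun i : Fin R => if i < j then {v0 i} else univ) := by
      intro v hv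
      rw [mem_filter] at hv
      rw [Fintype.mem_piFinset]
      intro i
      split_ifs with hi
      · rw [mem_singleton]
        exact prefix_eq P j v v0 hv.2 hv0.2 i hi
      · exact mem_univ _
    refine (Finset.card_le_card hsub).trans ?_
    rw [Fintype.card_piFinset]
    have h3 : ∀ i : Fin R, (if i < j then {v0 i} else (univ : Finset Bool)).card =
        if i < j then 1 else 2 := by
      intro i
      split_ifs <;> simp
    rw [Finset.prod_congr rfl fun i _ => h3 i, Finset.prod_ite]
    simp only [Finset.prod_const, one_pow, one_mul]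
    have : univ.filter (fun i : Fin R => ¬ i < j) = Ici j := by
      ext i; simp
    rw [this, Fin.card_Ici]

open Classical in
lemma EE_sep {R : ℕ} (P : ℕ) (j : Fin R) :
    EE (fun v : Fin R → Bool => if cst P j v then (0 : ℝ) else 1) ≤ 1 / 2 ^ (j : ℕ) := by
  unfold EE
  have h1 : ∑ v : Fin R → Bool, (if cst P j v then (0 : ℝ) else 1) =
      ((univ.filter (fun v : Fin R → Bool => ¬ cst P j v)).card : ℝ) := by
    rw [Finset.card_filter]
    push_cast
    refine Finset.sum_congr rfl fun v _ => ?_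
    by_cases h : cst P j v <;> simp [h]
  rw [h1, Fintype.card_fun, Fintype.card_fin, Fintype.card_bool]
  have h2 : ((univ.filter (fun v : Fin R → Bool => ¬ cst P j v)).card : ℝ) ≤ 2 ^ (R - (j : ℕ)) := by
    exact_mod_cast card_sep P j
  push_cast
  rw [div_le_div_iff₀ (by positivity) (by positivity), one_mul]
  calc _ ≤ (2 : ℝ) ^ (R - (j : ℕ)) * 2 ^ (j : ℕ) := by gcongr
    _ = 2 ^ R := by rw [← pow_add]; congr 1; have := j.2; omega

end CNT

open Classical in
theorem CNT : S_CNT := by
  intro d R n ι S p J hJ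
  have hn : ∑ s, (J s : ℕ) = n := by simpa [lev] using hJ
  have h1 : ∀ x : Pt d R, (if Emp S p J x then (0 : ℝ) else 1) ≤
      ∑ j ∈ S, ∏ s, (if cst (p j s) (J s) (x s) then (0 : ℝ) else 1) := by
    intro x
    have hnn : ∀ j ∈ S, (0 : ℝ) ≤ ∏ s, (if cst (p j s) (J s) (x s) then (0 : ℝ) else 1) :=
      fun j _ => Finset.prod_nonneg fun s _ => by split_ifs <;> norm_num
    by_cases h : Emp S p J x
    · rw [if_pos h]
      exact Finset.sum_nonneg hnn
    · rw [if_neg h]
      unfold Emp at h
      push Not at h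
      obtain ⟨j, hj, h2⟩ := h
      refine le_trans (le_of_eq ?_) (Finset.single_le_sum hnn hj)
      symm
      exact Finset.prod_eq_one fun s _ => if_neg (h2 s)
  refine (EE_mono h1).trans ?_
  rw [EE_sum]
  calc ∑ j ∈ S, EE (fun x : Pt d R => ∏ s, (if cst (p j s) (J s) (x s) then (0 : ℝ) else 1))
      ≤ ∑ j ∈ S, (1 : ℝ) / 2 ^ n := by
        refine Finset.sum_le_sum fun j _ => ?_
        rw [EE_pi (fun s (v : Fin R → Bool) => if cst (p j s) (J s) v then (0 : ℝ) else 1)]
        calc ∏ s, EE (fun v : Fin R → Bool => if cst (p j s) (J s) v then (0 : ℝ) else 1)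
            ≤ ∏ s, (1 : ℝ) / 2 ^ (J s : ℕ) :=
              Finset.prod_le_prod (fun s _ => EE_nonneg fun v => by split_ifs <;> norm_num)
                fun s _ => CNT.EE_sep _ _
          _ = 1 / 2 ^ n := by
              rw [Finset.prod_div_distrib, Finset.prod_const_one, Finset.prod_pow_eq_pow_sum, hn]
    _ = S.card / 2 ^ n := by
        rw [Finset.sum_const, nsmul_eq_mul, mul_one_div]

end Pool.Agent.H636R2.LD
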