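import Pool.Agent.H636R2.LD.Stmts

set_option autoImplicit false
set_option linter.all false

namespace Pool.Agent.H636R2.LD

open Finset MeasureTheory

theorem CUBE_key (P u : ℝ) (V a : ℕ) : (P ≤ ((a : ℝ) + u) / 2 ^ V) ↔ ⌈P * 2 ^ V - u⌉₊ ≤ a := by
  rw [Nat.ceil_le, le_div_iff₀ (by positivity)]
  constructor <;> intro h <;> linarith

theorem CUBE_disc {d R : ℕ} {ι : Type} (S : Finset ι) (w : ι → ℝ) (P : ι → Fin d → ℝ) (M : ℝ)
    (u : Fin d → ℝ) (x : Pt d R) :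
    H736R2.Lone.disc S w P M (fun s => ((num (x s) : ℝ) + u s) / 2 ^ R) =
      DD S w (fun j s => ⌈P j s * 2 ^ R - u s⌉₊) M u x := by
  unfold H736R2.Lone.disc DD
  simp only [CUBE_key]

theorem CUBE (h1 : S_PAR) (h2 : S_INT) : S_CUBE := by
  intro d hd C hC
  obtain ⟨c, hc, M₀, hM₀, H⟩ := h1 d hd C hC
  refine ⟨c, hc, M₀, hM₀, fun M hM ι S w P hS => ?_⟩
  obtain ⟨R, hR⟩ := H M hM
  refine h2 d R (fun x => ENNReal.ofReal |H736R2.Lone.disc S w P M x|)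
    (H736R2.Lone.measurable_disc S w P M).abs.ennreal_ofReal _ (fun u => ?_)
  have h3 := hR ι S w (fun j s => ⌈P j s * 2 ^ R - u s⌉₊) u hS
  simp only [CUBE_disc]
  have h4 : (∑ x : Pt d R, ENNReal.ofReal
      |DD S w (fun j s => ⌈P j s * 2 ^ R - u s⌉₊) M u x|) / (2 ^ R) ^ d =
      ENNReal.ofReal (EE fun x : Pt d R => |DD S w (fun j s => ⌈P j s * 2 ^ R - u s⌉₊) M u x|) := by
    unfold EE
    have hcard : ((Fintype.card (Pt d R) : ℕ) : ℝ) = ((2 : ℝ) ^ R) ^ d := by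
      simp [Pt]
    have h5 : ((2 : ENNReal) ^ R) ^ d = ENNReal.ofReal (((2 : ℝ) ^ R) ^ d) := by
      rw [ENNReal.ofReal_pow (by positivity), ENNReal.ofReal_pow (by norm_num)]
      simp
    rw [hcard, ENNReal.ofReal_div_of_pos (by positivity),
      ENNReal.ofReal_sum_of_nonneg (fun _ _ => abs_nonneg _), h5]
  rw [h4]
  exact ENNReal.ofReal_le_ofReal h3

end Pool.Agent.H636R2.LD
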