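import Mathlib

set_option autoImplicit false

/-!
# Near-sharp `L^1` lower bound for the star discrepancy in all dimensions: definitions
-/

namespace Pool.Agent.H636R2.LD

open Finset

/-- average over a finite type (values in `ℝ` or `ℂ`) -/
noncomputable def EE {𝕜 : Type} [Field 𝕜] {α : Type} [Fintype α] (f : α → 𝕜) : 𝕜 :=
  (∑ x, f x) / (Fintype.card α : 𝕜)

/-! ## One block -/

/-- `x` on `T`, `y` off `T` -/
def mix {d : ℕ} {Ω : Type} (T : Finset (Fin d)) (x y : Fin d → Ω) : Fin d → Ω :=
  fun s => if s ∈ T then x s else y s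

/-- fibre average of `|g|`: coordinates in `T` are those of `x`, the others are averaged -/
noncomputable def fib {d : ℕ} {Ω : Type} [Fintype Ω] (g : (Fin d → Ω) → ℂ) (T : Finset (Fin d))
    (x : Fin d → Ω) : ℝ :=
  EE fun y : Fin d → Ω => ‖g (mix T x y)‖

/-- indicator that the fibre over `T` through `x` is wild -/
noncomputable def wild {d : ℕ} {Ω : Type} [Fintype Ω] (g : (Fin d → Ω) → ℂ)
    (τ : Finset (Fin d) → ℝ) (T : Finset (Fin d)) (x : Fin d → Ω) : ℝ :=
  if τ T < fib g T x then 1 else 0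

/-- indicator that no fibre through `x` over a proper subset of the coordinates is wild -/
noncomputable def K0 {d : ℕ} {Ω : Type} [Fintype Ω] (g : (Fin d → Ω) → ℂ)
    (τ : Finset (Fin d) → ℝ) (x : Fin d → Ω) : ℝ :=
  ∏ T ∈ (univ : Finset (Finset (Fin d))).erase univ, (1 - wild g τ T x)

/-- the corner of the plaquette `(x,y)` number `W` (`y` on `W`, `x` off `W`) is `mix W y x`;
`KK` is the weight on pairs -/
noncomputable def KK {d : ℕ} {Ω : Type} [Fintype Ω] (g : (Fin d → Ω) → ℂ)
    (τ : Finset (Fin d) → ℝ) (x y : Fin d → Ω) : ℝ :=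
  ∏ W : Finset (Fin d), K0 g τ (mix W y x)

/-- conjugate if `|W|` is odd -/
noncomputable def cj {d : ℕ} (W : Finset (Fin d)) (z : ℂ) : ℂ :=
  if Even W.card then z else (starRingEnd ℂ) z

/-- product over the corners of the plaquette -/
noncomputable def RR {d : ℕ} {Ω : Type} (g : (Fin d → Ω) → ℂ) (x y : Fin d → Ω) : ℂ :=
  ∏ W : Finset (Fin d), (1 + cj W (g (mix W y x)))

/-- signed sum over chains: `κ_U = 1 - ∑_{T ⊊ U} b_T κ_T` -/
noncomputable def kap {d : ℕ} (b : Finset (Fin d) → ℝ) (U : Finset (Fin d)) : ℝ :=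
  1 - ∑ T ∈ U.ssubsets.attach, b T.1 * kap b T.1
termination_by U.card
decreasing_by exact card_lt_card (mem_ssubsets.1 T.2)

/-! ## The grid -/

/-- points of the grid: `d` words of `R` binary digits -/
abbrev Pt (d R : ℕ) := Fin d → Fin R → Bool

/-- sign of a digit -/
def sg (b : Bool) : ℝ := if b then 1 else -1

/-- the integer with binary digits `w` (most significant digit first) -/
def num {R : ℕ} (w : Fin R → Bool) : ℕ := ∑ i : Fin R, if w i then 2 ^ (R - 1 - (i : ℕ)) else 0

/-- first `j` digits of `v`, then the digits of `w` -/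
def splw {R : ℕ} (j : Fin R) (v w : Fin R → Bool) : Fin R → Bool := fun i => if i < j then v i else w i

/-- the point with coordinates `x_s` for `s ∈ T`, and for `s ∉ T` the first `J_s` digits of `x_s`
followed by those of `y_s` -/
def spl {d R : ℕ} (J : Fin d → Fin R) (T : Finset (Fin d)) (x y : Pt d R) : Pt d R :=
  fun s i => if s ∈ T ∨ i < J s then x s i else y s i

/-- product Haar sign of level `J` -/
def chi {d R : ℕ} (J : Fin d → Fin R) (x : Pt d R) : ℝ := ∏ s, sg (x s (J s))

/-- average of `|g|` over `x_T × (box of level J around x, coordinates off T)` -/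
noncomputable def eta {d R : ℕ} (g : Pt d R → ℂ) (J : Fin d → Fin R) (T : Finset (Fin d))
    (x : Pt d R) : ℝ :=
  EE fun y : Pt d R => ‖g (spl J T x y)‖

/-- indicator of a wild fibre; `T` nonempty -/
noncomputable def bad {d R : ℕ} (g : Pt d R → ℂ) (τ : ℕ → ℝ) (T : Finset (Fin d))
    (J : Fin d → Fin R) (x : Pt d R) : ℝ :=
  if T.Nonempty ∧ τ T.card < eta g J T x then 1 else 0

/-- discrepancy function on the grid of side `2^R`, shifted by `u`, points `p`, weights `w` -/
noncomputable def DD {d R : ℕ} {ι : Type} (S : Finset ι) (w : ι → ℝ) (p : ι → Fin d → ℕ) (M : ℝ)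
    (u : Fin d → ℝ) (x : Pt d R) : ℝ :=
  ∑ j ∈ S, (if ∀ s, p j s ≤ num (x s) then w j else 0) - M * ∏ s, (((num (x s) : ℝ) + u s) / 2 ^ R)

/-- the point `P` (one coordinate) does not separate the words with the first `j` digits of `v` -/
def cst {R : ℕ} (P : ℕ) (j : Fin R) (v : Fin R → Bool) : Prop :=
  ∀ w w' : Fin R → Bool, (P ≤ num (splw j v w) ↔ P ≤ num (splw j v w'))

/-- the box of level `J` around `x` contains no point -/
def Emp {d R : ℕ} {ι : Type} (S : Finset ι) (p : ι → Fin d → ℕ) (J : Fin d → Fin R) (x : Pt d R) :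
    Prop :=
  ∀ j ∈ S, ∃ s, cst (p j s) (J s) (x s)

/-- levels -/
def lev (d R n : ℕ) : Finset (Fin d → Fin R) := univ.filter fun J => ∑ s, (J s : ℕ) = n

/-- predictable in the coordinate `s` at level `J s` -/
def Pred {d R : ℕ} (s : Fin d) (J : Fin d → Fin R) (F : Pt d R → ℝ) : Prop :=
  ∀ x y : Pt d R, (∀ s', s' ≠ s → x s' = y s') → (∀ i, i < J s → x s i = y s i) → F x = F y

/-- the class of `J` modulo its coordinates in `U` -/
def off {d R : ℕ} (U : Finset (Fin d)) (J : Fin d → Fin R) : Fin d → Option (Fin R) :=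
  fun s => if s ∈ U then none else some (J s)

/-- square function: sum over the classes off `U` of the squares of the sums over `J_U` -/
noncomputable def NU {d R : ℕ} (Δ : Finset (Fin d → Fin R)) (U : Finset (Fin d))
    (F : (Fin d → Fin R) → Pt d R → ℝ) (x : Pt d R) : ℝ :=
  ∑ K : Fin d → Option (Fin R),
    (∑ J ∈ Δ.filter (fun J => off U J = K), (∏ s ∈ U, sg (x s (J s))) * F J x) ^ 2

end Pool.Agent.H636R2.LD
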