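import Pool.Agent.H636R2.LD.Stmts

set_option autoImplicit false

/-! EXP (helper913): product expansion up to quadratic terms. -/

namespace Pool.Agent.H636R2.LD

open Finset

namespace EXPAux

theorem first {ι : Type} [DecidableEq ι] (s : Finset ι) (z : ι → ℂ) (h : ∀ i ∈ s, ‖z i‖ ≤ 2) :
    ‖∏ i ∈ s, (1 + z i) - 1‖ ≤ 3 ^ s.card * ∑ i ∈ s, ‖z i‖ := by
  induction s using Finset.induction_on with
  | empty => simp
  | @insert a s ha ih =>
    have ih' := ih fun i hi => h i (mem_insert_of_mem hi)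
    have h2 : ‖1 + z a‖ ≤ 3 := by
      have h1 := norm_add_le 1 (z a)
      have h3 := h a (mem_insert_self a s)
      rw [norm_one] at h1
      linarith
    rw [prod_insert ha, sum_insert ha, card_insert_of_notMem ha]
    have e : (1 + z a) * ∏ i ∈ s, (1 + z i) - 1 =
        (1 + z a) * (∏ i ∈ s, (1 + z i) - 1) + z a := by ring
    rw [e]
    have hS : 0 ≤ ∑ i ∈ s, ‖z i‖ := sum_nonneg fun i _ => norm_nonneg _
    have h3 : (1 : ℝ) ≤ 3 ^ s.card := one_le_pow₀ (by norm_num)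
    calc ‖(1 + z a) * (∏ i ∈ s, (1 + z i) - 1) + z a‖
        ≤ ‖1 + z a‖ * ‖∏ i ∈ s, (1 + z i) - 1‖ + ‖z a‖ := by
          rw [← norm_mul]; exact norm_add_le _ _
      _ ≤ 3 * (3 ^ s.card * ∑ i ∈ s, ‖z i‖) + ‖z a‖ := by gcongr
      _ ≤ 3 ^ (s.card + 1) * (‖z a‖ + ∑ i ∈ s, ‖z i‖) := by
          rw [pow_succ]
          nlinarith [norm_nonneg (z a)]

end EXPAux

open EXPAux in
theorem EXP : S_EXP := by
  intro ι _ s z h
  induction s using Finset.induction_on with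
  | empty => simp
  | @insert a s ha ih =>
    have hs : ∀ i ∈ s, ‖z i‖ ≤ 2 := fun i hi => h i (mem_insert_of_mem hi)
    have ih' := ih hs
    have h1 := first s z hs
    rw [prod_insert ha, sum_insert ha, card_insert_of_notMem ha]
    have e : (1 + z a) * ∏ i ∈ s, (1 + z i) - 1 - (z a + ∑ i ∈ s, z i) =
        (∏ i ∈ s, (1 + z i) - 1 - ∑ i ∈ s, z i) + z a * (∏ i ∈ s, (1 + z i) - 1) := by ring
    rw [e]
    have hQ : ‖z a‖ * ∑ i ∈ s, ‖z i‖ + ∑ i ∈ s, ∑ j ∈ s.erase i, ‖z i‖ * ‖z j‖ ≤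
        ∑ i ∈ insert a s, ∑ j ∈ (insert a s).erase i, ‖z i‖ * ‖z j‖ := by
      rw [sum_insert ha, erase_insert ha, mul_sum]
      refine add_le_add le_rfl (sum_le_sum fun i _ => ?_)
      exact sum_le_sum_of_subset_of_nonneg (erase_subset_erase i (subset_insert a s))
        fun j _ _ => by positivity
    have h3 : (0 : ℝ) < 3 ^ s.card := by positivity
    have hQ0 : 0 ≤ ∑ i ∈ s, ∑ j ∈ s.erase i, ‖z i‖ * ‖z j‖ :=
      sum_nonneg fun i _ => sum_nonneg fun j _ => by positivity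
    have hS : 0 ≤ ∑ i ∈ s, ‖z i‖ := sum_nonneg fun i _ => norm_nonneg _
    have hz := norm_nonneg (z a)
    calc ‖(∏ i ∈ s, (1 + z i) - 1 - ∑ i ∈ s, z i) + z a * (∏ i ∈ s, (1 + z i) - 1)‖
        ≤ ‖∏ i ∈ s, (1 + z i) - 1 - ∑ i ∈ s, z i‖ + ‖z a‖ * ‖∏ i ∈ s, (1 + z i) - 1‖ := by
          rw [← norm_mul]; exact norm_add_le _ _
      _ ≤ 3 ^ s.card * ∑ i ∈ s, ∑ j ∈ s.erase i, ‖z i‖ * ‖z j‖ +
          ‖z a‖ * (3 ^ s.card * ∑ i ∈ s, ‖z i‖) := by gcongr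
      _ = 3 ^ s.card * (‖z a‖ * ∑ i ∈ s, ‖z i‖ +
          ∑ i ∈ s, ∑ j ∈ s.erase i, ‖z i‖ * ‖z j‖) := by ring
      _ ≤ 3 ^ s.card * ∑ i ∈ insert a s, ∑ j ∈ (insert a s).erase i, ‖z i‖ * ‖z j‖ := by gcongr
      _ ≤ 3 ^ (s.card + 1) * ∑ i ∈ insert a s, ∑ j ∈ (insert a s).erase i, ‖z i‖ * ‖z j‖ := by
          have hpos : 0 ≤ ∑ i ∈ insert a s, ∑ j ∈ (insert a s).erase i, ‖z i‖ * ‖z j‖ :=
            sum_nonneg fun i _ => sum_nonneg fun j _ => by positivity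
          rw [pow_succ]
          nlinarith [mul_nonneg h3.le hpos]

end Pool.Agent.H636R2.LD
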