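import Pool.Agent.H636R2.LD.Stmts

set_option autoImplicit false

/-! Task GB (helper130): estimate in a good box of the grid. -/

namespace Pool.Agent.H636R2.LD

open Finset

namespace GBaux

lemma sg_abs (b : Bool) : |sg b| ≤ 1 := by
  unfold sg; split_ifs <;> simp

lemma EE_sg (R : ℕ) (j : Fin R) : EE (fun v : Fin R → Bool => sg (v j)) = 0 := by
  classical
  have h := EE_pi (𝕜 := ℝ) (d := R) (Ω := Bool) (fun i v => if i = j then sg v else 1)
  have h1 : (fun x : Fin R → Bool => ∏ s, (if s = j then sg (x s) else 1)) =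
      fun x => sg (x j) := by
    funext x
    rw [Finset.prod_eq_single j]
    · simp
    · intro b _ hb; simp [hb]
    · intro h; exact absurd (mem_univ j) h
  rw [h1] at h
  rw [h]
  refine Finset.prod_eq_zero (mem_univ j) ?_
  simp [EE, sg]

lemma pow_le {ρ : ℝ} (h0 : 0 < ρ) (h1 : ρ ≤ 1) {a b : ℕ} (h : a ≤ b) : ρ ^ b ≤ ρ ^ a :=
  pow_le_pow_of_le_one h0.le h1 h

/-- the thresholds -/
noncomputable def ta (d : ℕ) (ρ E : ℝ) (T : Finset (Fin d)) : ℝ :=
  if T = ∅ then E else tau d ρ T.card

lemma ta_le (d : ℕ) {ρ E : ℝ} (hE : E ≤ ρ ^ (2 ^ d - 1)) (T : Finset (Fin d)) :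
    ta d ρ E T ≤ ρ ^ (2 ^ (d - T.card) - 1) := by
  unfold ta
  split_ifs with h
  · subst h; simpa using hE
  · exact le_rfl

lemma two_pow_pos (k : ℕ) : 1 ≤ 2 ^ k := Nat.one_le_two_pow

lemma thr (d : ℕ) {ρ E : ℝ} (h0 : 0 < ρ) (h1 : ρ ≤ 1) (hE0 : 0 ≤ E)
    (hE : E ≤ ρ ^ (2 ^ d - 1)) : Thr (ta d ρ E) ρ where
  rho := h0.le
  pos := by
    intro T hT
    unfold ta
    rw [if_neg hT.ne_empty]
    unfold tau; positivity
  nonneg := by unfold ta; rw [if_pos rfl]; exact hE0
  le := by
    intro T hT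
    refine (ta_le d hE T).trans ?_
    have hc : T.card < d := by
      have := Finset.card_lt_univ_of_notMem (s := T) (x := (Classical.choose
        (Finset.exists_mem_notMem_of_card_lt_card (s := T) (t := univ) (by
          exact Finset.card_lt_card (Finset.ssubset_univ_iff.2 hT))))) (Classical.choose_spec
        (Finset.exists_mem_notMem_of_card_lt_card (s := T) (t := univ) (by
          exact Finset.card_lt_card (Finset.ssubset_univ_iff.2 hT)))).2
      simpa using this
    have h2 : 1 ≤ 2 ^ (d - T.card) - 1 := by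
      have : 2 ^ 1 ≤ 2 ^ (d - T.card) := Nat.pow_le_pow_right (by norm_num) (by omega)
      omega
    calc ρ ^ (2 ^ (d - T.card) - 1) ≤ ρ ^ 1 := pow_le h0 h1 h2
      _ = ρ := pow_one _
  chain := by
    intro T T' hTT hT'
    have hc' : T'.card < d := by
      have := Finset.card_lt_card (Finset.ssubset_univ_iff.2 hT')
      simpa using this
    have hc : T.card < T'.card := Finset.card_lt_card hTT
    have hne : T' ≠ ∅ := by
      rintro rfl
      simp at hc
    refine (ta_le d hE T).trans ?_
    have e : ta d ρ E T' = ρ ^ (2 ^ (d - T'.card) - 1) := by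
      unfold ta; rw [if_neg hne]; rfl
    rw [e, ← pow_succ']
    refine pow_le h0 h1 ?_
    have h3 : 2 * 2 ^ (d - T'.card) ≤ 2 ^ (d - T.card) := by
      rw [← pow_succ']
      exact Nat.pow_le_pow_right (by norm_num) (by omega)
    have h4 := two_pow_pos (d - T'.card)
    omega
  pair := by
    intro T T' hT hT' hn hn'
    have hne : T ≠ ∅ := by rintro rfl; exact hn (Finset.empty_subset _)
    have hne' : T' ≠ ∅ := by rintro rfl; exact hn' (Finset.empty_subset _)
    have hcT : T.card < d := by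
      have := Finset.card_lt_card (Finset.ssubset_univ_iff.2 hT)
      simpa using this
    have hcT' : T'.card < d := by
      have := Finset.card_lt_card (Finset.ssubset_univ_iff.2 hT')
      simpa using this
    have h1' : (T ∩ T').card < T.card := by
      refine Finset.card_lt_card ⟨Finset.inter_subset_left, fun h => hn ?_⟩
      exact h.trans Finset.inter_subset_right
    have h2' : (T ∩ T').card < T'.card := by
      refine Finset.card_lt_card ⟨Finset.inter_subset_right, fun h => hn' ?_⟩
      exact h.trans Finset.inter_subset_left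
    refine (ta_le d hE (T ∩ T')).trans ?_
    have e : ta d ρ E T = ρ ^ (2 ^ (d - T.card) - 1) := by
      unfold ta; rw [if_neg hne]; rfl
    have e' : ta d ρ E T' = ρ ^ (2 ^ (d - T'.card) - 1) := by
      unfold ta; rw [if_neg hne']; rfl
    rw [e, e', ← pow_add, ← pow_succ']
    refine pow_le h0 h1 ?_
    have h3 : 2 * 2 ^ (d - T.card) ≤ 2 ^ (d - (T ∩ T').card) := by
      rw [← pow_succ']
      exact Nat.pow_le_pow_right (by norm_num) (by omega)
    have h3' : 2 * 2 ^ (d - T'.card) ≤ 2 ^ (d - (T ∩ T').card) := by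
      rw [← pow_succ']
      exact Nat.pow_le_pow_right (by norm_num) (by omega)
    have h4 := two_pow_pos (d - T.card)
    have h4' := two_pow_pos (d - T'.card)
    omega

lemma spl_spl {d R : ℕ} (J : Fin d → Fin R) (T : Finset (Fin d)) (x y z : Pt d R) :
    spl J T (spl J ∅ x y) z = spl J ∅ x (mix T y z) := by
  funext s i
  unfold spl mix
  by_cases h1 : i < J s
  · simp [h1]
  · by_cases h2 : s ∈ T
    · simp [h1, h2]
    · simp [h1, h2]

lemma Cb_nonneg (d : ℕ) : 0 ≤ Cb d := by unfold Cb; positivity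

end GBaux

open GBaux in
/-- GB: estimate in a good box of the grid -/
theorem GB (h1 : S_BLK) (h2 : S_PLQ) (h3 : S_HAAR) : S_GB := by
  intro d R n ι S w p M u θ ρ E J x hd hJ hρ0 hρ1 hθ hM hq hEmp heta hE
  have hRpos : Nonempty (Fin R → Bool) := ⟨fun _ => false⟩
  have hE0 : 0 ≤ E := le_trans (EE_nonneg fun y => norm_nonneg _) heta
  have hsum : ∑ s, (J s : ℕ) = n := by
    unfold lev at hJ
    exact (mem_filter.1 hJ).2
  have hprod : ∏ s, (1 / 2 ^ ((J s : ℕ)) : ℝ) = 1 / 2 ^ n := by
    rw [Finset.prod_div_distrib, Finset.prod_const_one, Finset.prod_pow_eq_pow_sum, hsum]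
  have key := h1 d (Fin R → Bool) (fun v => gg S w p M u θ (spl J ∅ x v))
    (fun v => by
      unfold gg
      rw [add_sub_cancel, Complex.norm_exp_I_mul_ofReal])
    (ta d ρ E) ρ (thr d hρ0 hρ1 hE0 hE)
    (by unfold ta; rw [if_pos rfl]; exact heta)
    (fun s v => sg (v (J s))) (fun s v => sg_abs _) (fun s => EE_sg R (J s))
    (fun s v => tt J x u s v) (θ * M) (θ * M / 2 ^ n) hq
    (by
      intro y z
      rw [abs_mul, abs_of_nonneg (mul_nonneg hθ hM), Finset.abs_prod, div_eq_mul_one_div]
      refine mul_le_mul_of_nonneg_left ?_ (mul_nonneg hθ hM)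
      rw [← hprod]
      refine Finset.prod_le_prod (fun s _ => abs_nonneg _) (fun s _ => ?_)
      exact (h3 R (J s) (x s) (u s)).2 (y s) (z s))
    (fun y z => h2 d R ι S w p M u θ J x hEmp y z)
  have e1 : ∀ y : Pt d R, chi J (spl J ∅ x y) = ∏ s, sg (y s (J s)) := by
    intro y
    unfold chi
    refine Finset.prod_congr rfl fun s _ => ?_
    unfold spl
    simp
  have e2 : ∀ y : Pt d R, (fun T => bad (gg S w p M u θ) (tau d ρ) T J (spl J ∅ x y)) =
      fun T => wild (fun v => gg S w p M u θ (spl J ∅ x v)) (ta d ρ E) T y := by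
    intro y
    funext T
    have hfib : eta (gg S w p M u θ) J T (spl J ∅ x y) =
        fib (fun v => gg S w p M u θ (spl J ∅ x v)) T y := by
      unfold eta fib
      congr 1
      funext z
      rw [spl_spl]
    unfold bad wild
    rw [hfib]
    by_cases hT : T = ∅
    · subst hT
      rw [if_neg (by simp), if_neg]
      unfold ta
      rw [if_pos rfl, not_lt]
      unfold fib
      simp only [mix_empty]
      exact heta
    · have hT' : T.Nonempty := Finset.nonempty_iff_ne_empty.2 hT
      have e : ta d ρ E T = tau d ρ T.card := by unfold ta; rw [if_neg hT]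
      rw [e]
      simp only [hT', true_and]
  have e3 : ∏ s, EE (fun v : Fin R → Bool => sg (v (J s)) * tt J x u s v) = 1 / 2 ^ n / 4 ^ d := by
    have : ∀ s : Fin d, EE (fun v : Fin R → Bool => sg (v (J s)) * tt J x u s v) =
        (1 / 2 ^ ((J s : ℕ))) * (1 / 4) := by
      intro s
      rw [show (1 / 2 ^ ((J s : ℕ)) : ℝ) * (1 / 4) = 1 / 2 ^ ((J s : ℕ) + 2) by
        rw [pow_add]; field_simp; norm_num]
      exact (h3 R (J s) (x s) (u s)).1
    rw [Finset.prod_congr rfl (fun s _ => this s), Finset.prod_mul_distrib, hprod,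
      Finset.prod_const, Finset.card_univ, Fintype.card_fin]
    rw [one_div_pow, div_div]
    field_simp
  have e4 : (fun y : Pt d R => ((chi J (spl J ∅ x y) : ℝ) : ℂ) * gg S w p M u θ (spl J ∅ x y) *
        ((kap (fun T => bad (gg S w p M u θ) (tau d ρ) T J (spl J ∅ x y)) univ : ℝ) : ℂ)) =
      fun y : Pt d R => ((∏ s, sg (y s (J s)) : ℝ) : ℂ) * gg S w p M u θ (spl J ∅ x y) *
        ((kap (fun T => wild (fun v => gg S w p M u θ (spl J ∅ x v)) (ta d ρ E) T y) univ : ℝ) :
          ℂ) := by
    funext y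
    rw [e1, e2]
  rw [e3] at key
  rw [e4]
  have e5 : θ * M / 2 ^ n / 4 ^ d = θ * M * (1 / 2 ^ n / 4 ^ d) := by ring
  rw [e5]
  refine key.trans ?_
  refine mul_le_mul_of_nonneg_left ?_ (Cb_nonneg d)
  have : ρ * EE (fun v : Pt d R => ‖gg S w p M u θ (spl J ∅ x v)‖) ≤ ρ * E :=
    mul_le_mul_of_nonneg_left heta hρ0.le
  linarith

end Pool.Agent.H636R2.LD
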