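import Pool.Agent.H636R2.LD.Stmts

set_option autoImplicit false

/-! Task GRID: the inequality on the grid. -/

namespace Pool.Agent.H636R2.LD

open Finset

theorem gd_splw {R : ℕ} (j : Fin R) (v v' w : Fin R → Bool) (h : ∀ i, i < j → v i = v' i) :
    splw j v w = splw j v' w := by
  funext i
  unfold splw
  by_cases hi : i < j
  · rw [if_pos hi, if_pos hi, h i hi]
  · rw [if_neg hi, if_neg hi]

theorem gd_cst {R : ℕ} (P : ℕ) (j : Fin R) (v v' : Fin R → Bool) (h : ∀ i, i < j → v i = v' i) :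
    cst P j v ↔ cst P j v' := by
  unfold cst
  simp only [gd_splw j v v' _ h]

section
variable {d R : ℕ}

theorem gd_emp {ι : Type} (S : Finset ι) (p : ι → Fin d → ℕ) (J : Fin d → Fin R) (x x' : Pt d R)
    (h : ∀ s i, i < J s → x s i = x' s i) : Emp S p J x ↔ Emp S p J x' := by
  unfold Emp
  refine forall_congr' fun j => forall_congr' fun _ => exists_congr fun s => ?_
  exact gd_cst _ _ _ _ (h s)

theorem gd_spl (J : Fin d → Fin R) (T : Finset (Fin d)) (x x' y : Pt d R)
    (h : ∀ s i, i < J s → x s i = x' s i) (hT : ∀ s ∈ T, x s = x' s) :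
    spl J T x y = spl J T x' y := by
  funext s i
  unfold spl
  by_cases hs : s ∈ T ∨ i < J s
  · rw [if_pos hs, if_pos hs]
    rcases hs with hs | hs
    · rw [hT s hs]
    · exact h s i hs
  · rw [if_neg hs, if_neg hs]

theorem gd_eta (g : Pt d R → ℂ) (J : Fin d → Fin R) (T : Finset (Fin d)) (x x' : Pt d R)
    (h : ∀ s i, i < J s → x s i = x' s i) (hT : ∀ s ∈ T, x s = x' s) :
    eta g J T x = eta g J T x' := by
  unfold eta
  simp only [gd_spl J T x x' _ h hT]

open Classical in
/-- the weight -/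
noncomputable def gd_a {ι : Type} (S : Finset ι) (p : ι → Fin d → ℕ) (g : Pt d R → ℂ)
    (J : Fin d → Fin R) (x : Pt d R) : ℝ :=
  if Emp S p J x ∧ eta g J ∅ x ≤ 8 * EE (fun x => ‖g x‖) then 1 else 0

theorem gd_a_congr {ι : Type} (S : Finset ι) (p : ι → Fin d → ℕ) (g : Pt d R → ℂ)
    (J : Fin d → Fin R) (x x' : Pt d R) (h : ∀ s i, i < J s → x s i = x' s i) :
    gd_a S p g J x = gd_a S p g J x' := by
  unfold gd_a
  rw [gd_emp S p J x x' h, gd_eta g J ∅ x x' h (fun s hs => absurd hs (notMem_empty s))]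

theorem gd_a_01 {ι : Type} (S : Finset ι) (p : ι → Fin d → ℕ) (g : Pt d R → ℂ)
    (J : Fin d → Fin R) (x : Pt d R) : 0 ≤ gd_a S p g J x ∧ gd_a S p g J x ≤ 1 := by
  unfold gd_a
  split_ifs <;> norm_num

/-- exchanging prefixes -/
def gd_swp (J : Fin d → Fin R) : (Pt d R × Pt d R) ≃ (Pt d R × Pt d R) where
  toFun q := (spl J ∅ q.1 q.2, spl J ∅ q.2 q.1)
  invFun q := (spl J ∅ q.1 q.2, spl J ∅ q.2 q.1)
  left_inv q := by
    ext s i
    · by_cases h : i < J s <;> simp [spl, h]
    · by_cases h : i < J s <;> simp [spl, h]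
  right_inv q := by
    ext s i
    · by_cases h : i < J s <;> simp [spl, h]
    · by_cases h : i < J s <;> simp [spl, h]

theorem gd_law (J : Fin d → Fin R) (F : Pt d R → ℝ) :
    EE (fun x => EE fun y => F (spl J ∅ x y)) = EE F := by
  have h := EE_equiv (gd_swp J) (fun q : Pt d R × Pt d R => F q.1)
  rw [EE_prod, EE_prod] at h
  refine h.trans ?_
  congr 1
  funext x
  exact EE_const (α := Pt d R) (F x)

theorem gd_norm {ι : Type} (S : Finset ι) (w : ι → ℝ) (p : ι → Fin d → ℕ) (M : ℝ)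
    (u : Fin d → ℝ) (θ : ℝ) (x : Pt d R) : ‖gg S w p M u θ x‖ ≤ 2 := by
  unfold gg
  refine (norm_sub_le _ _).trans ?_
  rw [mul_comm Complex.I, Complex.norm_exp_ofReal_mul_I, norm_one]
  norm_num

theorem gd_a_lower {ι : Type} (S : Finset ι) (p : ι → Fin d → ℕ) (g : Pt d R → ℂ)
    (n : ℕ) (J : Fin d → Fin R) (hJ : J ∈ lev d R n) (h2 : S_CNT)
    (hS : (S.card : ℝ) ≤ 2 ^ n / 8) : 3 / 4 ≤ EE (fun x => gd_a S p g J x) := by
  classical
  set η := EE (fun x => ‖g x‖) with hη
  have hη0 : 0 ≤ η := EE_nonneg fun x => norm_nonneg _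
  have hc := h2 d R n ι S p J hJ
  have hc' : EE (fun x : Pt d R => if Emp S p J x then (0 : ℝ) else 1) ≤ 1 / 8 := by
    refine hc.trans ?_
    rw [div_le_iff₀ (by positivity)]
    linarith
  have hm : EE (fun x : Pt d R => if eta g J ∅ x ≤ 8 * η then (0 : ℝ) else 1) ≤ 1 / 8 := by
    have hlaw : EE (fun x : Pt d R => eta g J ∅ x) = η := gd_law J (fun x => ‖g x‖)
    rcases hη0.eq_or_lt with h0 | hpos
    · have hz : ∀ x : Pt d R, eta g J ∅ x = 0 := by
        have hnn : ∀ x : Pt d R, 0 ≤ eta g J ∅ x := fun x => EE_nonneg fun _ => norm_nonneg _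
        have hs : ∑ x : Pt d R, eta g J ∅ x = 0 := by
          have : EE (fun x : Pt d R => eta g J ∅ x) = 0 := by rw [hlaw, ← h0]
          unfold EE at this
          rcases div_eq_zero_iff.1 this with h | h
          · exact h
          · exfalso
            have : Fintype.card (Pt d R) = 0 := by exact_mod_cast h
            exact Fintype.card_ne_zero this
        intro x
        exact (Finset.sum_eq_zero_iff_of_nonneg (fun x _ => hnn x)).1 hs x (mem_univ x)
      have : (fun x : Pt d R => if eta g J ∅ x ≤ 8 * η then (0 : ℝ) else 1) = fun _ => 0 := by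
        funext x
        rw [hz x, if_pos (by positivity)]
      rw [this, EE_const]
      norm_num
    · have hle : ∀ x : Pt d R, (if eta g J ∅ x ≤ 8 * η then (0 : ℝ) else 1) ≤
          (1 / (8 * η)) * eta g J ∅ x := by
        intro x
        have hnn : 0 ≤ eta g J ∅ x := EE_nonneg fun _ => norm_nonneg _
        split_ifs with h
        · positivity
        · push Not at h
          rw [one_div, inv_mul_eq_div, one_le_div (by positivity)]
          exact h.le
      refine (EE_mono hle).trans ?_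
      rw [EE_mul_left, hlaw]
      rw [div_mul_eq_mul_div, one_mul, div_le_div_iff₀ (by positivity) (by norm_num)]
      linarith
  have hle : ∀ x : Pt d R, 1 - (if Emp S p J x then (0 : ℝ) else 1) -
      (if eta g J ∅ x ≤ 8 * η then (0 : ℝ) else 1) ≤ gd_a S p g J x := by
    intro x
    unfold gd_a
    by_cases h1 : Emp S p J x
    · by_cases h3 : eta g J ∅ x ≤ 8 * η
      · rw [if_pos h1, if_pos h3, if_pos ⟨h1, h3⟩]; norm_num
      · rw [if_pos h1, if_neg h3, if_neg (fun h => h3 h.2)]; norm_num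
    · rw [if_neg h1, if_neg (show ¬ (Emp S p J x ∧ eta g J ∅ x ≤ 8 * EE (fun x => ‖g x‖)) from
        fun h => h1 h.1)]
      split_ifs <;> norm_num
  have := EE_mono hle
  rw [EE_sub, EE_sub, EE_const] at this
  linarith

theorem gd_level (h1 : S_GB) (h2 : S_CNT) {ι : Type} (n : ℕ) (S : Finset ι) (w : ι → ℝ)
    (p : ι → Fin d → ℕ) (M : ℝ) (u : Fin d → ℝ) (θ ρ : ℝ) (hd : 1 ≤ d) (hρ : 0 < ρ) (hρ1 : ρ ≤ 1)
    (hθ : 0 ≤ θ) (hM : 0 ≤ M) (hq : θ * M / 2 ^ n ≤ 1) (hS : (S.card : ℝ) ≤ 2 ^ n / 8)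
    (hE : 8 * EE (fun x : Pt d R => ‖gg S w p M u θ x‖) ≤ ρ ^ (2 ^ d - 1))
    (hC : Cb d * ((θ * M / 2 ^ n) ^ 2 + (θ * M / 2 ^ n) * ρ +
        ρ * (8 * EE (fun x : Pt d R => ‖gg S w p M u θ x‖))) ≤ θ * M / 2 ^ n / 4 ^ d / 2)
    (J : Fin d → Fin R) (hJ : J ∈ lev d R n) :
    EE (fun x : Pt d R => gd_a S p (gg S w p M u θ) J x * chi J x *
      kap (fun T => bad (gg S w p M u θ) (tau d ρ) T J x) univ * (gg S w p M u θ x).im) ≤
      -(3 / 8 * (θ * M / 2 ^ n / 4 ^ d)) := by
  set g : Pt d R → ℂ := gg S w p M u θ with hg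
  set q : ℝ := θ * M / 2 ^ n with hq'
  have hq0 : 0 ≤ q := by positivity
  rw [← gd_law J]
  have hpt : ∀ x : Pt d R, (EE fun y => gd_a S p g J (spl J ∅ x y) * chi J (spl J ∅ x y) *
      kap (fun T => bad g (tau d ρ) T J (spl J ∅ x y)) univ * (g (spl J ∅ x y)).im) ≤
      -(q / 4 ^ d / 2) * gd_a S p g J x := by
    intro x
    have ha : ∀ y, gd_a S p g J (spl J ∅ x y) = gd_a S p g J x := by
      intro y
      refine gd_a_congr S p g J _ _ fun s i hi => ?_
      simp [spl, hi]
    have e : (fun y => gd_a S p g J (spl J ∅ x y) * chi J (spl J ∅ x y) *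
      kap (fun T => bad g (tau d ρ) T J (spl J ∅ x y)) univ * (g (spl J ∅ x y)).im) =
      fun y => gd_a S p g J x * (((chi J (spl J ∅ x y) : ℝ) : ℂ) * g (spl J ∅ x y) *
        ((kap (fun T => bad g (tau d ρ) T J (spl J ∅ x y)) univ : ℝ) : ℂ)).im := by
      funext y
      rw [ha y]
      have : (((chi J (spl J ∅ x y) : ℝ) : ℂ) * g (spl J ∅ x y) *
        ((kap (fun T => bad g (tau d ρ) T J (spl J ∅ x y)) univ : ℝ) : ℂ)).im =
        chi J (spl J ∅ x y) * (g (spl J ∅ x y)).im *
          kap (fun T => bad g (tau d ρ) T J (spl J ∅ x y)) univ := by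
        rw [Complex.im_mul_ofReal, Complex.im_ofReal_mul]
      rw [this]
      ring
    rw [e, EE_mul_left, ← EE_im]
    by_cases hx : Emp S p J x ∧ eta g J ∅ x ≤ 8 * EE (fun x => ‖g x‖)
    · have hGB := h1 d R n ι S w p M u θ ρ (8 * EE (fun x => ‖g x‖)) J x hd hJ hρ hρ1 hθ hM hq
        hx.1 hx.2 hE
      have h4 := (abs_le.1 (hGB.trans hC)).2
      have ha1 : gd_a S p g J x = 1 := by
        unfold gd_a
        rw [if_pos hx]
      rw [ha1, one_mul, mul_one]
      have h5 : θ * M / 2 ^ n / 4 ^ d = q / 4 ^ d := rfl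
      rw [h5] at h4
      linarith
    · have ha0 : gd_a S p g J x = 0 := by
        unfold gd_a
        rw [if_neg hx]
      rw [ha0, zero_mul, mul_zero]
  refine (EE_mono hpt).trans ?_
  rw [EE_mul_left]
  have hal := gd_a_lower S p g n J hJ h2 hS
  have hq4 : 0 ≤ q / 4 ^ d := by positivity
  nlinarith

end

theorem GRID (h1 : S_GB) (h2 : S_CNT) (h3 : S_CHAOS) : S_GRID := by
  intro d R n m ι S w p M u θ ρ hd hm hρ hρ1 hθ hM hq hS hE hC
  set g : Pt d R → ℂ := gg S w p M u θ with hg
  set η := EE (fun x : Pt d R => ‖g x‖) with hη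
  have hη0 : 0 ≤ η := EE_nonneg fun x => norm_nonneg _
  rcases Nat.eq_zero_or_pos (lev d R n).card with h0 | hpos
  · rw [h0]
    simp only [Nat.cast_zero, mul_zero]
    positivity
  set Q : ℝ := 32 ^ (d ^ 2) * (m : ℝ) ^ (2 * d) * (lev d R n).card with hQ
  have hm' : (0 : ℝ) < m := by exact_mod_cast hm
  have hpos' : (0 : ℝ) < (lev d R n).card := by exact_mod_cast hpos
  have hQ0 : 0 < Q := by positivity
  set lam : ℝ := 2 * Real.sqrt Q with hlam
  have hs0 : 0 < Real.sqrt Q := Real.sqrt_pos.2 hQ0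
  have hlam0 : 0 < lam := by positivity
  set b : Finset (Fin d) → (Fin d → Fin R) → Pt d R → ℝ := fun T J x => bad g (tau d ρ) T J x with hb
  set A : Pt d R → ℝ := fun x => ∑ J ∈ lev d R n, gd_a S p g J x * chi J x *
    kap (fun T => b T J x) univ with hA
  -- the moment bound
  have hmom : EE (fun x : Pt d R => A x ^ (2 * m)) ≤ Q ^ m := by
    refine h3 d R m (lev d R n) (gd_a S p g) b hm ?_ ?_ ?_ ?_ ?_
    · intro J x
      have := gd_a_01 S p g J x
      rw [abs_of_nonneg this.1]
      exact this.2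
    · intro s J x y hxy hpre
      refine gd_a_congr S p g J x y fun s' i hi => ?_
      by_cases hs : s' = s
      · subst hs; exact hpre i hi
      · rw [hxy s' hs]
    · intro T J x
      rw [hb]
      simp only [bad]
      split_ifs <;> norm_num
    · intro T J s hs x y hxy hpre
      rw [hb]
      simp only [bad]
      rw [gd_eta g J T x y]
      · intro s' i hi
        by_cases hs' : s' = s
        · subst hs'; exact hpre i hi
        · rw [hxy s' hs']
      · intro s' hs'
        exact hxy s' (fun h => hs (h ▸ hs'))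
    · intro T J J' x hJJ
      have e : ∀ y, spl J T x y = spl J' T x y := by
        intro y
        funext s i
        unfold spl
        by_cases hs : s ∈ T
        · simp [hs]
        · rw [hJJ s hs]
      have e2 : eta g J T x = eta g J' T x := by
        unfold eta
        simp only [e]
      rw [hb]
      change bad g (tau d ρ) T J x = bad g (tau d ρ) T J' x
      unfold bad
      rw [e2]
  -- the lower bound
  have hlow : EE (fun x : Pt d R => A x * (g x).im) ≤
      -((lev d R n).card * (3 / 8 * (θ * M / 2 ^ n / 4 ^ d))) := by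
    have e : (fun x : Pt d R => A x * (g x).im) = fun x => ∑ J ∈ lev d R n,
        gd_a S p g J x * chi J x * kap (fun T => b T J x) univ * (g x).im := by
      funext x
      rw [hA]
      dsimp only
      rw [sum_mul]
    rw [e, EE_sum]
    refine (sum_le_sum fun J hJ => gd_level h1 h2 n S w p M u θ ρ hd hρ hρ1 hθ hM hq hS hE hC J hJ).trans ?_
    rw [sum_const, nsmul_eq_mul]
    linarith
  -- the upper bound
  have hup : EE (fun x : Pt d R => ‖g x‖ * |A x|) ≤ lam * (η + 2 * (1 / 4) ^ m) := by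
    have hpt : ∀ x : Pt d R, ‖g x‖ * |A x| ≤ lam * ‖g x‖ + (2 / lam ^ (2 * m - 1)) * A x ^ (2 * m) := by
      intro x
      have hg2 := gd_norm S w p M u θ x
      rw [← hg] at hg2
      have hg0 := norm_nonneg (g x)
      have hAp : 0 ≤ A x ^ (2 * m) := by
        rw [pow_mul]; positivity
      by_cases hc : |A x| ≤ lam
      · have h5 : ‖g x‖ * |A x| ≤ lam * ‖g x‖ := by nlinarith
        have h6 : 0 ≤ (2 / lam ^ (2 * m - 1)) * A x ^ (2 * m) := by positivity
        linarith
      · push Not at hc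
        have h6 : |A x| ≤ A x ^ (2 * m) / lam ^ (2 * m - 1) := by
          rw [le_div_iff₀ (by positivity)]
          have e : A x ^ (2 * m) = |A x| * |A x| ^ (2 * m - 1) := by
            rw [← pow_succ', show 2 * m - 1 + 1 = 2 * m by omega, pow_mul, pow_mul, sq_abs]
          rw [e]
          exact mul_le_mul_of_nonneg_left (pow_le_pow_left₀ hlam0.le hc.le _) (abs_nonneg _)
        have h7 : ‖g x‖ * |A x| ≤ 2 * |A x| := mul_le_mul_of_nonneg_right hg2 (abs_nonneg _)
        have h8 : (2 / lam ^ (2 * m - 1)) * A x ^ (2 * m) = 2 * (A x ^ (2 * m) / lam ^ (2 * m - 1)) := by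
          ring
        have h9 : 0 ≤ lam * ‖g x‖ := by positivity
        rw [h8]
        linarith
    refine (EE_mono hpt).trans ?_
    rw [EE_add, EE_mul_left, EE_mul_left]
    have h10 : (2 / lam ^ (2 * m - 1)) * EE (fun x : Pt d R => A x ^ (2 * m)) ≤
        (2 / lam ^ (2 * m - 1)) * Q ^ m :=
      mul_le_mul_of_nonneg_left hmom (by positivity)
    have h11 : (2 / lam ^ (2 * m - 1)) * Q ^ m = lam * (2 * (1 / 4) ^ m) := by
      have hQl : Q = lam ^ 2 / 4 := by
        rw [hlam, mul_pow, Real.sq_sqrt hQ0.le]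
        ring
      rw [hQl, div_pow, ← pow_mul]
      have e : lam ^ (2 * m) = lam * lam ^ (2 * m - 1) := by
        rw [← pow_succ', show 2 * m - 1 + 1 = 2 * m by omega]
      rw [e, one_div, inv_pow]
      have hne : lam ^ (2 * m - 1) ≠ 0 := pow_ne_zero _ hlam0.ne'
      have h4 : (4 : ℝ) ^ m ≠ 0 := pow_ne_zero _ (by norm_num)
      generalize lam ^ (2 * m - 1) = L at hne ⊢
      generalize (4 : ℝ) ^ m = F at h4 ⊢
      field_simp
    rw [h11] at h10
    linarith
  have hle : -EE (fun x : Pt d R => A x * (g x).im) ≤ EE (fun x : Pt d R => ‖g x‖ * |A x|) := by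
    rw [← EE_neg]
    refine EE_mono fun x => ?_
    have h5 := Complex.abs_im_le_norm (g x)
    calc -(A x * (g x).im) ≤ |A x * (g x).im| := neg_le_abs _
      _ = |A x| * |(g x).im| := abs_mul _ _
      _ ≤ |A x| * ‖g x‖ := mul_le_mul_of_nonneg_left h5 (abs_nonneg _)
      _ = ‖g x‖ * |A x| := mul_comm _ _
  have hfin := hle.trans hup
  linarith

end Pool.Agent.H636R2.LD
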