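import Pool.Agent.H636R2.LD.Stmts

set_option autoImplicit false

namespace Pool.Agent.H636R2.LD

open Finset

namespace HaarAux

/-- flip of the digit `j` -/
def flp {R : ℕ} (j : Fin R) : (Fin R → Bool) ≃ (Fin R → Bool) where
  toFun w := Function.update w j (!w j)
  invFun w := Function.update w j (!w j)
  left_inv w := by
    funext i
    by_cases h : i = j
    · subst h; simp
    · simp [Function.update_of_ne h]
  right_inv w := by
    funext i
    by_cases h : i = j
    · subst h; simp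
    · simp [Function.update_of_ne h]

theorem num_splw {R : ℕ} (j : Fin R) (v w : Fin R → Bool) :
    (num (splw j v w) : ℝ) = (∑ i ∈ univ.erase j, if splw j v w i then (2:ℝ) ^ (R - 1 - (i : ℕ)) else 0)
      + (if w j then (2:ℝ) ^ (R - 1 - (j : ℕ)) else 0) := by
  unfold num
  push_cast
  rw [← Finset.sum_erase_add _ _ (Finset.mem_univ j)]
  congr 1
  simp [splw]

theorem num_flp {R : ℕ} (j : Fin R) (v w : Fin R → Bool) :
    sg (w j) * (num (splw j v w) : ℝ) + sg (flp j w j) * (num (splw j v (flp j w)) : ℝ)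
      = 2 ^ (R - 1 - (j : ℕ)) := by
  rw [num_splw, num_splw]
  have e1 : flp j w j = !w j := by simp [flp]
  have e2 : ∑ i ∈ univ.erase j, (if splw j v (flp j w) i then (2:ℝ) ^ (R - 1 - (i : ℕ)) else 0)
      = ∑ i ∈ univ.erase j, (if splw j v w i then (2:ℝ) ^ (R - 1 - (i : ℕ)) else 0) := by
    refine Finset.sum_congr rfl fun i hi => ?_
    have hne : i ≠ j := (Finset.mem_erase.mp hi).1
    have : splw j v (flp j w) i = splw j v w i := by
      simp [splw, flp, Function.update_of_ne hne]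
    rw [this]
  rw [e1, e2]
  cases h : w j <;> simp [sg] <;> ring

theorem EE_splw {R : ℕ} (j : Fin R) (v : Fin R → Bool) :
    EE (fun w : Fin R → Bool => sg (w j) * (num (splw j v w) : ℝ)) = 2 ^ (R - 1 - (j : ℕ)) / 2 := by
  have h1 := EE_equiv (𝕜 := ℝ) (flp j) (fun w : Fin R → Bool => sg (w j) * (num (splw j v w) : ℝ))
  have h2 := EE_add (𝕜 := ℝ) (fun w : Fin R → Bool => sg (w j) * (num (splw j v w) : ℝ))
    (fun w : Fin R → Bool => sg (flp j w j) * (num (splw j v (flp j w)) : ℝ))
  simp only [num_flp, EE_const] at h2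
  rw [h1] at h2
  linarith

theorem EE_sg {R : ℕ} (j : Fin R) : EE (fun w : Fin R → Bool => sg (w j)) = 0 := by
  have h1 := EE_equiv (𝕜 := ℝ) (flp j) (fun w : Fin R → Bool => sg (w j))
  have h2 : (fun w : Fin R → Bool => sg (flp j w j)) = fun w => - sg (w j) := by
    funext w
    have e1 : flp j w j = !w j := by simp [flp]
    rw [e1]
    cases h : w j <;> simp [sg]
  rw [h2, EE_neg] at h1
  linarith

theorem geom {R : ℕ} (j : Fin R) : ∑ i ∈ univ.filter (fun i : Fin R => ¬ i < j),
    (2:ℝ) ^ (R - 1 - (i : ℕ)) ≤ 2 ^ (R - (j : ℕ)) := by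
  have h1 : ∑ i ∈ univ.filter (fun i : Fin R => ¬ i < j), (2:ℝ) ^ (R - 1 - (i : ℕ)) ≤
      ∑ k ∈ range (R - j), (2:ℝ) ^ k := by
    rw [← Finset.sum_image (s := univ.filter (fun i : Fin R => ¬ i < j))
      (g := fun i : Fin R => R - 1 - (i : ℕ)) (f := fun k => (2:ℝ) ^ k)]
    · refine Finset.sum_le_sum_of_subset_of_nonneg ?_ fun _ _ _ => by positivity
      intro k hk
      rw [Finset.mem_image] at hk
      obtain ⟨i, hi, rfl⟩ := hk
      rw [Finset.mem_filter] at hi
      have h2 : ¬ (i : ℕ) < (j : ℕ) := fun h => hi.2 (Fin.lt_def.mpr h)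
      have := j.2
      have := i.2
      rw [Finset.mem_range]
      omega
    · intro a _ b _ hab
      have := a.2
      have := b.2
      simp only at hab
      exact Fin.ext (by omega)
  refine h1.trans ?_
  have h3 : ∑ k ∈ range (R - j), (2:ℝ) ^ k = 2 ^ (R - (j:ℕ)) - 1 := by
    rw [geom_sum_eq (by norm_num)]
    norm_num
  rw [h3]
  linarith

theorem num_diff {R : ℕ} (j : Fin R) (v w w' : Fin R → Bool) :
    (num (splw j v w) : ℝ) - num (splw j v w') ≤ 2 ^ (R - (j : ℕ)) := by
  refine le_trans ?_ (geom j)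
  unfold num
  push_cast
  rw [← Finset.sum_sub_distrib, Finset.sum_filter]
  refine Finset.sum_le_sum fun i _ => ?_
  by_cases h : i < j
  · simp [splw, h]
  · simp only [splw, h, if_false, not_false_eq_true, if_true]
    have : (0:ℝ) ≤ 2 ^ (R - 1 - (i : ℕ)) := by positivity
    split_ifs <;> linarith

end HaarAux

open HaarAux

theorem HAAR : S_HAAR := by
  intro R j v u
  have hj := j.2
  have hR : (0:ℝ) < 2 ^ R := by positivity
  constructor
  · have e : (fun w : Fin R → Bool => sg (w j) * (((num (splw j v w) : ℝ) + u) / 2 ^ R)) =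
        fun w => (2 ^ R : ℝ)⁻¹ * (sg (w j) * (num (splw j v w) : ℝ)) + (u / 2 ^ R) * sg (w j) := by
      funext w; field_simp
    rw [e, EE_add, EE_mul_left, EE_mul_left, EE_splw, EE_sg, mul_zero, add_zero]
    have h1 : (2:ℝ) ^ R = 2 ^ (R - 1 - (j : ℕ)) * 2 ^ ((j : ℕ) + 1) := by
      rw [← pow_add]; congr 1; omega
    rw [h1]
    have h2 : (0:ℝ) < 2 ^ (R - 1 - (j : ℕ)) := by positivity
    rw [pow_succ, pow_add]
    field_simp
  · intro w w'
    have h1 : (2:ℝ) ^ R = 2 ^ (R - (j : ℕ)) * 2 ^ (j : ℕ) := by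
      rw [← pow_add]; congr 1; omega
    have h2 : (0:ℝ) < 2 ^ (R - (j : ℕ)) := by positivity
    have e : ((num (splw j v w) : ℝ) + u) / 2 ^ R - ((num (splw j v w') : ℝ) + u) / 2 ^ R =
        ((num (splw j v w) : ℝ) - num (splw j v w')) / 2 ^ R := by
      field_simp; ring
    rw [e, abs_div, abs_of_pos hR, div_le_div_iff₀ hR (by positivity), one_mul, h1]
    refine mul_le_mul_of_nonneg_right ?_ (by positivity)
    rw [abs_le]
    constructor
    · linarith [num_diff j v w' w]
    · exact num_diff j v w w'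

end Pool.Agent.H636R2.LD
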