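import Pool.Agent.H636R2.LD.Stmts

set_option autoImplicit false

/-! # Task INT: from the grid to the cube -/

namespace Pool.Agent.H636R2.LD

open Finset MeasureTheory

/-- numbers of words -/
theorem int_num_cons {R : ℕ} (b : Bool) (v : Fin R → Bool) :
    num (Fin.cons b v : Fin (R + 1) → Bool) = (if b then 2 ^ R else 0) + num v := by
  unfold num
  rw [Fin.sum_univ_succ]
  simp only [Fin.cons_zero, Fin.val_zero, Fin.cons_succ, Fin.val_succ]
  congr 1
  refine Finset.sum_congr rfl fun i _ => ?_
  have : R + 1 - 1 - ((i : ℕ) + 1) = R - 1 - (i : ℕ) := by omega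
  rw [this]

/-- sum over the words is the sum over the numbers below `2 ^ R` -/
theorem int_num_sum {M : Type} [AddCommMonoid M] (R : ℕ) : ∀ g : ℕ → M,
    ∑ v : Fin R → Bool, g (num v) = ∑ a ∈ range (2 ^ R), g a := by
  induction R with
  | zero =>
    intro g
    simp [num]
  | succ R ih =>
    intro g
    rw [← (Fin.consEquiv fun _ : Fin (R + 1) => Bool).sum_comp, Fintype.sum_prod_type]
    have h1 : ∀ (b : Bool) (v : Fin R → Bool),
        g (num ((Fin.consEquiv fun _ : Fin (R + 1) => Bool) (b, v))) =
          g ((if b then 2 ^ R else 0) + num v) := by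
      intro b v
      rw [← int_num_cons]
      rfl
    simp only [h1]
    rw [Fintype.sum_bool]
    simp only [if_true, Bool.false_eq_true, if_false, zero_add]
    rw [ih (fun a => g (2 ^ R + a)), ih g, pow_succ, mul_two, Finset.sum_range_add, add_comm]

theorem INT : S_INT := by
  intro d R
  induction d with
  | zero =>
    intro F _ B h
    have h0 := h 0
    have e1 : ∀ x : Fin 0 → ℝ, F x = F 0 := fun x => by rw [Subsingleton.elim x 0]
    have e2 : ∫⁻ x in Set.Icc (0 : Fin 0 → ℝ) 1, F x = F 0 := by
      simp only [e1]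
      rw [setLIntegral_const, Real.volume_Icc_pi]
      simp
    rw [e2]
    refine h0.trans (le_of_eq ?_)
    simp only [e1]
    simp
  | succ d ih =>
    intro F hF B h
    have hcons := H736R2.Lone.measurable_cons d
    have hF2 : Measurable (fun p : ℝ × (Fin d → ℝ) => F (Fin.cons p.1 p.2)) := hF.comp hcons
    rw [H736R2.Lone.lintegral_slice d F hF]
    have hG : Measurable (fun t : ℝ => ∫⁻ x in Set.Icc (0 : Fin d → ℝ) 1, F (Fin.cons t x)) :=
      hF2.lintegral_prod_right'
    refine H736R2.Lone.le_lintegral_of_grid _ hG R B fun s => ?_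
    have hFa : ∀ t : ℝ, Measurable (fun x : Fin d → ℝ => F (Fin.cons t x)) := fun t =>
      hF2.comp (measurable_const.prodMk measurable_id)
    have e1 : (∑ a ∈ range (2 ^ R), ∫⁻ x in Set.Icc (0 : Fin d → ℝ) 1,
        F (Fin.cons (((a : ℝ) + s) / 2 ^ R) x)) / 2 ^ R =
        ∫⁻ x in Set.Icc (0 : Fin d → ℝ) 1, (∑ a ∈ range (2 ^ R),
          F (Fin.cons (((a : ℝ) + s) / 2 ^ R) x)) / 2 ^ R := by
      simp only [div_eq_mul_inv]
      rw [lintegral_mul_const, lintegral_finsetSum]
      · intro a _
        exact hFa _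
      · exact Finset.measurable_fun_sum _ fun a _ => hFa _
    rw [e1]
    refine ih _ ?_ B fun u => ?_
    · simp only [div_eq_mul_inv]
      exact (Finset.measurable_fun_sum _ fun a _ => hFa _).mul_const _
    · refine (h (Fin.cons s u)).trans (le_of_eq ?_)
      have e2 : ∑ x : Pt (d + 1) R, F (fun i => ((num (x i) : ℝ) +
          (Fin.cons s u : Fin (d + 1) → ℝ) i) / 2 ^ R) =
          ∑ x : Pt d R, ∑ a ∈ range (2 ^ R), F (Fin.cons (((a : ℝ) + s) / 2 ^ R)
            (fun i => ((num (x i) : ℝ) + u i) / 2 ^ R)) := by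
        rw [← (Fin.consEquiv fun _ : Fin (d + 1) => (Fin R → Bool)).sum_comp,
          Fintype.sum_prod_type, Finset.sum_comm]
        refine Finset.sum_congr rfl fun x _ => ?_
        rw [← int_num_sum R (fun a => F (Fin.cons (((a : ℝ) + s) / 2 ^ R)
            (fun i => ((num (x i) : ℝ) + u i) / 2 ^ R)))]
        refine Finset.sum_congr rfl fun v _ => ?_
        congr 1
        funext i
        refine Fin.cases ?_ (fun j => ?_) i
        · simp [Fin.consEquiv]
        · simp [Fin.consEquiv]
      rw [e2]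
      simp only [div_eq_mul_inv]
      rw [← Finset.sum_mul, pow_succ, ENNReal.mul_inv (Or.inr (by simp)) (Or.inr (by simp)),
        mul_assoc, mul_comm ((2 ^ R : ENNReal)⁻¹)]

end Pool.Agent.H636R2.LD
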