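import Pool.Agent.H636R2.LD.Stmts

set_option autoImplicit false

namespace Pool.Agent.H636R2.LD

open Finset

namespace K1Aux

theorem prod_ge {ι : Type} (s : Finset ι) (w : ι → ℝ) (h : ∀ i ∈ s, 0 ≤ w i ∧ w i ≤ 1) :
    (0 ≤ ∏ i ∈ s, (1 - w i)) ∧ (∏ i ∈ s, (1 - w i)) ≤ 1 ∧
      1 - ∏ i ∈ s, (1 - w i) ≤ ∑ i ∈ s, w i := by
  classical
  induction s using Finset.induction_on with
  | empty => simp
  | insert a s ha ih =>
    have h1 := ih (fun i hi => h i (mem_insert_of_mem hi))
    have h2 := h a (mem_insert_self a s)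
    rw [prod_insert ha, sum_insert ha]
    refine ⟨mul_nonneg (by linarith) h1.1, ?_, ?_⟩
    · exact mul_le_one₀ (by linarith) h1.1 h1.2.1
    · nlinarith [h1.1, h1.2.1, h1.2.2, h2.1, h2.2]

end K1Aux

open K1Aux in
theorem K1 : S_K1 := by
  intro d Ω _ _ g τ ρ hτ hg
  classical
  have hw : ∀ T x, 0 ≤ wild g τ T x ∧ wild g τ T x ≤ 1 := by
    intro T x
    unfold wild
    split_ifs <;> norm_num
  have hK0 : ∀ x, (0 ≤ K0 g τ x) ∧ K0 g τ x ≤ 1 ∧
      1 - K0 g τ x ≤ ∑ T ∈ (univ : Finset (Finset (Fin d))).erase univ, wild g τ T x := by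
    intro x
    exact prod_ge _ _ (fun T _ => hw T x)
  have hKK : ∀ x y, 1 - KK g τ x y ≤ ∑ W : Finset (Fin d),
      ∑ T ∈ (univ : Finset (Finset (Fin d))).erase univ, wild g τ T (mix W y x) := by
    intro x y
    have h1 := prod_ge (univ : Finset (Finset (Fin d))) (fun W => 1 - K0 g τ (mix W y x))
      (fun W _ => ⟨by linarith [(hK0 (mix W y x)).2.1], by linarith [(hK0 (mix W y x)).1]⟩)
    simp only [sub_sub_cancel] at h1
    refine h1.2.2.trans (Finset.sum_le_sum fun W _ => (hK0 (mix W y x)).2.2)
  have hmix : ∀ (W : Finset (Fin d)) (F : (Fin d → Ω) → ℝ),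
      EE (fun x => EE fun y => F (mix W y x)) = EE F := by
    intro W F
    rw [EE_comm]
    exact EE_mix W F
  have hwild : ∀ T ∈ (univ : Finset (Finset (Fin d))).erase univ, EE (wild g τ T) ≤ ρ := by
    intro T hT
    have hTu : T ≠ univ := Finset.ne_of_mem_erase hT
    rcases T.eq_empty_or_nonempty with h | h
    · subst h
      have h1 : wild g τ ∅ = fun _ => 0 := by
        funext x
        unfold wild
        rw [if_neg]
        unfold fib
        simp only [mix_empty]
        exact not_lt.2 hg
      rw [h1, EE_const]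
      exact hτ.rho
    · have hpos := hτ.pos T h
      have h1 : ∀ x, wild g τ T x ≤ fib g T x * (τ T)⁻¹ := by
        intro x
        have hf : 0 ≤ fib g T x := EE_nonneg (fun y => norm_nonneg _)
        unfold wild
        split_ifs with h2
        · rw [← div_eq_mul_inv, le_div_iff₀ hpos]
          linarith
        · positivity
      refine (EE_mono h1).trans ?_
      rw [EE_mul_right]
      have h2 : EE (fib g T) = EE (fun x => ‖g x‖) := by
        unfold fib
        exact EE_mix T (fun x => ‖g x‖)
      have h3 : EE (fun x => fib g T x) = EE (fun x => ‖g x‖) := h2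
      rw [h3, ← div_eq_mul_inv, div_le_iff₀ hpos]
      have h4 := hτ.chain ∅ T (Finset.empty_ssubset.2 h) hTu
      linarith
  calc EE (fun x => EE fun y => 1 - KK g τ x y)
      ≤ EE (fun x => EE fun y => ∑ W : Finset (Fin d),
          ∑ T ∈ (univ : Finset (Finset (Fin d))).erase univ, wild g τ T (mix W y x)) :=
        EE_mono fun x => EE_mono fun y => hKK x y
    _ = ∑ W : Finset (Fin d), ∑ T ∈ (univ : Finset (Finset (Fin d))).erase univ,
          EE (wild g τ T) := by
        have e1 : ∀ x, EE (fun y => ∑ W : Finset (Fin d),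
            ∑ T ∈ (univ : Finset (Finset (Fin d))).erase univ, wild g τ T (mix W y x)) =
            ∑ W : Finset (Fin d), ∑ T ∈ (univ : Finset (Finset (Fin d))).erase univ,
              EE (fun y => wild g τ T (mix W y x)) := by
          intro x
          rw [EE_sum]
          exact Finset.sum_congr rfl fun W _ => EE_sum _ _
        simp only [e1]
        rw [EE_sum]
        refine Finset.sum_congr rfl fun W _ => ?_
        rw [EE_sum]
        exact Finset.sum_congr rfl fun T _ => hmix W _
    _ ≤ ∑ W : Finset (Fin d), ∑ T ∈ (univ : Finset (Finset (Fin d))).erase univ, ρ :=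
        Finset.sum_le_sum fun W _ => Finset.sum_le_sum fun T hT => hwild T hT
    _ = (2 : ℝ) ^ d * ((((univ : Finset (Finset (Fin d))).erase univ).card : ℝ) * ρ) := by
        rw [Finset.sum_const, Finset.sum_const, nsmul_eq_mul, nsmul_eq_mul]
        simp
    _ ≤ (2 : ℝ) ^ d * ((2 : ℝ) ^ d * ρ) := by
        apply mul_le_mul_of_nonneg_left _ (by positivity)
        apply mul_le_mul_of_nonneg_right _ hτ.rho
        have h1 : ((univ : Finset (Finset (Fin d))).erase univ).card ≤
            (univ : Finset (Finset (Fin d))).card := Finset.card_le_card (Finset.erase_subset _ _)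
        have h2 : (univ : Finset (Finset (Fin d))).card = 2 ^ d := by simp
        rw [h2] at h1
        exact_mod_cast h1
    _ = 4 ^ d * ρ := by
        rw [← mul_assoc, ← mul_pow]
        norm_num

end Pool.Agent.H636R2.LD
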