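import Pool.Agent.H636R2.LD.Stmts

set_option autoImplicit false

/-! Task KAP (helper541): the product of the cut-offs versus the signed sum over chains. -/

namespace Pool.Agent.H636R2.LD

open Finset

namespace TaskKAP

section
variable {d : ℕ} {Ω : Type} [Fintype Ω]

theorem fib_congr (g : (Fin d → Ω) → ℂ) {T : Finset (Fin d)} {x x' : Fin d → Ω}
    (h : ∀ s ∈ T, x s = x' s) : fib g T x = fib g T x' := by
  unfold fib
  congr 1
  funext y
  have : mix T x y = mix T x' y := by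
    funext s
    by_cases hs : s ∈ T
    · rw [mix_mem hs, mix_mem hs, h s hs]
    · rw [mix_notMem hs, mix_notMem hs]
  rw [this]

theorem fib_nonneg (g : (Fin d → Ω) → ℂ) (T : Finset (Fin d)) (x : Fin d → Ω) :
    0 ≤ fib g T x := EE_nonneg fun _ => norm_nonneg _

theorem wild_congr (g : (Fin d → Ω) → ℂ) (τ : Finset (Fin d) → ℝ) {T : Finset (Fin d)}
    {x x' : Fin d → Ω} (h : ∀ s ∈ T, x s = x' s) : wild g τ T x = wild g τ T x' := by
  unfold wild
  rw [fib_congr g h]

theorem wild_zero_or_one (g : (Fin d → Ω) → ℂ) (τ : Finset (Fin d) → ℝ) (T : Finset (Fin d))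
    (x : Fin d → Ω) : wild g τ T x = 0 ∨ wild g τ T x = 1 := by
  unfold wild
  split_ifs
  · exact Or.inr rfl
  · exact Or.inl rfl

theorem wild_nonneg (g : (Fin d → Ω) → ℂ) (τ : Finset (Fin d) → ℝ) (T : Finset (Fin d))
    (x : Fin d → Ω) : 0 ≤ wild g τ T x := by
  rcases wild_zero_or_one g τ T x with h | h <;> rw [h] <;> norm_num

theorem wild_le_one (g : (Fin d → Ω) → ℂ) (τ : Finset (Fin d) → ℝ) (T : Finset (Fin d))
    (x : Fin d → Ω) : wild g τ T x ≤ 1 := by
  rcases wild_zero_or_one g τ T x with h | h <;> rw [h] <;> norm_num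

theorem wild_mul_le (g : (Fin d → Ω) → ℂ) (τ : Finset (Fin d) → ℝ) {T : Finset (Fin d)}
    (x : Fin d → Ω) : wild g τ T x * τ T ≤ fib g T x := by
  unfold wild
  split_ifs with h
  · rw [one_mul]; exact h.le
  · rw [zero_mul]; exact fib_nonneg g T x

theorem K0_mem (g : (Fin d → Ω) → ℂ) (τ : Finset (Fin d) → ℝ) (x : Fin d → Ω) :
    0 ≤ K0 g τ x ∧ K0 g τ x ≤ 1 := by
  unfold K0
  constructor
  · exact Finset.prod_nonneg fun T _ => by linarith [wild_le_one g τ T x]
  · exact Finset.prod_le_one (fun T _ => by linarith [wild_le_one g τ T x])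
      (fun T _ => by linarith [wild_nonneg g τ T x])

/-- the law of `mix T'' a (mix T b c)` is uniform -/
theorem EE_mix2 {𝕜 : Type} [Field 𝕜] [CharZero 𝕜] [Nonempty Ω] (T'' T : Finset (Fin d))
    (F : (Fin d → Ω) → 𝕜) :
    EE (fun a => EE fun b => EE fun c => F (mix T'' a (mix T b c))) = EE F := by
  rw [← EE_mix T'' F]
  congr 1
  funext a
  exact EE_mix T (fun w => F (mix T'' a w))

theorem avg_fib [Nonempty Ω] (g : (Fin d → Ω) → ℂ) {T'' T : Finset (Fin d)} (h : T'' ⊆ T)
    (a : Fin d → Ω) : EE (fun b => fib g T (mix T'' a b)) = fib g T'' a := by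
  have h1 : ∀ b y : Fin d → Ω, mix T (mix T'' a b) y = mix T'' a (mix T b y) := by
    intro b y
    funext s
    by_cases h2 : s ∈ T''
    · rw [mix_mem (h h2), mix_mem h2, mix_mem h2]
    · by_cases h3 : s ∈ T
      · rw [mix_mem h3, mix_notMem h2, mix_notMem h2, mix_mem h3]
      · rw [mix_notMem h3, mix_notMem h2, mix_notMem h3]
  have h2 : (fun b => fib g T (mix T'' a b)) =
      fun b => EE fun y => ‖g (mix T'' a (mix T b y))‖ := by
    funext b
    unfold fib
    simp only [h1]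
  rw [h2]
  exact EE_mix T (fun w => ‖g (mix T'' a w)‖)

/-- two incomparable fibres -/
theorem pair_bound [Nonempty Ω] (g : (Fin d → Ω) → ℂ) (τ : Finset (Fin d) → ℝ)
    {T T' : Finset (Fin d)} (h0 : 0 ≤ τ (T ∩ T')) :
    EE (fun x => (1 - wild g τ (T ∩ T') x) * (fib g T x * fib g T' x)) ≤
      τ (T ∩ T') * EE fun x => ‖g x‖ := by
  obtain ⟨T'', hT''⟩ : ∃ T'', T'' = T ∩ T' := ⟨_, rfl⟩
  rw [← hT''] at h0 ⊢
  have hs1 : T'' ⊆ T := hT'' ▸ inter_subset_left
  have hs2 : T'' ⊆ T' := hT'' ▸ inter_subset_right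
  rw [← EE_mix2 T'' T (fun x => (1 - wild g τ T'' x) * (fib g T x * fib g T' x))]
  have e1 : ∀ a b c : Fin d → Ω, fib g T (mix T'' a (mix T b c)) = fib g T (mix T'' a b) := by
    intro a b c
    apply fib_congr
    intro s hs
    by_cases h2 : s ∈ T''
    · rw [mix_mem h2, mix_mem h2]
    · rw [mix_notMem h2, mix_notMem h2, mix_mem hs]
  have e2 : ∀ a b c : Fin d → Ω, fib g T' (mix T'' a (mix T b c)) = fib g T' (mix T'' a c) := by
    intro a b c
    apply fib_congr
    intro s hs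
    by_cases h2 : s ∈ T''
    · rw [mix_mem h2, mix_mem h2]
    · have h3 : s ∉ T := by
        intro h3
        exact h2 (by rw [hT'']; exact mem_inter.2 ⟨h3, hs⟩)
      rw [mix_notMem h2, mix_notMem h2, mix_notMem h3]
  have e3 : ∀ a b c : Fin d → Ω, wild g τ T'' (mix T'' a (mix T b c)) = wild g τ T'' a := by
    intro a b c
    apply wild_congr
    intro s hs
    rw [mix_mem hs]
  have e4 : (fun a : Fin d → Ω => EE fun b : Fin d → Ω => EE fun c : Fin d → Ω =>
      (1 - wild g τ T'' (mix T'' a (mix T b c))) *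
        (fib g T (mix T'' a (mix T b c)) * fib g T' (mix T'' a (mix T b c)))) =
      fun a => (1 - wild g τ T'' a) * (fib g T'' a * fib g T'' a) := by
    funext a
    have e5 : (fun b : Fin d → Ω => EE fun c : Fin d → Ω =>
      (1 - wild g τ T'' (mix T'' a (mix T b c))) *
        (fib g T (mix T'' a (mix T b c)) * fib g T' (mix T'' a (mix T b c)))) =
        fun b => (1 - wild g τ T'' a) * fib g T'' a * fib g T (mix T'' a b) := by
      funext b
      have e6 : (fun c : Fin d → Ω => (1 - wild g τ T'' (mix T'' a (mix T b c))) *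
        (fib g T (mix T'' a (mix T b c)) * fib g T' (mix T'' a (mix T b c)))) =
          fun c => (1 - wild g τ T'' a) * fib g T (mix T'' a b) * fib g T' (mix T'' a c) := by
        funext c
        rw [e1, e2, e3]
        ring
      rw [e6, EE_mul_left, avg_fib g hs2]
      ring
    rw [e5, EE_mul_left, avg_fib g hs1]
    ring
  rw [e4]
  have e7 : EE (fun a => fib g T'' a) = EE fun x => ‖g x‖ := by
    have := EE_mix T'' (fun x => ‖g x‖)
    exact this
  rw [← e7, ← EE_mul_left]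
  apply EE_mono
  intro a
  have hf := fib_nonneg g T'' a
  unfold wild
  split_ifs with h
  · rw [sub_self, zero_mul]
    exact mul_nonneg h0 hf
  · rw [sub_zero, one_mul]
    exact mul_le_mul_of_nonneg_right (not_lt.mp h) hf

theorem term_bound [Nonempty Ω] (g : (Fin d → Ω) → ℂ) (τ : Finset (Fin d) → ℝ) (ρ : ℝ)
    (hτ : Thr τ ρ) {T T' : Finset (Fin d)} (h1 : T ≠ univ) (h2 : T' ≠ univ) (h3 : ¬ T ⊆ T')
    (h4 : ¬ T' ⊆ T) :
    EE (fun x => (1 - wild g τ (T ∩ T') x) * (wild g τ T x * wild g τ T' x)) ≤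
      ρ * EE fun x => ‖g x‖ := by
  have hT : T.Nonempty := by
    rw [nonempty_iff_ne_empty]
    rintro rfl
    exact h3 (empty_subset _)
  have hT' : T'.Nonempty := by
    rw [nonempty_iff_ne_empty]
    rintro rfl
    exact h4 (empty_subset _)
  have p1 := hτ.pos T hT
  have p2 := hτ.pos T' hT'
  have p0 : 0 ≤ τ (T ∩ T') := by
    rcases (T ∩ T').eq_empty_or_nonempty with h | h
    · rw [h]; exact hτ.nonneg
    · exact (hτ.pos _ h).le
  have hb := pair_bound g τ (T := T) (T' := T') p0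
  have hp := hτ.pair T T' h1 h2 h3 h4
  have hE : 0 ≤ EE fun x => ‖g x‖ := EE_nonneg fun _ => norm_nonneg _
  -- pointwise
  have hpt : EE (fun x => (τ T * τ T') * ((1 - wild g τ (T ∩ T') x) * (wild g τ T x * wild g τ T' x))) ≤
      EE (fun x => (1 - wild g τ (T ∩ T') x) * (fib g T x * fib g T' x)) := by
    apply EE_mono
    intro x
    have w0 : 0 ≤ 1 - wild g τ (T ∩ T') x := by linarith [wild_le_one g τ (T ∩ T') x]
    have w1 := wild_mul_le g τ (T := T) x
    have w2 := wild_mul_le g τ (T := T') x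
    have w3 : 0 ≤ wild g τ T' x * τ T' := mul_nonneg (wild_nonneg _ _ _ _) p2.le
    have w4 := mul_le_mul w1 w2 w3 (fib_nonneg g T x)
    have w5 := mul_le_mul_of_nonneg_left w4 w0
    calc _ = (1 - wild g τ (T ∩ T') x) * (wild g τ T x * τ T * (wild g τ T' x * τ T')) := by ring
      _ ≤ _ := w5
  rw [EE_mul_left] at hpt
  have h5 : (τ T * τ T') * EE (fun x => (1 - wild g τ (T ∩ T') x) * (wild g τ T x * wild g τ T' x)) ≤
      (τ T * τ T') * (ρ * EE fun x => ‖g x‖) := by
    calc _ ≤ _ := hpt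
      _ ≤ τ (T ∩ T') * EE fun x => ‖g x‖ := hb
      _ ≤ (ρ * (τ T * τ T')) * EE fun x => ‖g x‖ := mul_le_mul_of_nonneg_right hp hE
      _ = _ := by ring
  exact le_of_mul_le_mul_left h5 (mul_pos p1 p2)

end

end TaskKAP

open TaskKAP in
theorem KAP (h1 : S_CLO) (h2 : S_KBD) : S_KAP := by
  classical
  intro d Ω _ _ g τ ρ hτ hE
  obtain ⟨P, hP⟩ : ∃ P : Finset (Finset (Fin d) × Finset (Fin d)), P = univ.filter
    (fun p => p.1 ≠ univ ∧ p.2 ≠ univ ∧ ¬ p.1 ⊆ p.2 ∧ ¬ p.2 ⊆ p.1) := ⟨_, rfl⟩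
  have hEn : 0 ≤ EE fun x => ‖g x‖ := EE_nonneg fun _ => norm_nonneg _
  have hpt : ∀ x, |K0 g τ x - kap (fun T => wild g τ T x) univ| ≤
      (1 + 2 ^ (d ^ 2)) * ∑ p ∈ P, (1 - wild g τ (p.1 ∩ p.2) x) *
        (wild g τ p.1 x * wild g τ p.2 x) := by
    intro x
    have hterm : ∀ p ∈ P, 0 ≤ (1 - wild g τ (p.1 ∩ p.2) x) *
        (wild g τ p.1 x * wild g τ p.2 x) := by
      intro p _
      have w0 : 0 ≤ 1 - wild g τ (p.1 ∩ p.2) x := by linarith [wild_le_one g τ (p.1 ∩ p.2) x]
      exact mul_nonneg w0 (mul_nonneg (wild_nonneg _ _ _ _) (wild_nonneg _ _ _ _))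
    by_cases hcl : ∀ T T' : Finset (Fin d), T ≠ univ → T' ≠ univ → wild g τ T x = 1 →
        wild g τ T' x = 1 → wild g τ (T ∩ T') x = 1
    · have hb0 : wild g τ ∅ x = 0 := by
        unfold wild
        rw [if_neg]
        rw [not_lt]
        have : fib g ∅ x = EE fun x => ‖g x‖ := by
          unfold fib
          simp only [mix_empty]
        rw [this]
        exact hE
      have h := h1 d (fun T => wild g τ T x) (fun T => wild_zero_or_one g τ T x) hb0 hcl
      rw [h]
      have : K0 g τ x = ∏ T ∈ (univ : Finset (Finset (Fin d))).erase univ, (1 - wild g τ T x) := rfl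
      rw [this, sub_self, abs_zero]
      exact mul_nonneg (by positivity) (Finset.sum_nonneg hterm)
    · push Not at hcl
      obtain ⟨T, T', hT, hT', w1, w2, w3⟩ := hcl
      have w4 : wild g τ (T ∩ T') x = 0 := (wild_zero_or_one g τ (T ∩ T') x).resolve_right w3
      have n1 : ¬ T ⊆ T' := by
        intro h
        rw [inter_eq_left.2 h] at w3
        exact w3 w1
      have n2 : ¬ T' ⊆ T := by
        intro h
        rw [inter_eq_right.2 h] at w3
        exact w3 w2
      have hmem : (T, T') ∈ P := by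
        rw [hP, mem_filter]
        exact ⟨mem_univ _, hT, hT', n1, n2⟩
      have h3 := Finset.single_le_sum hterm hmem
      simp only [w1, w2, w4] at h3
      have h4 : |K0 g τ x - kap (fun T => wild g τ T x) univ| ≤ 1 + 2 ^ (d ^ 2) := by
        refine (abs_sub _ _).trans ?_
        have k1 := K0_mem g τ x
        have k2 := h2 d (fun T => wild g τ T x) (fun T => by
          rw [abs_of_nonneg (wild_nonneg g τ T x)]
          exact wild_le_one g τ T x) univ
        rw [card_univ, Fintype.card_fin] at k2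
        rw [abs_of_nonneg k1.1]
        linarith [k1.2]
      refine h4.trans ?_
      have h5 : (1 : ℝ) ≤ ∑ p ∈ P, (1 - wild g τ (p.1 ∩ p.2) x) *
        (wild g τ p.1 x * wild g τ p.2 x) := by linarith
      have h6 : (0 : ℝ) ≤ 1 + 2 ^ (d ^ 2) := by positivity
      calc (1 : ℝ) + 2 ^ (d ^ 2) = (1 + 2 ^ (d ^ 2)) * 1 := by ring
        _ ≤ _ := mul_le_mul_of_nonneg_left h5 h6
  have hsum : EE (fun x => ∑ p ∈ P, (1 - wild g τ (p.1 ∩ p.2) x) *
        (wild g τ p.1 x * wild g τ p.2 x)) ≤ 4 ^ d * (ρ * EE fun x => ‖g x‖) := by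
    rw [EE_sum]
    have h3 : ∀ p ∈ P, EE (fun x => (1 - wild g τ (p.1 ∩ p.2) x) *
        (wild g τ p.1 x * wild g τ p.2 x)) ≤ ρ * EE fun x => ‖g x‖ := by
      intro p hp
      rw [hP, mem_filter] at hp
      exact term_bound g τ ρ hτ hp.2.1 hp.2.2.1 hp.2.2.2.1 hp.2.2.2.2
    refine (Finset.sum_le_sum h3).trans ?_
    rw [Finset.sum_const, nsmul_eq_mul]
    refine mul_le_mul_of_nonneg_right ?_ (mul_nonneg hτ.rho hEn)
    have h4 : P.card ≤ 4 ^ d := by
      have h5 := Finset.card_le_univ P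
      rw [Fintype.card_prod, Fintype.card_finset, Fintype.card_fin, ← mul_pow] at h5
      exact h5
    exact_mod_cast h4
  calc EE (fun x => |K0 g τ x - kap (fun T => wild g τ T x) univ|) ≤
      EE (fun x => (1 + 2 ^ (d ^ 2)) * ∑ p ∈ P, (1 - wild g τ (p.1 ∩ p.2) x) *
        (wild g τ p.1 x * wild g τ p.2 x)) := EE_mono hpt
    _ = (1 + 2 ^ (d ^ 2)) * EE (fun x => ∑ p ∈ P, (1 - wild g τ (p.1 ∩ p.2) x) *
        (wild g τ p.1 x * wild g τ p.2 x)) := EE_mul_left _ _
    _ ≤ (1 + 2 ^ (d ^ 2)) * (4 ^ d * (ρ * EE fun x => ‖g x‖)) :=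
        mul_le_mul_of_nonneg_left hsum (by positivity)
    _ = 4 ^ d * (1 + 2 ^ (d ^ 2)) * ρ * EE fun x => ‖g x‖ := by ring

end Pool.Agent.H636R2.LD
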