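import Pool.Agent.H636R2.LD.Stmts

set_option autoImplicit false

/-! Task KBD (helper194): bound for the signed sum over chains. -/

namespace Pool.Agent.H636R2.LD

open Finset

theorem KBD : S_KBD := by
  intro d b hb U
  induction hn : U.card using Nat.strong_induction_on generalizing U with
  | _ n ih =>
    subst hn
    have hkap : kap b U = 1 - ∑ T ∈ U.ssubsets.attach, b T.1 * kap b T.1 := by
      conv_lhs => rw [kap]
    rcases Nat.eq_zero_or_pos U.card with h0 | h0
    · have hU : U = ∅ := card_eq_zero.1 h0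
      subst hU
      have he : (∅ : Finset (Fin d)).ssubsets.attach = ∅ := by
        rw [Finset.attach_eq_empty_iff]
        rfl
      rw [hkap, he]
      simp
    · obtain ⟨u, hu⟩ : ∃ u, U.card = u + 1 := ⟨U.card - 1, by omega⟩
      have h1 : ∀ T ∈ U.ssubsets.attach, |b T.1 * kap b T.1| ≤ (2 : ℝ) ^ (u ^ 2) := by
        intro T _
        have hT : T.1 ⊂ U := mem_ssubsets.1 T.2
        have hc : T.1.card < U.card := card_lt_card hT
        have h2 := ih T.1.card hc T.1 rfl
        rw [abs_mul]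
        calc |b T.1| * |kap b T.1| ≤ 1 * 2 ^ (T.1.card ^ 2) :=
              mul_le_mul (hb T.1) h2 (abs_nonneg _) zero_le_one
          _ = 2 ^ (T.1.card ^ 2) := one_mul _
          _ ≤ 2 ^ (u ^ 2) := by
            apply pow_le_pow_right₀ (by norm_num)
            exact Nat.pow_le_pow_left (by omega) 2
      have hcard : (U.ssubsets.attach.card : ℝ) = 2 ^ (u + 1) - 1 := by
        rw [card_attach, Finset.ssubsets, card_erase_of_mem (mem_powerset_self U), card_powerset, hu]
        rw [Nat.cast_sub (Nat.one_le_two_pow)]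
        push_cast
        ring
      have h3 : |∑ T ∈ U.ssubsets.attach, b T.1 * kap b T.1| ≤ (2 ^ (u + 1) - 1) * (2 : ℝ) ^ (u ^ 2) := by
        calc |∑ T ∈ U.ssubsets.attach, b T.1 * kap b T.1|
            ≤ ∑ T ∈ U.ssubsets.attach, |b T.1 * kap b T.1| := abs_sum_le_sum_abs _ _
          _ ≤ ∑ T ∈ U.ssubsets.attach, (2 : ℝ) ^ (u ^ 2) := sum_le_sum h1
          _ = (2 ^ (u + 1) - 1) * (2 : ℝ) ^ (u ^ 2) := by rw [sum_const, nsmul_eq_mul, hcard]
      have h4 : (1 : ℝ) ≤ 2 ^ (u ^ 2) := one_le_pow₀ (by norm_num)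
      have h5 : |kap b U| ≤ 1 + (2 ^ (u + 1) - 1) * (2 : ℝ) ^ (u ^ 2) := by
        rw [hkap]
        calc |1 - ∑ T ∈ U.ssubsets.attach, b T.1 * kap b T.1|
            ≤ |(1 : ℝ)| + |∑ T ∈ U.ssubsets.attach, b T.1 * kap b T.1| := abs_sub _ _
          _ ≤ 1 + (2 ^ (u + 1) - 1) * (2 : ℝ) ^ (u ^ 2) := by
            rw [abs_one]
            linarith
      have h6 : (2 : ℝ) ^ (u + 1) * 2 ^ (u ^ 2) ≤ 2 ^ ((u + 1) ^ 2) := by
        rw [← pow_add]
        apply pow_le_pow_right₀ (by norm_num)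
        nlinarith
      rw [hu]
      calc |kap b U| ≤ 1 + (2 ^ (u + 1) - 1) * (2 : ℝ) ^ (u ^ 2) := h5
        _ ≤ 2 ^ (u + 1) * 2 ^ (u ^ 2) := by linarith
        _ ≤ 2 ^ ((u + 1) ^ 2) := h6

end Pool.Agent.H636R2.LD
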