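import Pool.Agent.H636R2.LD.Stmts

set_option autoImplicit false

/-! Task LEV (helper194): number of levels. -/

namespace Pool.Agent.H636R2.LD

open Finset

theorem LEV : S_LEV := by
  intro d n hd
  obtain ⟨k, rfl⟩ : ∃ k, d = k + 1 := ⟨d - 1, by omega⟩
  set q := n / (k + 1) with hq
  have hq1 : q * (k + 1) ≤ n := Nat.div_mul_le_self n (k + 1)
  have hsum : ∀ f : Fin k → Fin q, ∑ i, (f i : ℕ) ≤ n := by
    intro f
    calc ∑ i, (f i : ℕ) ≤ ∑ _i : Fin k, q := sum_le_sum fun i _ => (f i).2.le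
      _ = k * q := by simp
      _ ≤ q * (k + 1) := by nlinarith
      _ ≤ n := hq1
  have hlt : ∀ (f : Fin k → Fin q) (i : Fin k), (f i : ℕ) < n + 1 := by
    intro f i
    have h1 : (f i : ℕ) ≤ ∑ j, (f j : ℕ) := single_le_sum (f := fun j => (f j : ℕ)) (fun j _ => Nat.zero_le _) (mem_univ i)
    have := hsum f
    omega
  let Φ : (Fin k → Fin q) → (Fin (k + 1) → Fin (n + 1)) := fun f =>
    Fin.cons ⟨n - ∑ i, (f i : ℕ), by omega⟩ (fun i => ⟨(f i : ℕ), hlt f i⟩)
  have hΦ : ∀ f ∈ (univ : Finset (Fin k → Fin q)), Φ f ∈ lev (k + 1) (n + 1) n := by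
    intro f _
    simp only [lev, mem_filter, mem_univ, true_and]
    rw [Fin.sum_univ_succ]
    simp only [Φ, Fin.cons_zero, Fin.cons_succ]
    have := hsum f
    omega
  have hinj : Set.InjOn Φ ((univ : Finset (Fin k → Fin q)) : Set (Fin k → Fin q)) := by
    intro f _ g _ h
    funext i
    have := congrFun h i.succ
    simp only [Φ, Fin.cons_succ] at this
    have h2 := congrArg Fin.val this
    exact Fin.ext h2
  have hc := card_le_card_of_injOn Φ hΦ hinj
  rw [card_univ, Fintype.card_fun, Fintype.card_fin, Fintype.card_fin] at hc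
  have : ((q ^ k : ℕ) : ℝ) ≤ ((lev (k + 1) (n + 1) n).card : ℝ) := by exact_mod_cast hc
  simpa using this

end Pool.Agent.H636R2.LD
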