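import Pool.Agent.H636R2.LD.Stmts

set_option autoImplicit false

namespace Pool.Agent.H636R2.LD

open Finset

namespace MAINAux

theorem sin_le {u q : ℝ} (hq : q ≤ 1) (hu : |u| ≤ q) {K : ℝ} (h0 : 0 ≤ K) (h1 : K ≤ 1) :
    |u - K * Real.sin u| ≤ q ^ 2 + q * (1 - K) := by
  have hu1 : |u| ≤ 1 := hu.trans hq
  have hu0 : 0 ≤ |u| := abs_nonneg u
  have h2 := Real.sin_bound hu1
  have h3 : |Real.sin u| ≤ |u| := Real.abs_sin_le_abs
  have h4 : |u - Real.sin u| ≤ |u| ^ 2 := by
    have h5 : |u - Real.sin u| ≤ |u ^ 3 / 6| + |Real.sin u - (u - u ^ 3 / 6)| := by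
      have : u - Real.sin u = u ^ 3 / 6 - (Real.sin u - (u - u ^ 3 / 6)) := by ring
      rw [this]
      exact abs_sub _ _
    have h6 : |u ^ 3 / 6| = |u| ^ 3 / 6 := by
      rw [abs_div, abs_pow]
      norm_num
    have h7 : |u| ^ 3 ≤ |u| ^ 2 := pow_le_pow_of_le_one hu0 hu1 (by norm_num)
    have h8 : |u| ^ 5 ≤ |u| ^ 2 := pow_le_pow_of_le_one hu0 hu1 (by norm_num)
    rw [h6] at h5
    have h9 : 0 ≤ |u| ^ 2 := by positivity
    linarith
  have h10 : |u| ^ 2 ≤ q ^ 2 := by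
    exact pow_le_pow_left₀ hu0 hu 2
  have h11 : u - K * Real.sin u = (u - Real.sin u) + (1 - K) * Real.sin u := by ring
  rw [h11]
  refine (abs_add_le _ _).trans ?_
  rw [abs_mul, abs_of_nonneg (show 0 ≤ 1 - K by linarith)]
  have h12 : (1 - K) * |Real.sin u| ≤ (1 - K) * q :=
    mul_le_mul_of_nonneg_left (h3.trans hu) (by linarith)
  linarith

theorem im_eq (a K u : ℝ) : (((a : ℝ) : ℂ) * ((K : ℝ) : ℂ) *
    Complex.exp (-(Complex.I * ((u : ℝ) : ℂ)))).im = -(a * (K * Real.sin u)) := by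
  have h : -(Complex.I * ((u : ℝ) : ℂ)) = (((-u : ℝ)) : ℂ) * Complex.I := by
    push_cast
    ring
  rw [h, ← Complex.ofReal_mul, Complex.im_ofReal_mul, Complex.exp_ofReal_mul_I_im, Real.sin_neg]
  ring

end MAINAux

open MAINAux in
theorem MAIN : S_MAIN := by
  intro d Ω _ _ K hK h hh h0 t Θ q hq hu
  classical
  have hchi : ∀ x : Fin d → Ω, |∏ s, h s (x s)| ≤ 1 := by
    intro x
    rw [Finset.abs_prod]
    exact Finset.prod_le_one (fun s _ => abs_nonneg _) (fun s _ => hh s _)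
  have hq0 : 0 ≤ q := by
    obtain ⟨w⟩ := (inferInstance : Nonempty Ω)
    exact (abs_nonneg _).trans (hu (fun _ => w) (fun _ => w))
  have hmain : Θ * ∏ s, EE (fun w => h s w * t s w) =
      EE fun x : Fin d → Ω => EE fun y : Fin d → Ω =>
        (∏ s, h s (x s)) * (Θ * ∏ s, (t s (x s) - t s (y s))) := by
    have e1 : ∀ x : Fin d → Ω, EE (fun y : Fin d → Ω =>
        (∏ s, h s (x s)) * (Θ * ∏ s, (t s (x s) - t s (y s)))) =
        Θ * ∏ s, (h s (x s) * (t s (x s) - EE (t s))) := by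
      intro x
      have e2 : ∀ y : Fin d → Ω, (∏ s, h s (x s)) * (Θ * ∏ s, (t s (x s) - t s (y s))) =
          Θ * ∏ s, (h s (x s) * (t s (x s) - t s (y s))) := by
        intro y
        rw [Finset.prod_mul_distrib]
        ring
      simp only [e2]
      rw [EE_mul_left, EE_pi (fun s w => h s (x s) * (t s (x s) - t s w))]
      congr 1
      refine Finset.prod_congr rfl fun s _ => ?_
      rw [EE_mul_left, EE_sub, EE_const]
    simp only [e1]
    rw [EE_mul_left, EE_pi (fun s w => h s w * (t s w - EE (t s)))]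
    congr 1
    refine Finset.prod_congr rfl fun s _ => ?_
    have e3 : ∀ w, h s w * (t s w - EE (t s)) = h s w * t s w - h s w * EE (t s) := by
      intro w
      ring
    simp only [e3]
    rw [EE_sub, EE_mul_right]
    have e4 : EE (fun x => h s x) = 0 := h0 s
    rw [e4]
    ring
  rw [hmain, EE_im]
  simp only [EE_im, im_eq]
  rw [← EE_add]
  simp only [← EE_add]
  have hb : ∀ x y : Fin d → Ω, |-((∏ s, h s (x s)) *
      (K x y * Real.sin (Θ * ∏ s, (t s (x s) - t s (y s))))) +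
      (∏ s, h s (x s)) * (Θ * ∏ s, (t s (x s) - t s (y s)))| ≤ q ^ 2 + q * (1 - K x y) := by
    intro x y
    have e5 : -((∏ s, h s (x s)) * (K x y * Real.sin (Θ * ∏ s, (t s (x s) - t s (y s))))) +
      (∏ s, h s (x s)) * (Θ * ∏ s, (t s (x s) - t s (y s))) =
      (∏ s, h s (x s)) * ((Θ * ∏ s, (t s (x s) - t s (y s))) -
        K x y * Real.sin (Θ * ∏ s, (t s (x s) - t s (y s)))) := by ring
    rw [e5, abs_mul]
    have h2 := sin_le hq (hu x y) (hK x y).1 (hK x y).2
    have h3 := hchi x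
    calc |∏ s, h s (x s)| * |(Θ * ∏ s, (t s (x s) - t s (y s))) -
        K x y * Real.sin (Θ * ∏ s, (t s (x s) - t s (y s)))| ≤ 1 * |(Θ * ∏ s, (t s (x s) - t s (y s))) -
        K x y * Real.sin (Θ * ∏ s, (t s (x s) - t s (y s)))| :=
          mul_le_mul_of_nonneg_right h3 (abs_nonneg _)
      _ ≤ q ^ 2 + q * (1 - K x y) := by rw [one_mul]; exact h2
  refine (abs_EE_le _).trans ?_
  have h6 : EE (fun x : Fin d → Ω => EE fun y : Fin d → Ω => q ^ 2 + q * (1 - K x y)) =
      q ^ 2 + q * EE (fun x => EE fun y => 1 - K x y) := by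
    have e6 : ∀ x : Fin d → Ω, EE (fun y : Fin d → Ω => q ^ 2 + q * (1 - K x y)) =
        q ^ 2 + q * EE (fun y => 1 - K x y) := by
      intro x
      rw [EE_add, EE_const, EE_mul_left]
    simp only [e6]
    rw [EE_add, EE_const, EE_mul_left]
  rw [← h6]
  refine EE_mono fun x => ?_
  refine (abs_EE_le _).trans ?_
  exact EE_mono fun y => hb x y

end Pool.Agent.H636R2.LD
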