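import Pool.Agent.H636R2.LD.Stmts

set_option autoImplicit false
set_option linter.unusedSectionVars false

/-! ONE: one-parameter square function inequality. -/

namespace Pool.Agent.H636R2.LD

open Finset

namespace ONEaux

theorem bern (n : ℕ) (p u : ℝ) (hp : 0 ≤ p) (hu : 0 ≤ u) :
    p ^ (n + 1) - u ^ (n + 1) ≤ ((n : ℝ) + 1) * (p - u) * p ^ n := by
  induction n with
  | zero => simp
  | succ n ih =>
    have h1 : 0 ≤ (p - u) * (p ^ (n + 1) - u ^ (n + 1)) := by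
      rcases le_total u p with h | h
      · exact mul_nonneg (sub_nonneg.2 h) (sub_nonneg.2 (pow_le_pow_left₀ hu h _))
      · exact mul_nonneg_of_nonpos_of_nonpos (sub_nonpos.2 h)
          (sub_nonpos.2 (pow_le_pow_left₀ hp h _))
    have h2 := mul_le_mul_of_nonneg_left ih hp
    have e1 : p ^ (n + 1 + 1) - u ^ (n + 1 + 1) =
        p * (p ^ (n + 1) - u ^ (n + 1)) + (p - u) * u ^ (n + 1) := by ring
    rw [e1]
    push_cast
    have e2 : ((n : ℝ) + 1 + 1) * (p - u) * p ^ (n + 1) =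
      p * (((n : ℝ) + 1) * (p - u) * p ^ n) + (p - u) * p ^ (n + 1) := by ring
    rw [e2]
    nlinarith

theorem key1 (n : ℕ) (u v b p r : ℝ) (hu : 0 ≤ u) (hv : 0 ≤ v) (hp : 0 ≤ p) (hr : 0 ≤ r)
    (ep : p = u + v + b) (er : r = u + v - b) (hb : b ^ 2 ≤ 4 * u * v) (hb0 : 0 ≤ b) :
    b * (p ^ n - r ^ n) ≤ 8 * v * n * p ^ n := by
  cases n with
  | zero => simp
  | succ n =>
    have h1 := bern n p r hp hr
    have h2 : b * (p ^ (n + 1) - r ^ (n + 1)) ≤ b * (((n : ℝ) + 1) * (p - r) * p ^ n) :=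
      mul_le_mul_of_nonneg_left h1 hb0
    have e : p - r = 2 * b := by rw [ep, er]; ring
    rw [e] at h2
    have hn : (0 : ℝ) ≤ (n : ℝ) + 1 := by positivity
    have hpn : 0 ≤ p ^ n := pow_nonneg hp n
    have h3 : b * (((n : ℝ) + 1) * (2 * b) * p ^ n) ≤ 8 * (u * v) * ((n : ℝ) + 1) * p ^ n := by
      have : b * (((n : ℝ) + 1) * (2 * b) * p ^ n) = 2 * b ^ 2 * (((n : ℝ) + 1) * p ^ n) := by ring
      rw [this]
      have : 8 * (u * v) * ((n : ℝ) + 1) * p ^ n = 2 * (4 * u * v) * (((n : ℝ) + 1) * p ^ n) := by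
        ring
      rw [this]
      exact mul_le_mul_of_nonneg_right (by linarith) (mul_nonneg hn hpn)
    have h4 : 8 * (u * v) * ((n : ℝ) + 1) * p ^ n ≤ 8 * v * ((n : ℝ) + 1) * p ^ (n + 1) := by
      have hup : u ≤ p := by rw [ep]; linarith
      have : 8 * v * ((n : ℝ) + 1) * p ^ (n + 1) = (8 * v * ((n : ℝ) + 1) * p ^ n) * p := by ring
      rw [this]
      have : 8 * (u * v) * ((n : ℝ) + 1) * p ^ n = (8 * v * ((n : ℝ) + 1) * p ^ n) * u := by ring
      rw [this]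
      exact mul_le_mul_of_nonneg_left hup (by positivity)
    push_cast
    linarith

theorem key2 (n : ℕ) (u v b p r : ℝ) (hu : 0 ≤ u) (hv : 0 ≤ v) (hp : 0 ≤ p) (hr : 0 ≤ r)
    (ep : p = u + v + b) (er : r = u + v - b) (hb : b ^ 2 ≤ 4 * u * v) :
    b * (p ^ n - r ^ n) ≤ 8 * v * n * (p ^ n + r ^ n) := by
  have hpn : 0 ≤ p ^ n := pow_nonneg hp n
  have hrn : 0 ≤ r ^ n := pow_nonneg hr n
  rcases le_total 0 b with h | h
  · have h1 := key1 n u v b p r hu hv hp hr ep er hb h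
    have h2 : 0 ≤ 8 * v * n * r ^ n := by positivity
    linarith
  · have h1 := key1 n u v (-b) r p hu hv hr hp (by rw [er]; ring) (by rw [ep]; ring)
      (by rw [neg_sq]; exact hb) (by linarith)
    have h2 : 0 ≤ 8 * v * n * p ^ n := by positivity
    linarith

theorem key3 (n : ℕ) (u p r : ℝ) (hu : 0 ≤ u) (hp : 0 ≤ p) (hr : 0 ≤ r)
    (h : 2 * u ≤ p + r) : 2 * u ^ n ≤ p ^ n + r ^ n := by
  cases n with
  | zero => norm_num
  | succ n =>
    have h1 := bern n ((p + r) / 2) p (by linarith) hp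
    have h2 := bern n ((p + r) / 2) r (by linarith) hr
    have h3 : u ^ (n + 1) ≤ ((p + r) / 2) ^ (n + 1) := pow_le_pow_left₀ hu (by linarith) _
    have h4 : ((n : ℝ) + 1) * ((p + r) / 2 - p) * ((p + r) / 2) ^ n +
      ((n : ℝ) + 1) * ((p + r) / 2 - r) * ((p + r) / 2) ^ n = 0 := by ring
    linarith

theorem key (n : ℕ) (u v b p r s : ℝ) (hu : 0 ≤ u) (hv : 0 ≤ v) (hp : 0 ≤ p) (hr : 0 ≤ r)
    (hs : 0 ≤ s)
    (ep : p = u + v + b) (er : r = u + v - b) (hb : b ^ 2 ≤ 4 * u * v) :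
    (p ^ (n + 1) - 8 * ((n : ℝ) + 1) ^ 2 * (p ^ n * (s + v))) +
    (r ^ (n + 1) - 8 * ((n : ℝ) + 1) ^ 2 * (r ^ n * (s + v))) ≤
    2 * (u ^ (n + 1) - 8 * ((n : ℝ) + 1) ^ 2 * (u ^ n * s)) := by
  have h1 := bern n p u hp hu
  have h2 := bern n r u hr hu
  have h3 := key2 n u v b p r hu hv hp hr ep er hb
  have h4 := key3 n u p r hu hp hr (by rw [ep, er]; linarith)
  have hpn : 0 ≤ p ^ n := pow_nonneg hp n
  have hrn : 0 ≤ r ^ n := pow_nonneg hr n
  have e1 : p - u = v + b := by rw [ep]; ring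
  have e2 : r - u = v - b := by rw [er]; ring
  rw [e1] at h1
  rw [e2] at h2
  have hn : (0 : ℝ) ≤ (n : ℝ) + 1 := by positivity
  have h5 := mul_le_mul_of_nonneg_left h3 hn
  -- sum
  have h6 : p ^ (n + 1) + r ^ (n + 1) - 2 * u ^ (n + 1) ≤
      ((n : ℝ) + 1) * (v * (p ^ n + r ^ n)) + ((n : ℝ) + 1) * (8 * v * n * (p ^ n + r ^ n)) := by
    have : ((n : ℝ) + 1) * (v + b) * p ^ n + ((n : ℝ) + 1) * (v - b) * r ^ n =
      ((n : ℝ) + 1) * (v * (p ^ n + r ^ n)) + ((n : ℝ) + 1) * (b * (p ^ n - r ^ n)) := by ring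
    linarith
  have h7 : ((n : ℝ) + 1) * (v * (p ^ n + r ^ n)) + ((n : ℝ) + 1) * (8 * v * n * (p ^ n + r ^ n)) ≤
      8 * ((n : ℝ) + 1) ^ 2 * (v * (p ^ n + r ^ n)) := by
    have e : 8 * ((n : ℝ) + 1) ^ 2 * (v * (p ^ n + r ^ n)) -
      (((n : ℝ) + 1) * (v * (p ^ n + r ^ n)) + ((n : ℝ) + 1) * (8 * v * n * (p ^ n + r ^ n))) =
      7 * (((n : ℝ) + 1) * (v * (p ^ n + r ^ n))) := by ring
    have : 0 ≤ 7 * (((n : ℝ) + 1) * (v * (p ^ n + r ^ n))) := by positivity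
    linarith
  have h8 : 0 ≤ 8 * ((n : ℝ) + 1) ^ 2 * (s * (p ^ n + r ^ n - 2 * u ^ n)) := by
    have : 0 ≤ p ^ n + r ^ n - 2 * u ^ n := by linarith
    positivity
  nlinarith

/-- partial sums -/
noncomputable def FF {R : ℕ} {I : Type} (c : Fin R → I → (Fin R → Bool) → ℝ) (t : ℕ) (k : I)
    (x : Fin R → Bool) : ℝ := ∑ j : Fin R, if (j : ℕ) < t then sg (x j) * c j k x else 0

noncomputable def UU {R : ℕ} {I : Type} [Fintype I] (c : Fin R → I → (Fin R → Bool) → ℝ) (t : ℕ)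
    (x : Fin R → Bool) : ℝ := ∑ k, (FF c t k x) ^ 2

noncomputable def SS {R : ℕ} {I : Type} [Fintype I] (c : Fin R → I → (Fin R → Bool) → ℝ) (t : ℕ)
    (x : Fin R → Bool) : ℝ := ∑ k, ∑ j : Fin R, if (j : ℕ) < t then (c j k x) ^ 2 else 0

theorem sum_lt_succ {R : ℕ} (f : Fin R → ℝ) (t : ℕ) (ht : t < R) :
    (∑ j : Fin R, if (j : ℕ) < t + 1 then f j else 0) =
      (∑ j : Fin R, if (j : ℕ) < t then f j else 0) + f ⟨t, ht⟩ := by
  have : ∀ j : Fin R, (if (j : ℕ) < t + 1 then f j else 0) =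
      (if (j : ℕ) < t then f j else 0) + (if j = ⟨t, ht⟩ then f j else 0) := by
    intro j
    by_cases h1 : (j : ℕ) < t
    · have h2 : j ≠ ⟨t, ht⟩ := by
        intro h; rw [h] at h1; exact lt_irrefl _ h1
      rw [if_pos (by omega), if_pos h1, if_neg h2, add_zero]
    · by_cases h2 : j = ⟨t, ht⟩
      · subst h2
        rw [if_pos (Nat.lt_succ_self _), if_neg h1, if_pos rfl, zero_add]
      · have h3 : ¬ (j : ℕ) < t + 1 := by
          intro h
          apply h2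
          apply Fin.ext
          show (j : ℕ) = t
          omega
        rw [if_neg h3, if_neg h1, if_neg h2, add_zero]
  rw [Finset.sum_congr rfl (fun j _ => this j), Finset.sum_add_distrib]
  simp

/-- flipping a digit -/
def flp {R : ℕ} (j : Fin R) : (Fin R → Bool) ≃ (Fin R → Bool) where
  toFun x := Function.update x j (!(x j))
  invFun x := Function.update x j (!(x j))
  left_inv x := by
    funext i
    by_cases h : i = j
    · subst h; simp
    · simp [h]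
  right_inv x := by
    funext i
    by_cases h : i = j
    · subst h; simp
    · simp [h]

theorem flp_self {R : ℕ} (j : Fin R) (x : Fin R → Bool) : flp j x j = !(x j) := by
  simp [flp]

theorem flp_ne {R : ℕ} (j i : Fin R) (h : i ≠ j) (x : Fin R → Bool) : flp j x i = x i := by
  simp [flp, h]

theorem sg_not (b : Bool) : sg (!b) = - sg b := by cases b <;> simp [sg]

theorem sg_sq (b : Bool) : sg b ^ 2 = 1 := by cases b <;> simp [sg]

section
variable {R : ℕ} {I : Type} [Fintype I] (c : Fin R → I → (Fin R → Bool) → ℝ)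
  (hc : ∀ j k x y, (∀ i, i < j → x i = y i) → c j k x = c j k y)

include hc

theorem c_flp (t : ℕ) (ht : t < R) (j : Fin R) (hj : (j : ℕ) ≤ t) (k : I) (x : Fin R → Bool) :
    c j k (flp ⟨t, ht⟩ x) = c j k x := by
  apply hc
  intro i hi
  apply flp_ne
  intro h
  rw [h] at hi
  exact absurd (Fin.lt_def.1 hi) (by simpa using hj)

theorem FF_flp (t : ℕ) (ht : t < R) (k : I) (x : Fin R → Bool) :
    FF c t k (flp ⟨t, ht⟩ x) = FF c t k x := by
  unfold FF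
  apply Finset.sum_congr rfl
  intro j _
  by_cases h : (j : ℕ) < t
  · rw [if_pos h, if_pos h, c_flp c hc t ht j h.le, flp_ne]
    intro h'
    rw [h'] at h
    exact lt_irrefl _ h
  · rw [if_neg h, if_neg h]

theorem UU_flp (t : ℕ) (ht : t < R) (x : Fin R → Bool) :
    UU c t (flp ⟨t, ht⟩ x) = UU c t x := by
  unfold UU
  exact Finset.sum_congr rfl fun k _ => by rw [FF_flp c hc]

theorem SS_flp (t : ℕ) (ht : t < R) (x : Fin R → Bool) :
    SS c t (flp ⟨t, ht⟩ x) = SS c t x := by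
  unfold SS
  refine Finset.sum_congr rfl fun k _ => Finset.sum_congr rfl fun j _ => ?_
  by_cases h : (j : ℕ) < t
  · rw [if_pos h, if_pos h, c_flp c hc t ht j h.le]
  · rw [if_neg h, if_neg h]

omit hc in
theorem FF_succ (t : ℕ) (ht : t < R) (k : I) (x : Fin R → Bool) :
    FF c (t + 1) k x = FF c t k x + sg (x ⟨t, ht⟩) * c ⟨t, ht⟩ k x :=
  sum_lt_succ (fun j => sg (x j) * c j k x) t ht

omit hc in
theorem SS_succ (t : ℕ) (ht : t < R) (x : Fin R → Bool) :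
    SS c (t + 1) x = SS c t x + ∑ k, (c ⟨t, ht⟩ k x) ^ 2 := by
  unfold SS
  rw [← Finset.sum_add_distrib]
  exact Finset.sum_congr rfl fun k _ => sum_lt_succ (fun j => (c j k x) ^ 2) t ht

omit hc in
theorem UU_succ (t : ℕ) (ht : t < R) (x : Fin R → Bool) :
    UU c (t + 1) x = UU c t x + (∑ k, (c ⟨t, ht⟩ k x) ^ 2) +
      sg (x ⟨t, ht⟩) * (2 * ∑ k, FF c t k x * c ⟨t, ht⟩ k x) := by
  unfold UU
  rw [Finset.mul_sum, Finset.mul_sum, ← Finset.sum_add_distrib, ← Finset.sum_add_distrib]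
  refine Finset.sum_congr rfl fun k _ => ?_
  rw [FF_succ c t ht]
  have := sg_sq (x ⟨t, ht⟩)
  linear_combination (c ⟨t, ht⟩ k x) ^ 2 * this

theorem stepx (n : ℕ) (t : ℕ) (ht : t < R) (x : Fin R → Bool) :
    (UU c (t + 1) x ^ (n + 1) - 8 * ((n : ℝ) + 1) ^ 2 * (UU c (t + 1) x ^ n * SS c (t + 1) x)) +
    (UU c (t + 1) (flp ⟨t, ht⟩ x) ^ (n + 1) -
      8 * ((n : ℝ) + 1) ^ 2 * (UU c (t + 1) (flp ⟨t, ht⟩ x) ^ n * SS c (t + 1) (flp ⟨t, ht⟩ x))) ≤
    2 * (UU c t x ^ (n + 1) - 8 * ((n : ℝ) + 1) ^ 2 * (UU c t x ^ n * SS c t x)) := by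
  have e1 := UU_succ c t ht x
  have e2 := UU_succ c t ht (flp ⟨t, ht⟩ x)
  have e3 := SS_succ c t ht x
  have e4 := SS_succ c t ht (flp ⟨t, ht⟩ x)
  rw [UU_flp c hc, flp_self, sg_not] at e2
  rw [SS_flp c hc] at e4
  have hcc : ∀ k, c ⟨t, ht⟩ k (flp ⟨t, ht⟩ x) = c ⟨t, ht⟩ k x := fun k =>
    c_flp c hc t ht ⟨t, ht⟩ le_rfl k x
  simp only [hcc, FF_flp c hc] at e2 e4
  rw [e3, e4]
  apply key n (UU c t x) (∑ k, (c ⟨t, ht⟩ k x) ^ 2)
    (sg (x ⟨t, ht⟩) * (2 * ∑ k, FF c t k x * c ⟨t, ht⟩ k x))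
  · exact Finset.sum_nonneg fun k _ => sq_nonneg _
  · exact Finset.sum_nonneg fun k _ => sq_nonneg _
  · exact Finset.sum_nonneg fun k _ => sq_nonneg _
  · exact Finset.sum_nonneg fun k _ => sq_nonneg _
  · refine Finset.sum_nonneg fun k _ => Finset.sum_nonneg fun j _ => ?_
    split_ifs
    · exact sq_nonneg _
    · exact le_rfl
  · exact e1
  · rw [e2]; ring
  · have h := Finset.sum_mul_sq_le_sq_mul_sq (univ : Finset I) (fun k => FF c t k x)
      (fun k => c ⟨t, ht⟩ k x)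
    have hs := sg_sq (x ⟨t, ht⟩)
    rw [mul_pow, hs, one_mul, mul_pow]
    unfold UU
    nlinarith

theorem step (n : ℕ) (t : ℕ) (ht : t < R) :
    EE (fun x : Fin R → Bool => UU c (t + 1) x ^ (n + 1) -
      8 * ((n : ℝ) + 1) ^ 2 * (UU c (t + 1) x ^ n * SS c (t + 1) x)) ≤
    EE (fun x : Fin R → Bool => UU c t x ^ (n + 1) -
      8 * ((n : ℝ) + 1) ^ 2 * (UU c t x ^ n * SS c t x)) := by
  have h1 : EE (fun x : Fin R → Bool => UU c (t + 1) (flp ⟨t, ht⟩ x) ^ (n + 1) -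
      8 * ((n : ℝ) + 1) ^ 2 * (UU c (t + 1) (flp ⟨t, ht⟩ x) ^ n * SS c (t + 1) (flp ⟨t, ht⟩ x))) =
      EE (fun x : Fin R → Bool => UU c (t + 1) x ^ (n + 1) -
      8 * ((n : ℝ) + 1) ^ 2 * (UU c (t + 1) x ^ n * SS c (t + 1) x)) :=
    EE_equiv (flp (⟨t, ht⟩ : Fin R)) (fun x : Fin R → Bool => UU c (t + 1) x ^ (n + 1) -
      8 * ((n : ℝ) + 1) ^ 2 * (UU c (t + 1) x ^ n * SS c (t + 1) x))
  have h2 := EE_mono (stepx c hc n t ht)
  rw [EE_add, EE_mul_left, h1] at h2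
  linarith

theorem allsteps (n : ℕ) (t : ℕ) (ht : t ≤ R) :
    EE (fun x : Fin R → Bool => UU c t x ^ (n + 1) -
      8 * ((n : ℝ) + 1) ^ 2 * (UU c t x ^ n * SS c t x)) ≤ 0 := by
  induction t with
  | zero =>
    have h0 : ∀ x : Fin R → Bool, UU c 0 x = 0 := by
      intro x; simp [UU, FF]
    have h1 : ∀ x : Fin R → Bool, SS c 0 x = 0 := by
      intro x; simp [SS]
    simp only [h0, h1]
    simp [EE]
  | succ t ih =>
    exact (step c hc n t (by omega)).trans (ih (by omega))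

end

end ONEaux

open ONEaux in
theorem ONE : S_ONE := by
  intro R m I _ c hm hc
  obtain ⟨n, rfl⟩ : ∃ n, m = n + 1 := ⟨m - 1, by omega⟩
  have h := allsteps c hc n R le_rfl
  have eF : ∀ k x, FF c R k x = ∑ j, sg (x j) * c j k x := by
    intro k x
    unfold FF
    exact Finset.sum_congr rfl fun j _ => if_pos j.2
  have eU : ∀ x, UU c R x = ∑ k, (∑ j, sg (x j) * c j k x) ^ 2 := by
    intro x
    unfold UU
    exact Finset.sum_congr rfl fun k _ => by rw [eF]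
  have eS : ∀ x, SS c R x = ∑ k, ∑ j, (c j k x) ^ 2 := by
    intro x
    unfold SS
    exact Finset.sum_congr rfl fun k _ => Finset.sum_congr rfl fun j _ => if_pos j.2
  simp only [← eU, ← eS]
  have hU0 : ∀ x, 0 ≤ UU c R x := fun x => Finset.sum_nonneg fun k _ => sq_nonneg _
  have hS0 : ∀ x, 0 ≤ SS c R x := fun x => by
    rw [eS]
    exact Finset.sum_nonneg fun k _ => Finset.sum_nonneg fun j _ => sq_nonneg _
  rw [EE_sub] at h
  -- Young
  have hY : ∀ x : Fin R → Bool, ((n : ℝ) + 1) * (8 * ((n : ℝ) + 1) ^ 2 * (UU c R x ^ n * SS c R x)) ≤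
      (n : ℝ) * UU c R x ^ (n + 1) + (8 * ((n : ℝ) + 1) ^ 2) ^ (n + 1) * SS c R x ^ (n + 1) := by
    intro x
    have hb := bern n (UU c R x) (8 * ((n : ℝ) + 1) ^ 2 * SS c R x) (hU0 x)
      (mul_nonneg (by positivity) (hS0 x))
    rw [mul_pow] at hb
    have e : ((n : ℝ) + 1) * (UU c R x - 8 * ((n : ℝ) + 1) ^ 2 * SS c R x) * UU c R x ^ n =
      ((n : ℝ) + 1) * UU c R x ^ (n + 1) -
        ((n : ℝ) + 1) * (8 * ((n : ℝ) + 1) ^ 2 * (UU c R x ^ n * SS c R x)) := by ring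
    rw [e] at hb
    linarith
  have h2 := EE_mono hY
  rw [EE_add, EE_mul_left ((n : ℝ) + 1), EE_mul_left (n : ℝ),
    EE_mul_left ((8 * ((n : ℝ) + 1) ^ 2) ^ (n + 1))] at h2
  push_cast
  have hn : (0 : ℝ) ≤ (n : ℝ) + 1 := by positivity
  have h3 := mul_nonneg hn (neg_nonneg.2 h)
  linarith

end Pool.Agent.H636R2.LD
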