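import Pool.Agent.H636R2.LD.Stmts

set_option autoImplicit false

namespace Pool.Agent.H636R2.LD

open Finset

namespace PairAux

variable {d : ℕ} {Ω : Type} [Fintype Ω] (g : (Fin d → Ω) → ℂ) (τ : Finset (Fin d) → ℝ)

theorem wild_cases (T : Finset (Fin d)) (x : Fin d → Ω) :
    (wild g τ T x = 1 ∧ τ T < fib g T x) ∨ (wild g τ T x = 0 ∧ fib g T x ≤ τ T) := by
  unfold wild
  by_cases h : τ T < fib g T x
  · left; exact ⟨if_pos h, h⟩
  · right; exact ⟨if_neg h, not_lt.1 h⟩

theorem wild_nonneg (T : Finset (Fin d)) (x : Fin d → Ω) : 0 ≤ wild g τ T x := by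
  rcases wild_cases g τ T x with h | h <;> rw [h.1] <;> norm_num

theorem wild_le_one (T : Finset (Fin d)) (x : Fin d → Ω) : wild g τ T x ≤ 1 := by
  rcases wild_cases g τ T x with h | h <;> rw [h.1] <;> norm_num

theorem fib_nonneg (T : Finset (Fin d)) (x : Fin d → Ω) : 0 ≤ fib g T x :=
  EE_nonneg fun _ => norm_nonneg _

theorem K0_nonneg (x : Fin d → Ω) : 0 ≤ K0 g τ x :=
  prod_nonneg fun T _ => sub_nonneg.2 (wild_le_one g τ T x)

theorem K0_le_one (x : Fin d → Ω) : K0 g τ x ≤ 1 :=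
  prod_le_one (fun T _ => sub_nonneg.2 (wild_le_one g τ T x))
    (fun T _ => sub_le_self _ (wild_nonneg g τ T x))

theorem K0_le (T : Finset (Fin d)) (hT : T ≠ univ) (x : Fin d → Ω) : K0 g τ x ≤ 1 - wild g τ T x := by
  unfold K0
  have hm : T ∈ (univ : Finset (Finset (Fin d))).erase univ := mem_erase.2 ⟨hT, mem_univ _⟩
  rw [← mul_prod_erase _ _ hm]
  have h1 : 0 ≤ 1 - wild g τ T x := sub_nonneg.2 (wild_le_one g τ T x)
  refine (mul_le_mul_of_nonneg_left (prod_le_one (fun T' _ => sub_nonneg.2 (wild_le_one g τ T' x))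
    (fun T' _ => sub_le_self _ (wild_nonneg g τ T' x))) h1).trans ?_
  rw [mul_one]

theorem KK_le (W : Finset (Fin d)) (x y : Fin d → Ω) : KK g τ x y ≤ K0 g τ (mix W y x) := by
  unfold KK
  rw [← mul_prod_erase _ _ (mem_univ W)]
  refine (mul_le_mul_of_nonneg_left (prod_le_one (fun V _ => K0_nonneg g τ _)
    (fun V _ => K0_le_one g τ _)) (K0_nonneg g τ _)).trans ?_
  rw [mul_one]

theorem KK_nonneg (x y : Fin d → Ω) : 0 ≤ KK g τ x y := prod_nonneg fun _ _ => K0_nonneg g τ _

/-- coordinates where two sets agree -/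
def agr (W V : Finset (Fin d)) : Finset (Fin d) := univ.filter fun s => (s ∈ W ↔ s ∈ V)

omit [Fintype Ω] in
theorem mix_agr (W V : Finset (Fin d)) (x y : Fin d → Ω) :
    mix V y x = mix (agr W V) (mix W y x) (mix W x y) := by
  funext s
  unfold agr mix
  by_cases h1 : s ∈ W <;> by_cases h2 : s ∈ V <;> simp [h1, h2]

theorem EE_pair (W V : Finset (Fin d)) (F : (Fin d → Ω) → (Fin d → Ω) → ℝ) :
    EE (fun x => EE fun y => F (mix W y x) (mix V y x)) =
      EE fun z => EE fun z' => F z (mix (agr W V) z z') := by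
  rw [EE_comm]
  rw [← EE_swp W (fun z z' => F z (mix (agr W V) z z'))]
  congr 1
  funext y
  congr 1
  funext x
  rw [← mix_agr]

theorem agr_ne (W V : Finset (Fin d)) (h : W ≠ V) : agr W V ≠ univ := by
  intro h1
  apply h
  ext s
  have : s ∈ agr W V := by rw [h1]; exact mem_univ s
  exact (mem_filter.1 this).2

end PairAux

open PairAux in
theorem PAIR : S_PAIR := by
  intro d Ω _ _ g τ ρ hτ W W' hW
  have hT := agr_ne W W' hW
  have h1 : EE (fun x => EE fun y => KK g τ x y * (‖g (mix W y x)‖ * ‖g (mix W' y x)‖)) ≤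
      EE (fun x => EE fun y => (1 - wild g τ (agr W W') (mix W y x)) * (‖g (mix W y x)‖ * ‖g (mix W' y x)‖)) := by
    apply EE_mono
    intro x
    apply EE_mono
    intro y
    apply mul_le_mul_of_nonneg_right _ (by positivity)
    exact (KK_le g τ W x y).trans (K0_le g τ _ hT _)
  refine h1.trans ?_
  rw [EE_pair W W' (fun z u => (1 - wild g τ (agr W W') z) * (‖g z‖ * ‖g u‖))]
  rw [← EE_mul_left]
  apply EE_mono
  intro z
  have h2 : EE (fun z' => (1 - wild g τ (agr W W') z) * (‖g z‖ * ‖g (mix (agr W W') z z')‖)) =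
      ‖g z‖ * ((1 - wild g τ (agr W W') z) * fib g (agr W W') z) := by
    unfold fib
    rw [← EE_mul_left, ← EE_mul_left]
    congr 1
    funext z'
    ring
  rw [h2, mul_comm ρ]
  apply mul_le_mul_of_nonneg_left _ (norm_nonneg _)
  rcases wild_cases g τ (agr W W') z with h | h
  · rw [h.1]
    simp only [sub_self, zero_mul]
    exact hτ.rho
  · rw [h.1, sub_zero, one_mul]
    exact h.2.trans (hτ.le _ hT)

end Pool.Agent.H636R2.LD
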