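import Pool.Agent.H636R2.LD.Stmts

set_option autoImplicit false

/-!
# PAR: choice of the parameters
-/

namespace Pool.Agent.H636R2.LD

open Finset

theorem par_K (d : ℕ) : ∃ K : ℝ, 0 < K ∧ ∀ m : ℕ, (m : ℝ) ^ d ≤ K * 2 ^ m := by
  have h := tendsto_pow_const_div_const_pow_of_one_lt d (r := 2) (by norm_num)
  obtain ⟨K, hK⟩ := h.bddAbove_range
  refine ⟨max K 1, by positivity, fun m => ?_⟩
  have h1 : (m : ℝ) ^ d / 2 ^ m ≤ K := hK ⟨m, rfl⟩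
  have h2 : (0 : ℝ) < 2 ^ m := by positivity
  rw [div_le_iff₀ h2] at h1
  exact h1.trans (mul_le_mul_of_nonneg_right (le_max_left _ _) h2.le)

theorem par_Cb_pos (d : ℕ) : 0 < Cb d := by
  unfold Cb; positivity

theorem par_rho (d n : ℕ) (hn : 1 ≤ n) :
    0 < ((n : ℝ) ^ (d + 1))⁻¹ ∧ ((n : ℝ) ^ (d + 1))⁻¹ ≤ 1 / n ∧ ((n : ℝ) ^ (d + 1))⁻¹ ≤ 1 ∧
      ((n : ℝ) ^ (d + 1))⁻¹ * (n : ℝ) ^ d = 1 / n := by
  have hn1 : (1 : ℝ) ≤ n := by exact_mod_cast hn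
  have hn0 : (0 : ℝ) < n := by linarith
  have h4 : ((n : ℝ) ^ (d + 1))⁻¹ * (n : ℝ) ^ d = 1 / n := by
    rw [pow_succ]
    field_simp
  have h3 : ((n : ℝ) ^ (d + 1))⁻¹ ≤ 1 := inv_le_one_of_one_le₀ (one_le_pow₀ hn1)
  refine ⟨by positivity, ?_, h3, h4⟩
  rw [← h4]
  exact le_mul_of_one_le_right (by positivity) (one_le_pow₀ hn1)

theorem par_A1 (d n : ℕ) (C κ X η ρ θ : ℝ) (hC : 0 < C) (hn : 1 ≤ n)
    (hκ1 : 1 / (16 * C) ≤ κ) (hκ2 : κ ≤ 1 / (8 * C)) (hX : X ≤ (n : ℝ) ^ d)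
    (hρ : ρ = ((n : ℝ) ^ (d + 1))⁻¹) (hθ : θ = ρ ^ (2 ^ d)) (hη : η ≤ θ * X)
    (hN1 : (8 : ℝ) ≤ n) (hN2 : 1 / (8 * C) ≤ n)
    (hN3 : 2 * 4 ^ d * Cb d * (1 / (8 * C) + 1 + 128 * C) ≤ n) :
    θ * κ ≤ 1 ∧ 8 * η ≤ ρ ^ (2 ^ d - 1) ∧
      Cb d * ((θ * κ) ^ 2 + (θ * κ) * ρ + ρ * (8 * η)) ≤ θ * κ / 4 ^ d / 2 := by
  have hn0 : (0 : ℝ) < n := by linarith
  obtain ⟨r0, r1, r2, r3⟩ := par_rho d n hn
  rw [← hρ] at r0 r1 r2 r3
  have hκ0 : 0 < κ := lt_of_lt_of_le (by positivity) hκ1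
  have hpow : ρ ^ (2 ^ d) = ρ ^ (2 ^ d - 1) * ρ := by
    rw [← pow_succ, Nat.sub_add_cancel Nat.one_le_two_pow]
  have hθ0 : 0 < θ := by rw [hθ]; positivity
  have hpm : 0 < ρ ^ (2 ^ d - 1) := by positivity
  have hpm1 : ρ ^ (2 ^ d - 1) ≤ 1 := pow_le_one₀ r0.le r2
  have hθρ : θ ≤ ρ := by
    rw [hθ, hpow]
    exact mul_le_of_le_one_left r0.le hpm1
  have hq0 : 0 < θ * κ := by positivity
  have hn' : 0 < 1 / (n : ℝ) := by positivity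
  refine ⟨?_, ?_, ?_⟩
  · calc θ * κ ≤ (1 / n) * (1 / (8 * C)) := by
          apply mul_le_mul (hθρ.trans r1) hκ2 hκ0.le hn'.le
      _ ≤ (1 / n) * n := by apply mul_le_mul_of_nonneg_left hN2 hn'.le
      _ = 1 := by field_simp
  · calc 8 * η ≤ 8 * (θ * (n : ℝ) ^ d) := by
          have := mul_le_mul_of_nonneg_left hX hθ0.le
          linarith
      _ = ρ ^ (2 ^ d - 1) * (8 * (ρ * (n : ℝ) ^ d)) := by rw [hθ, hpow]; ring
      _ = ρ ^ (2 ^ d - 1) * (8 * (1 / n)) := by rw [r3]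
      _ ≤ ρ ^ (2 ^ d - 1) * 1 := by
          apply mul_le_mul_of_nonneg_left _ hpm.le
          rw [mul_one_div, div_le_one hn0]
          exact hN1
      _ = ρ ^ (2 ^ d - 1) := mul_one _
  · have e1 : ρ * (8 * η) ≤ θ * κ * (1 / n) * (128 * C) := by
      have h1 : ρ * (8 * η) ≤ 8 * θ * (ρ * (n : ℝ) ^ d) := by
        have h2 : η ≤ θ * (n : ℝ) ^ d := hη.trans (mul_le_mul_of_nonneg_left hX hθ0.le)
        have h3 := mul_le_mul_of_nonneg_left h2 r0.le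
        nlinarith [h3]
      rw [r3] at h1
      have h4 : 1 ≤ 16 * C * κ := by
        rw [div_le_iff₀ (by positivity)] at hκ1
        linarith
      calc ρ * (8 * η) ≤ 8 * θ * (1 / n) := h1
        _ ≤ 8 * θ * (1 / n) * (16 * C * κ) := le_mul_of_one_le_right (by positivity) h4
        _ = θ * κ * (1 / n) * (128 * C) := by ring
    have e2 : (θ * κ) ^ 2 ≤ θ * κ * (1 / n) * (1 / (8 * C)) := by
      rw [pow_two, mul_assoc (θ * κ)]
      apply mul_le_mul_of_nonneg_left _ hq0.le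
      exact mul_le_mul (hθρ.trans r1) hκ2 hκ0.le hn'.le
    have e3 : (θ * κ) * ρ ≤ θ * κ * (1 / n) * 1 := by
      rw [mul_one]
      exact mul_le_mul_of_nonneg_left r1 hq0.le
    have hCb := par_Cb_pos d
    have e4 : (θ * κ) ^ 2 + (θ * κ) * ρ + ρ * (8 * η) ≤
        θ * κ * (1 / n) * (1 / (8 * C) + 1 + 128 * C) := by linarith
    calc Cb d * ((θ * κ) ^ 2 + (θ * κ) * ρ + ρ * (8 * η))
        ≤ Cb d * (θ * κ * (1 / n) * (1 / (8 * C) + 1 + 128 * C)) :=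
          mul_le_mul_of_nonneg_left e4 hCb.le
      _ = (θ * κ / 4 ^ d / 2) * ((2 * 4 ^ d * Cb d * (1 / (8 * C) + 1 + 128 * C)) / n) := by
          field_simp
      _ ≤ (θ * κ / 4 ^ d / 2) * 1 := by
          apply mul_le_mul_of_nonneg_left _ (by positivity)
          rw [div_le_one hn0]
          exact hN3
      _ = θ * κ / 4 ^ d / 2 := mul_one _

theorem par_A2 (d n k B m : ℕ) (C κ K X η ρ θ ℓ A : ℝ) (hC : 0 < C) (hn : 1 ≤ n) (hK : 0 < K)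
    (hKm : ∀ m : ℕ, (m : ℝ) ^ d ≤ K * 2 ^ m)
    (hκ1 : 1 / (16 * C) ≤ κ) (hA : 0 < A)
    (hρ : ρ = ((n : ℝ) ^ (d + 1))⁻¹) (hθ : θ = ρ ^ (2 ^ d)) (hη : η ≤ θ * X) (hℓ : 1 ≤ ℓ)
    (hB : B = (d + 1) * 2 ^ d + 1) (hm : m = B * k) (hk : n ≤ 2 ^ k)
    (hN4 : 4 * Real.sqrt A * K * (16 / 3) * 4 ^ d * (16 * C) ≤ n)
    (H : 3 / 8 * (θ * κ / 4 ^ d) * ℓ ≤
      2 * Real.sqrt (A * (m : ℝ) ^ (2 * d) * ℓ) * (η + 2 * (1 / 4) ^ m)) :
    3 / 32 * (1 / (16 * C)) / (4 ^ d * Real.sqrt A) * Real.sqrt ℓ ≤ (m : ℝ) ^ d * X := by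
  have hn1 : (1 : ℝ) ≤ n := by exact_mod_cast hn
  have hn0 : (0 : ℝ) < n := by linarith
  obtain ⟨r0, r1, r2, r3⟩ := par_rho d n hn
  rw [← hρ] at r0 r1 r2 r3
  have hκ0 : 0 < κ := lt_of_lt_of_le (by positivity) hκ1
  have hθ0 : 0 < θ := by rw [hθ]; positivity
  have hA0 : 0 < Real.sqrt A := Real.sqrt_pos.2 hA
  have hs1 : 1 ≤ Real.sqrt ℓ := Real.one_le_sqrt.2 hℓ
  have hs0 : 0 < Real.sqrt ℓ := by linarith
  have hss : Real.sqrt ℓ * Real.sqrt ℓ = ℓ := Real.mul_self_sqrt (by linarith)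
  have hm0 : (0 : ℝ) ≤ (m : ℝ) ^ d := by positivity
  have hsq : Real.sqrt (A * (m : ℝ) ^ (2 * d) * ℓ) = Real.sqrt A * (m : ℝ) ^ d * Real.sqrt ℓ := by
    rw [Real.sqrt_mul (by positivity), Real.sqrt_mul hA.le]
    congr 2
    rw [mul_comm 2 d, pow_mul, Real.sqrt_sq (by positivity)]
  rw [hsq] at H
  -- cancel one square root
  have H1 : 3 / 8 * (θ * κ / 4 ^ d) * Real.sqrt ℓ ≤
      2 * (Real.sqrt A * (m : ℝ) ^ d) * (η + 2 * (1 / 4) ^ m) := by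
    have h1 : (3 / 8 * (θ * κ / 4 ^ d) * Real.sqrt ℓ) * Real.sqrt ℓ ≤
        (2 * (Real.sqrt A * (m : ℝ) ^ d) * (η + 2 * (1 / 4) ^ m)) * Real.sqrt ℓ := by
      calc (3 / 8 * (θ * κ / 4 ^ d) * Real.sqrt ℓ) * Real.sqrt ℓ
          = 3 / 8 * (θ * κ / 4 ^ d) * ℓ := by rw [mul_assoc, hss]
        _ ≤ _ := H
        _ = _ := by ring
    exact le_of_mul_le_mul_right h1 hs0
  -- the small term
  have hθn : θ * (1 / n) * (n : ℝ) ^ B = 1 := by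
    have e1 : (n : ℝ) ^ ((d + 1) * 2 ^ d + 1) = (n : ℝ) ^ ((d + 1) * 2 ^ d) * n := pow_succ _ _
    have e2 : (0 : ℝ) < (n : ℝ) ^ ((d + 1) * 2 ^ d) := by positivity
    rw [hθ, hρ, hB, inv_pow, ← pow_mul, e1]
    field_simp
  have hnB : (n : ℝ) ^ B ≤ 2 ^ m := by
    have h1 : (n : ℝ) ≤ 2 ^ k := by exact_mod_cast hk
    calc (n : ℝ) ^ B ≤ (2 ^ k) ^ B := pow_le_pow_left₀ hn0.le h1 B
      _ = 2 ^ m := by rw [← pow_mul, hm, mul_comm]
  have h2m : (0 : ℝ) < 2 ^ m := by positivity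
  have hsm : (m : ℝ) ^ d * (1 / 4) ^ m ≤ K * (θ * (1 / n)) := by
    have h1 : ((1 : ℝ) / 4) ^ m = (2 ^ m)⁻¹ * (2 ^ m)⁻¹ := by
      rw [← mul_inv, ← mul_pow, one_div, inv_pow]
      norm_num
    have h3 : ((2 : ℝ) ^ m)⁻¹ ≤ θ * (1 / n) := by
      rw [inv_le_iff_one_le_mul₀ h2m]
      calc (1 : ℝ) = θ * (1 / n) * (n : ℝ) ^ B := hθn.symm
        _ ≤ θ * (1 / n) * 2 ^ m := mul_le_mul_of_nonneg_left hnB (by positivity)
    calc (m : ℝ) ^ d * (1 / 4) ^ m = ((m : ℝ) ^ d * (2 ^ m)⁻¹) * (2 ^ m)⁻¹ := by rw [h1]; ring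
      _ ≤ K * (2 ^ m)⁻¹ := by
          apply mul_le_mul_of_nonneg_right _ (by positivity)
          rw [← div_eq_mul_inv, div_le_iff₀ h2m]
          exact hKm m
      _ ≤ K * (θ * (1 / n)) := mul_le_mul_of_nonneg_left h3 hK.le
  have hsm2 : 2 * (Real.sqrt A * (m : ℝ) ^ d) * (2 * (1 / 4) ^ m) ≤
      3 / 16 * (θ * κ / 4 ^ d) * Real.sqrt ℓ := by
    have h4 : 1 ≤ 16 * C * κ := by
      rw [div_le_iff₀ (by positivity)] at hκ1
      linarith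
    calc 2 * (Real.sqrt A * (m : ℝ) ^ d) * (2 * (1 / 4) ^ m)
        = 4 * Real.sqrt A * ((m : ℝ) ^ d * (1 / 4) ^ m) := by ring
      _ ≤ 4 * Real.sqrt A * (K * (θ * (1 / n))) := mul_le_mul_of_nonneg_left hsm (by positivity)
      _ ≤ 4 * Real.sqrt A * (K * (θ * (1 / n))) * (16 * C * κ) :=
          le_mul_of_one_le_right (by positivity) h4
      _ = 3 / 16 * (θ * κ / 4 ^ d) * ((4 * Real.sqrt A * K * (16 / 3) * 4 ^ d * (16 * C)) / n) := by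
          field_simp
      _ ≤ 3 / 16 * (θ * κ / 4 ^ d) * 1 := by
          apply mul_le_mul_of_nonneg_left _ (by positivity)
          rw [div_le_one hn0]
          exact hN4
      _ ≤ 3 / 16 * (θ * κ / 4 ^ d) * Real.sqrt ℓ := by
          apply mul_le_mul_of_nonneg_left hs1 (by positivity)
  have H2 : 3 / 16 * (θ * κ / 4 ^ d) * Real.sqrt ℓ ≤ 2 * (Real.sqrt A * (m : ℝ) ^ d) * (θ * X) := by
    have h5 : 2 * (Real.sqrt A * (m : ℝ) ^ d) * η ≤ 2 * (Real.sqrt A * (m : ℝ) ^ d) * (θ * X) :=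
      mul_le_mul_of_nonneg_left hη (by positivity)
    nlinarith [H1, hsm2, h5]
  have H3 : 3 / 16 * (κ / 4 ^ d) * Real.sqrt ℓ ≤ 2 * (Real.sqrt A * (m : ℝ) ^ d) * X := by
    have h6 : (3 / 16 * (κ / 4 ^ d) * Real.sqrt ℓ) * θ ≤ (2 * (Real.sqrt A * (m : ℝ) ^ d) * X) * θ := by
      calc (3 / 16 * (κ / 4 ^ d) * Real.sqrt ℓ) * θ = 3 / 16 * (θ * κ / 4 ^ d) * Real.sqrt ℓ := by ring
        _ ≤ _ := H2
        _ = _ := by ring
    exact le_of_mul_le_mul_right h6 hθ0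
  have H4 : 3 / 16 * ((1 / (16 * C)) / 4 ^ d) * Real.sqrt ℓ ≤ 3 / 16 * (κ / 4 ^ d) * Real.sqrt ℓ := by
    gcongr
  have H5 := H4.trans H3
  have e5 : 3 / 32 * (1 / (16 * C)) / (4 ^ d * Real.sqrt A) * Real.sqrt ℓ =
      (3 / 16 * ((1 / (16 * C)) / 4 ^ d) * Real.sqrt ℓ) / (2 * Real.sqrt A) := by
    field_simp
    norm_num
  rw [e5, div_le_iff₀ (by positivity)]
  linarith [H5]

theorem par_A3 (d n k B m : ℕ) (C X L ℓ A : ℝ) (hd : 2 ≤ d) (hC : 0 < C) (hA : 0 < A) (hL1 : 1 ≤ L)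
    (hlog : 1 ≤ Real.log L) (hLn : L ≤ n) (hnL : (n : ℝ) ≤ 2 * L) (hnd : d ≤ n) (hn2 : 2 ≤ n)
    (hℓ1 : 1 ≤ ℓ) (hℓ : ((n / d : ℕ) : ℝ) ^ (d - 1) ≤ ℓ) (hB : 1 ≤ B) (hm : m = B * k)
    (hk : k = Nat.clog 2 n) (hX : 0 ≤ X)
    (H : 3 / 32 * (1 / (16 * C)) / (4 ^ d * Real.sqrt A) * Real.sqrt ℓ ≤ (m : ℝ) ^ d * X) :
    3 / 32 * (1 / (16 * C)) / (4 ^ d * Real.sqrt A) * (1 / (2 * (d : ℝ))) ^ (((d : ℝ) - 1) / 2) /
      (4 * (B : ℝ)) ^ d * L ^ (((d : ℝ) - 1) / 2) / (Real.log L) ^ d ≤ X := by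
  have hd0 : (0 : ℝ) < d := by exact_mod_cast (by omega : 0 < d)
  have hL0 : 0 < L := by linarith
  have hA0 : 0 < Real.sqrt A := Real.sqrt_pos.2 hA
  -- the number of levels
  have h1 : L / (2 * d) ≤ ((n / d : ℕ) : ℝ) := by
    have h2 : n < (n / d + 1) * d := by
      have := Nat.lt_div_mul_add (a := n) (b := d) (by omega)
      nlinarith [this]
    have h3 : 1 ≤ n / d := (Nat.one_le_div_iff (by omega)).2 hnd
    have h4 : n ≤ 2 * (n / d) * d := by nlinarith [h2, h3]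
    have h5 : (n : ℝ) ≤ 2 * ((n / d : ℕ) : ℝ) * d := by exact_mod_cast h4
    rw [div_le_iff₀ (by positivity)]
    linarith
  have h6 : (L / (2 * d)) ^ (d - 1) ≤ ℓ := (pow_le_pow_left₀ (by positivity) h1 _).trans hℓ
  have h7 : (L / (2 * d)) ^ (((d : ℝ) - 1) / 2) ≤ Real.sqrt ℓ := by
    rw [Real.le_sqrt (by positivity) (by linarith), ← Real.rpow_natCast _ 2, ← Real.rpow_mul (by positivity)]
    have h8 : ((d : ℝ) - 1) / 2 * ((2 : ℕ) : ℝ) = ((d - 1 : ℕ) : ℝ) := by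
      rw [Nat.cast_sub (by omega)]
      push_cast
      ring
    rw [h8, Real.rpow_natCast]
    exact h6
  have h9 : (L / (2 * d)) ^ (((d : ℝ) - 1) / 2) =
      (1 / (2 * (d : ℝ))) ^ (((d : ℝ) - 1) / 2) * L ^ (((d : ℝ) - 1) / 2) := by
    rw [← Real.mul_rpow (by positivity) hL0.le]
    congr 1
    ring
  -- the moment
  have h10 : (k : ℝ) ≤ 4 * Real.log L := by
    have hk1 : 1 ≤ k := by
      rw [hk]; exact Nat.clog_pos (by norm_num) hn2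
    have h11 : 2 ^ (k - 1) < n := by
      rw [hk]; exact Nat.pow_pred_clog_lt_self (by norm_num) hn2
    have h12 : ((2 : ℝ)) ^ (k - 1) ≤ 2 * L := by
      have : ((2 : ℝ)) ^ (k - 1) ≤ n := by exact_mod_cast h11.le
      linarith
    have h13 := Real.log_le_log (by positivity) h12
    rw [Real.log_pow, Real.log_mul (by norm_num) hL0.ne', Nat.cast_sub hk1] at h13
    have hlog2 := Real.log_two_gt_d9
    have hlog2' := Real.log_two_lt_d9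
    push_cast at h13
    nlinarith [h13, hlog2, hlog2', hlog]
  have h14 : (m : ℝ) ^ d ≤ (4 * (B : ℝ)) ^ d * (Real.log L) ^ d := by
    rw [← mul_pow]
    apply pow_le_pow_left₀ (by positivity)
    rw [hm]
    push_cast
    have hB0 : (0 : ℝ) ≤ B := by positivity
    nlinarith [mul_le_mul_of_nonneg_left h10 hB0]
  have hB0 : (0 : ℝ) < B := by exact_mod_cast (by omega : 0 < B)
  have hll : 0 < Real.log L := by linarith
  rw [div_mul_eq_mul_div, div_div, div_le_iff₀ (by positivity)]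
  calc 3 / 32 * (1 / (16 * C)) / (4 ^ d * Real.sqrt A) * (1 / (2 * (d : ℝ))) ^ (((d : ℝ) - 1) / 2) *
      L ^ (((d : ℝ) - 1) / 2)
      = 3 / 32 * (1 / (16 * C)) / (4 ^ d * Real.sqrt A) * (L / (2 * d)) ^ (((d : ℝ) - 1) / 2) := by
        rw [h9]; ring
    _ ≤ 3 / 32 * (1 / (16 * C)) / (4 ^ d * Real.sqrt A) * Real.sqrt ℓ := by
        apply mul_le_mul_of_nonneg_left h7 (by positivity)
    _ ≤ (m : ℝ) ^ d * X := H
    _ ≤ ((4 * (B : ℝ)) ^ d * (Real.log L) ^ d) * X := mul_le_mul_of_nonneg_right h14 hX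
    _ = X * ((4 * (B : ℝ)) ^ d * (Real.log L) ^ d) := mul_comm _ _

/-- the number of digits -/
theorem par_n (C : ℝ) (hC : 0 < C) (N : ℝ) : ∃ M₀ : ℝ, 16 ≤ M₀ ∧ ∀ M : ℝ, M₀ ≤ M → ∃ n : ℕ,
    8 * C * M ≤ 2 ^ n ∧ (2 : ℝ) ^ n ≤ 16 * C * M ∧ Real.log M ≤ n ∧ (n : ℝ) ≤ 2 * Real.log M ∧
      N ≤ n := by
  obtain ⟨b, hb⟩ : ∃ b, b = |Real.log (8 * C)| := ⟨_, rfl⟩
  have hb0 : 0 ≤ b := by rw [hb]; exact abs_nonneg _
  have hb1 : -b ≤ Real.log (8 * C) := by rw [hb]; exact neg_abs_le _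
  have hb2 : Real.log (8 * C) ≤ b := by rw [hb]; exact le_abs_self _
  refine ⟨max 16 (Real.exp (max N (10 * b + 10))), le_max_left _ _, fun M hM => ?_⟩
  have hM16 : 16 ≤ M := (le_max_left _ _).trans hM
  have hM0 : 0 < M := by linarith
  have hL : max N (10 * b + 10) ≤ Real.log M := by
    rw [Real.le_log_iff_exp_le hM0]
    exact (le_max_right _ _).trans hM
  have hL1 : N ≤ Real.log M := (le_max_left _ _).trans hL
  have hL2 : 10 * b + 10 ≤ Real.log M := (le_max_right _ _).trans hL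
  have hlog2 := Real.log_two_gt_d9
  have hlog2' := Real.log_two_lt_d9
  have hl0 : 0 < Real.log 2 := by linarith
  have h8 : 0 < 8 * C * M := by positivity
  have hlog : Real.log (8 * C * M) = Real.log (8 * C) + Real.log M :=
    Real.log_mul (by positivity) hM0.ne'
  obtain ⟨y, hy⟩ : ∃ y, y = Real.log (8 * C * M) / Real.log 2 := ⟨_, rfl⟩
  have hyl : y * Real.log 2 = Real.log (8 * C) + Real.log M := by
    rw [hy, ← hlog]; field_simp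
  have hy0 : 0 ≤ y := by
    by_contra hc
    push Not at hc
    nlinarith [hyl, hc, hl0]
  have hyL : Real.log M ≤ y := by
    by_contra hc
    push Not at hc
    nlinarith [hyl, hc, hl0]
  have hyU : y + 1 ≤ 2 * Real.log M := by
    by_contra hc
    push Not at hc
    nlinarith [hyl, hc, hl0]
  have h2y : (2 : ℝ) ^ y = 8 * C * M := by
    rw [Real.rpow_def_of_pos (by norm_num), mul_comm, hyl, ← hlog, Real.exp_log h8]
  refine ⟨⌈y⌉₊, ?_, ?_, ?_, ?_, ?_⟩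
  · rw [← h2y, ← Real.rpow_natCast]
    exact Real.rpow_le_rpow_of_exponent_le (by norm_num) (Nat.le_ceil y)
  · have h3 : ((⌈y⌉₊ : ℕ) : ℝ) ≤ y + 1 := (Nat.ceil_lt_add_one hy0).le
    rw [← Real.rpow_natCast]
    calc (2 : ℝ) ^ ((⌈y⌉₊ : ℕ) : ℝ) ≤ 2 ^ (y + 1) :=
          Real.rpow_le_rpow_of_exponent_le (by norm_num) h3
      _ = 2 ^ y * 2 := by rw [Real.rpow_add (by norm_num), Real.rpow_one]
      _ = 16 * C * M := by rw [h2y]; ring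
  · exact hyL.trans (Nat.le_ceil y)
  · exact (Nat.ceil_lt_add_one hy0).le.trans hyU
  · exact hL1.trans (hyL.trans (Nat.le_ceil y))

theorem PAR (h1 : S_GRID) (h2 : S_LEV) : S_PAR := by
  intro d hd C hC
  obtain ⟨K, hK0, hKm⟩ := par_K d
  obtain ⟨A, hA⟩ : ∃ A : ℝ, A = 32 ^ (d ^ 2) := ⟨_, rfl⟩
  have hA0 : 0 < A := by rw [hA]; positivity
  have hsA : 0 < Real.sqrt A := Real.sqrt_pos.2 hA0
  have hd0 : (0 : ℝ) < d := by exact_mod_cast (by omega : 0 < d)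
  obtain ⟨B, hB⟩ : ∃ B : ℕ, B = (d + 1) * 2 ^ d + 1 := ⟨_, rfl⟩
  have hB1 : 1 ≤ B := by omega
  have hB0 : (0 : ℝ) < B := by exact_mod_cast (by omega : 0 < B)
  obtain ⟨c0, hc0⟩ : ∃ c0 : ℝ, c0 = 3 / 32 * (1 / (16 * C)) / (4 ^ d * Real.sqrt A) *
    (1 / (2 * (d : ℝ))) ^ (((d : ℝ) - 1) / 2) / (4 * (B : ℝ)) ^ d := ⟨_, rfl⟩
  have hc0p : 0 < c0 := by rw [hc0]; positivity
  obtain ⟨M₀, hM₀, hMn⟩ := par_n C hC (8 + 1 / (8 * C) +
    2 * 4 ^ d * Cb d * (1 / (8 * C) + 1 + 128 * C) +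
    4 * Real.sqrt A * K * (16 / 3) * 4 ^ d * (16 * C) + d)
  refine ⟨min 1 c0, lt_min one_pos hc0p, M₀, hM₀, fun M hM => ?_⟩
  obtain ⟨n, n1, n2, n3, n4, n5⟩ := hMn M hM
  refine ⟨n + 1, fun ι S w p u hS => ?_⟩
  have hM16 : 16 ≤ M := hM₀.trans hM
  have hM0 : 0 < M := by linarith
  have hCb := par_Cb_pos d
  have p1 : 0 < 1 / (8 * C) := by positivity
  have p2 : 0 < 2 * 4 ^ d * Cb d * (1 / (8 * C) + 1 + 128 * C) := by positivity
  have p3 : 0 < 4 * Real.sqrt A * K * (16 / 3) * 4 ^ d * (16 * C) := by positivity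
  have N1 : (8 : ℝ) ≤ n := by linarith
  have N2 : 1 / (8 * C) ≤ n := by linarith
  have N3 : 2 * 4 ^ d * Cb d * (1 / (8 * C) + 1 + 128 * C) ≤ n := by linarith
  have N4 : 4 * Real.sqrt A * K * (16 / 3) * 4 ^ d * (16 * C) ≤ n := by linarith
  have N5 : d ≤ n := by
    have : (d : ℝ) ≤ n := by linarith
    exact_mod_cast this
  have N6 : 8 ≤ n := by exact_mod_cast N1
  have hn0 : (0 : ℝ) < n := by linarith
  -- logarithms
  have hL : Real.exp 1 ≤ Real.log M := by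
    have e1 : Real.log 16 ≤ Real.log M := Real.log_le_log (by norm_num) hM16
    have e2 : Real.log 16 = 4 * Real.log 2 := by
      rw [show (16 : ℝ) = 2 ^ 4 by norm_num, Real.log_pow]; norm_num
    have e3 := Real.log_two_gt_d9
    have e4 := Real.exp_one_lt_d9
    linarith
  have hL1 : 1 ≤ Real.log M := by
    have e5 := Real.exp_one_gt_d9
    linarith
  have hL0 : 0 < Real.log M := by linarith
  have hLL : 1 ≤ Real.log (Real.log M) := by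
    rw [Real.le_log_iff_exp_le hL0]; exact hL
  obtain ⟨X, hX⟩ : ∃ X : ℝ, X = EE (fun x : Pt d (n + 1) => |DD S w p M u x|) := ⟨_, rfl⟩
  rw [← hX]
  have hX0 : 0 ≤ X := by rw [hX]; exact EE_nonneg (fun x => abs_nonneg _)
  obtain ⟨e, he⟩ : ∃ e : ℝ, e = ((d : ℝ) - 1) / 2 := ⟨_, rfl⟩
  have hLe : 0 < Real.log M ^ e := Real.rpow_pos_of_pos hL0 _
  have hLLd : 1 ≤ Real.log (Real.log M) ^ d := one_le_pow₀ hLL
  rw [← he]
  by_cases hcase : X ≤ (n : ℝ) ^ d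
  · -- the main case
    obtain ⟨κ, hκ⟩ : ∃ κ : ℝ, κ = M / 2 ^ n := ⟨_, rfl⟩
    have h2n : (0 : ℝ) < 2 ^ n := by positivity
    have hκ1 : 1 / (16 * C) ≤ κ := by
      rw [hκ, div_le_div_iff₀ (by positivity) h2n]
      linarith
    have hκ2 : κ ≤ 1 / (8 * C) := by
      rw [hκ, div_le_div_iff₀ h2n (by positivity)]
      linarith
    obtain ⟨ρ, hρ⟩ : ∃ ρ : ℝ, ρ = ((n : ℝ) ^ (d + 1))⁻¹ := ⟨_, rfl⟩
    obtain ⟨θ, hθ⟩ : ∃ θ : ℝ, θ = ρ ^ (2 ^ d) := ⟨_, rfl⟩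
    obtain ⟨η, hη⟩ : ∃ η : ℝ, η = EE (fun x : Pt d (n + 1) => ‖gg S w p M u θ x‖) := ⟨_, rfl⟩
    obtain ⟨r0, r1, r2, -⟩ := par_rho d n (by omega)
    rw [← hρ] at r0 r1 r2
    have hθ0 : 0 < θ := by rw [hθ]; positivity
    have hηX : η ≤ θ * X := by
      rw [hη, hX, ← EE_mul_left]
      apply EE_mono
      intro x
      unfold gg
      refine Real.norm_exp_I_mul_ofReal_sub_one_le.trans ?_
      rw [Real.norm_eq_abs, abs_mul, abs_of_pos hθ0]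
    obtain ⟨a1, a2, a3⟩ := par_A1 d n C κ X η ρ θ hC (by omega) hκ1 hκ2 hcase hρ hθ hηX N1 N2 N3
    obtain ⟨k, hk⟩ : ∃ k, k = Nat.clog 2 n := ⟨_, rfl⟩
    have hk1 : 1 ≤ k := by rw [hk]; exact Nat.clog_pos (by norm_num) (by omega)
    have hk2 : n ≤ 2 ^ k := by rw [hk]; exact Nat.le_pow_clog (by norm_num) n
    have hq : θ * M / 2 ^ n = θ * κ := by rw [hκ]; ring
    have hlev := h2 d n (by omega)
    obtain ⟨ℓ, hℓ⟩ : ∃ ℓ : ℝ, ℓ = ((lev d (n + 1) n).card : ℝ) := ⟨_, rfl⟩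
    have hℓ1 : 1 ≤ ℓ := by
      have h5 : 1 ≤ n / d := (Nat.one_le_div_iff (by omega)).2 N5
      have h6 : (1 : ℝ) ≤ ((n / d : ℕ) : ℝ) := by exact_mod_cast h5
      rw [hℓ]
      exact (one_le_pow₀ h6).trans hlev
    have hG := h1 d (n + 1) n (B * k) ι S w p M u θ ρ (by omega)
      (Nat.mul_pos (by omega) (by omega)) r0 r2 hθ0.le hM0.le (by rw [hq]; exact a1)
      (hS.trans (by linarith)) (by rw [← hη]; exact a2) (by rw [← hη, hq]; exact a3)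
    rw [← hη, hq, ← hA, ← hℓ] at hG
    have hH := par_A2 d n k B (B * k) C κ K X η ρ θ ℓ A hC (by omega) hK0 hKm hκ1 hA0 hρ hθ hηX
      hℓ1 hB rfl hk2 N4 hG
    have hF := par_A3 d n k B (B * k) C X (Real.log M) ℓ A hd hC hA0 hL1 hLL n3 n4 N5 (by omega)
      hℓ1 (by rw [hℓ]; exact hlev) hB1 rfl hk hX0 hH
    rw [← he] at hF
    rw [← he] at hc0
    rw [← hc0] at hF
    refine le_trans ?_ hF
    apply div_le_div_of_nonneg_right _ (by positivity)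
    exact mul_le_mul_of_nonneg_right (min_le_right _ _) hLe.le
  · push Not at hcase
    have h3 : Real.log M ^ e ≤ (n : ℝ) ^ d := by
      calc Real.log M ^ e ≤ Real.log M ^ (d : ℝ) := by
            apply Real.rpow_le_rpow_of_exponent_le hL1
            rw [he]; linarith
        _ = Real.log M ^ d := Real.rpow_natCast _ _
        _ ≤ (n : ℝ) ^ d := pow_le_pow_left₀ hL0.le n3 d
    calc min 1 c0 * Real.log M ^ e / Real.log (Real.log M) ^ d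
        ≤ min 1 c0 * Real.log M ^ e := div_le_self (by positivity) hLLd
      _ ≤ 1 * Real.log M ^ e := mul_le_mul_of_nonneg_right (min_le_left _ _) hLe.le
      _ = Real.log M ^ e := one_mul _
      _ ≤ (n : ℝ) ^ d := h3
      _ ≤ X := hcase.le

end Pool.Agent.H636R2.LD
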