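import Pool.Agent.H636R2.LD.Stmts
import Pool.Agent.H636R2.LD.PAIR

set_option autoImplicit false

namespace Pool.Agent.H636R2.LD

open Finset

namespace SingAux
open PairAux

theorem one_sub_prod_le {ι : Type} (s : Finset ι) (f : ι → ℝ) (h0 : ∀ i ∈ s, 0 ≤ f i) (h1 : ∀ i ∈ s, f i ≤ 1) :
    1 - ∏ i ∈ s, f i ≤ ∑ i ∈ s, (1 - f i) := by
  classical
  induction s using Finset.induction_on with
  | empty => simp
  | insert a s ha ih =>
    rw [prod_insert ha, sum_insert ha]
    have hi := ih (fun i hi => h0 i (mem_insert_of_mem hi)) (fun i hi => h1 i (mem_insert_of_mem hi))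
    have ha0 := h0 a (mem_insert_self a s)
    have ha1 := h1 a (mem_insert_self a s)
    have hp1 : ∏ i ∈ s, f i ≤ 1 :=
      prod_le_one (fun i hi => h0 i (mem_insert_of_mem hi)) (fun i hi => h1 i (mem_insert_of_mem hi))
    nlinarith

variable {d : ℕ} {Ω : Type} [Fintype Ω] (g : (Fin d → Ω) → ℂ) (τ : Finset (Fin d) → ℝ)

theorem fib_congr (T : Finset (Fin d)) (x y : Fin d → Ω) (h : ∀ s ∈ T, x s = y s) :
    fib g T x = fib g T y := by
  unfold fib
  congr 1
  funext v
  congr 2
  funext s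
  unfold mix
  by_cases hs : s ∈ T
  · rw [if_pos hs, if_pos hs, h s hs]
  · rw [if_neg hs, if_neg hs]

theorem wild_congr (T : Finset (Fin d)) (x y : Fin d → Ω) (h : ∀ s ∈ T, x s = y s) :
    wild g τ T x = wild g τ T y := by
  unfold wild
  rw [fib_congr g T x y h]

theorem K0_mul_wild (T : Finset (Fin d)) (hT : T ≠ univ) (x : Fin d → Ω) :
    K0 g τ x * wild g τ T x = 0 := by
  rcases wild_cases g τ T x with h | h
  · have h1 := K0_le g τ T hT x
    rw [h.1, sub_self] at h1
    have h2 := le_antisymm h1 (K0_nonneg g τ x)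
    rw [h2, zero_mul]
  · rw [h.1, mul_zero]

theorem K0_sub_KK (W : Finset (Fin d)) (x y : Fin d → Ω) :
    K0 g τ (mix W y x) - KK g τ x y ≤
      ∑ V ∈ (univ : Finset (Finset (Fin d))).erase W, ∑ T ∈ (univ : Finset (Finset (Fin d))).erase univ,
        K0 g τ (mix W y x) * wild g τ T (mix V y x) := by
  unfold KK
  rw [← mul_prod_erase _ _ (mem_univ W)]
  have h1 := one_sub_prod_le ((univ : Finset (Finset (Fin d))).erase W) (fun V => K0 g τ (mix V y x))
    (fun V _ => K0_nonneg g τ _) (fun V _ => K0_le_one g τ _)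
  have h2 : ∀ V ∈ (univ : Finset (Finset (Fin d))).erase W, 1 - K0 g τ (mix V y x) ≤
      ∑ T ∈ (univ : Finset (Finset (Fin d))).erase univ, wild g τ T (mix V y x) := by
    intro V _
    have h3 := one_sub_prod_le ((univ : Finset (Finset (Fin d))).erase univ)
      (fun T => 1 - wild g τ T (mix V y x)) (fun T _ => sub_nonneg.2 (wild_le_one g τ T _))
      (fun T _ => sub_le_self _ (wild_nonneg g τ T _))
    simp only [sub_sub_cancel] at h3
    exact h3
  have h4 := h1.trans (sum_le_sum h2)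
  have h5 := mul_le_mul_of_nonneg_left h4 (K0_nonneg g τ (mix W y x))
  rw [mul_sub, mul_one, mul_sum] at h5
  simp only [mul_sum] at h5
  exact h5

theorem avg_fib [Nonempty Ω] (T Vc : Finset (Fin d)) (z : Fin d → Ω) :
    EE (fun z' => fib g T (mix Vc z z')) = fib g (T ∩ Vc) z := by
  unfold fib
  have h1 : ∀ z' v : Fin d → Ω, mix T (mix Vc z z') v = mix (T ∩ Vc) z (mix T z' v) := by
    intro z' v
    funext s
    unfold mix
    by_cases h1 : s ∈ T <;> by_cases h2 : s ∈ Vc <;> simp [h1, h2]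
  simp only [h1]
  exact EE_mix (𝕜 := ℝ) T (fun u => ‖g (mix (T ∩ Vc) z u)‖)

theorem Q_le [Nonempty Ω] (ρ : ℝ) (hτ : Thr τ ρ) (Vc T : Finset (Fin d)) (hT : T ≠ univ) :
    EE (fun z => EE fun z' => K0 g τ z * wild g τ T (mix Vc z z') * ‖g z‖) ≤ ρ * EE fun x => ‖g x‖ := by
  have hg : 0 ≤ EE fun x => ‖g x‖ := EE_nonneg fun _ => norm_nonneg _
  by_cases hTV : T ⊆ Vc
  · have h1 : ∀ z z' : Fin d → Ω, K0 g τ z * wild g τ T (mix Vc z z') * ‖g z‖ = 0 := by
      intro z z'
      rw [wild_congr g τ T (mix Vc z z') z (fun s hs => mix_mem (hTV hs)), K0_mul_wild g τ T hT, zero_mul]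
    simp only [h1]
    have h2 : EE (fun _ : Fin d → Ω => EE fun _ : Fin d → Ω => (0 : ℝ)) = 0 := by
      rw [EE_const, EE_const]
    rw [h2]
    exact mul_nonneg hτ.rho hg
  · have hss : T ∩ Vc ⊂ T := by
      refine ⟨inter_subset_left, fun h => hTV fun s hs => ?_⟩
      exact (mem_inter.1 (h hs)).2
    have hne : T.Nonempty := by
      by_contra h
      rw [not_nonempty_iff_eq_empty] at h
      apply hTV
      rw [h]
      exact empty_subset _
    have hT' : T ∩ Vc ≠ univ := by
      intro h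
      apply hT
      apply eq_univ_of_forall
      intro s
      have : s ∈ T ∩ Vc := by rw [h]; exact mem_univ s
      exact (mem_inter.1 this).1
    have hτT := hτ.pos T hne
    rw [← EE_mul_left]
    apply EE_mono
    intro z
    have h1 : EE (fun z' => K0 g τ z * wild g τ T (mix Vc z z') * ‖g z‖) ≤
        EE (fun z' => ((1 - wild g τ (T ∩ Vc) z) * ‖g z‖ / τ T) * fib g T (mix Vc z z')) := by
      apply EE_mono
      intro z'
      have h2 : wild g τ T (mix Vc z z') ≤ fib g T (mix Vc z z') / τ T := by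
        rcases wild_cases g τ T (mix Vc z z') with h | h
        · rw [h.1, le_div_iff₀ hτT, one_mul]
          exact h.2.le
        · rw [h.1]
          exact div_nonneg (fib_nonneg g T _) hτT.le
      have h3 := K0_le g τ (T ∩ Vc) hT' z
      calc K0 g τ z * wild g τ T (mix Vc z z') * ‖g z‖
          ≤ (1 - wild g τ (T ∩ Vc) z) * (fib g T (mix Vc z z') / τ T) * ‖g z‖ := by
            apply mul_le_mul_of_nonneg_right _ (norm_nonneg _)
            exact mul_le_mul h3 h2 (wild_nonneg g τ T _) (sub_nonneg.2 (wild_le_one g τ _ z))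
        _ = _ := by ring
    refine h1.trans ?_
    rw [EE_mul_left, avg_fib]
    have h4 : (1 - wild g τ (T ∩ Vc) z) * fib g (T ∩ Vc) z ≤ ρ * τ T := by
      rcases wild_cases g τ (T ∩ Vc) z with h | h
      · rw [h.1, sub_self, zero_mul]
        exact mul_nonneg hτ.rho hτT.le
      · rw [h.1, sub_zero, one_mul]
        exact h.2.trans (hτ.chain _ _ hss hT)
    calc (1 - wild g τ (T ∩ Vc) z) * ‖g z‖ / τ T * fib g (T ∩ Vc) z
        = ((1 - wild g τ (T ∩ Vc) z) * fib g (T ∩ Vc) z) * (‖g z‖ / τ T) := by ring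
      _ ≤ (ρ * τ T) * (‖g z‖ / τ T) := mul_le_mul_of_nonneg_right h4 (by positivity)
      _ = ρ * ‖g z‖ := by field_simp

end SingAux

open PairAux SingAux in
theorem SING : S_SING := by
  intro d Ω _ _ g τ ρ hτ _ W
  have hg : 0 ≤ EE fun x => ‖g x‖ := EE_nonneg fun _ => norm_nonneg _
  have h1 : EE (fun x => EE fun y => (K0 g τ (mix W y x) - KK g τ x y) * ‖g (mix W y x)‖) ≤
      EE (fun x => EE fun y => ∑ V ∈ (univ : Finset (Finset (Fin d))).erase W,
        ∑ T ∈ (univ : Finset (Finset (Fin d))).erase univ,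
        (K0 g τ (mix W y x) * wild g τ T (mix V y x) * ‖g (mix W y x)‖)) := by
    apply EE_mono
    intro x
    apply EE_mono
    intro y
    have h2 := mul_le_mul_of_nonneg_right (K0_sub_KK g τ W x y) (norm_nonneg (g (mix W y x)))
    rw [sum_mul] at h2
    simp only [sum_mul] at h2
    exact h2
  refine h1.trans ?_
  have h3 : EE (fun x => EE fun y => ∑ V ∈ (univ : Finset (Finset (Fin d))).erase W,
        ∑ T ∈ (univ : Finset (Finset (Fin d))).erase univ,
        (K0 g τ (mix W y x) * wild g τ T (mix V y x) * ‖g (mix W y x)‖)) =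
      ∑ V ∈ (univ : Finset (Finset (Fin d))).erase W, ∑ T ∈ (univ : Finset (Finset (Fin d))).erase univ,
        EE (fun x => EE fun y => K0 g τ (mix W y x) * wild g τ T (mix V y x) * ‖g (mix W y x)‖) := by
    simp only [EE_sum]
  rw [h3]
  have h4 : ∀ V ∈ (univ : Finset (Finset (Fin d))).erase W,
      ∑ T ∈ (univ : Finset (Finset (Fin d))).erase univ,
        EE (fun x => EE fun y => K0 g τ (mix W y x) * wild g τ T (mix V y x) * ‖g (mix W y x)‖) ≤
      2 ^ d * (ρ * EE fun x => ‖g x‖) := by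
    intro V _
    have h5 : ∀ T ∈ (univ : Finset (Finset (Fin d))).erase univ,
        EE (fun x => EE fun y => K0 g τ (mix W y x) * wild g τ T (mix V y x) * ‖g (mix W y x)‖) ≤
        ρ * EE fun x => ‖g x‖ := by
      intro T hT
      rw [EE_pair W V (fun z u => K0 g τ z * wild g τ T u * ‖g z‖)]
      exact Q_le g τ ρ hτ (agr W V) T (ne_of_mem_erase hT)
    refine (sum_le_sum h5).trans ?_
    rw [sum_const, nsmul_eq_mul]
    apply mul_le_mul_of_nonneg_right _ (mul_nonneg hτ.rho hg)
    have h6 := card_le_univ ((univ : Finset (Finset (Fin d))).erase univ)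
    rw [Fintype.card_finset, Fintype.card_fin] at h6
    exact_mod_cast h6
  refine (sum_le_sum h4).trans ?_
  rw [sum_const, nsmul_eq_mul]
  have h6 := card_le_univ ((univ : Finset (Finset (Fin d))).erase W)
  rw [Fintype.card_finset, Fintype.card_fin] at h6
  have h7 : ((((univ : Finset (Finset (Fin d))).erase W).card : ℕ) : ℝ) ≤ 2 ^ d := by exact_mod_cast h6
  calc _ ≤ (2 : ℝ) ^ d * (2 ^ d * (ρ * EE fun x => ‖g x‖)) :=
        mul_le_mul_of_nonneg_right h7 (mul_nonneg (by positivity) (mul_nonneg hτ.rho hg))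
    _ = 4 ^ d * ρ * EE fun x => ‖g x‖ := by
        have : (4 : ℝ) ^ d = 2 ^ d * 2 ^ d := by rw [← mul_pow]; norm_num
        rw [this]; ring

end Pool.Agent.H636R2.LD
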