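import Pool.Agent.H636R2.LD.Stmts

set_option autoImplicit false

/-! Task STEP (helper992): removing one coordinate from `U`. -/

namespace Pool.Agent.H636R2.LD

open Finset

theorem STEP_sq {α κ : Type} [Fintype κ] [DecidableEq κ] (Δ : Finset α) (k : α → κ) (a : α → ℝ) :
    ∑ K : κ, (∑ J ∈ Δ.filter (fun J => k J = K), a J) ^ 2 =
      ∑ J ∈ Δ, ∑ J' ∈ Δ, if k J = k J' then a J * a J' else 0 := by
  have h1 : ∀ K : κ, (∑ J ∈ Δ.filter (fun J => k J = K), a J) ^ 2 =
      ∑ J ∈ Δ, ∑ J' ∈ Δ, (if k J = K then a J else 0) * (if k J' = K then a J' else 0) := by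
    intro K
    rw [sum_filter, pow_two, sum_mul_sum]
  simp only [h1]
  rw [sum_comm]
  refine sum_congr rfl fun J _ => ?_
  rw [sum_comm]
  refine sum_congr rfl fun J' _ => ?_
  rw [sum_eq_single (k J)]
  · rw [if_pos rfl]
    by_cases h : k J = k J'
    · rw [if_pos h, if_pos h.symm]
    · rw [if_neg h, if_neg (fun h' => h h'.symm), mul_zero]
  · intro K _ hK
    rw [if_neg (Ne.symm hK), zero_mul]
  · intro h
    exact absurd (mem_univ _) h

theorem STEP_off {d R : ℕ} {U : Finset (Fin d)} {s : Fin d} (J J' : Fin d → Fin R) :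
    off (U.erase s) J = off (U.erase s) J' ↔ (off U J, J s) = (off U J', J' s) := by
  rw [Prod.mk.injEq]
  constructor
  · intro h
    have hh : ∀ s', off (U.erase s) J s' = off (U.erase s) J' s' := fun s' => congrFun h s'
    refine ⟨?_, ?_⟩
    · funext s'
      have := hh s'
      unfold off at this ⊢
      by_cases h1 : s' ∈ U
      · rw [if_pos h1, if_pos h1]
      · have h2 : s' ∉ U.erase s := fun h3 => h1 (mem_of_mem_erase h3)
        rw [if_neg h2, if_neg h2] at this
        rw [if_neg h1, if_neg h1, this]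
    · have := hh s
      unfold off at this
      rw [if_neg (notMem_erase s U), if_neg (notMem_erase s U)] at this
      exact Option.some.inj this
  · rintro ⟨h1, h2⟩
    funext s'
    have h3 := congrFun h1 s'
    unfold off at h3 ⊢
    by_cases h4 : s' ∈ U.erase s
    · rw [if_pos h4, if_pos h4]
    · rw [if_neg h4, if_neg h4]
      by_cases h5 : s' = s
      · rw [h5, h2]
      · have h6 : s' ∉ U := fun h7 => h4 (mem_erase.mpr ⟨h5, h7⟩)
        rwa [if_neg h6, if_neg h6] at h3

theorem STEP (h : S_ONE) : S_STEP := by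
  classical
  intro d R m Δ U s F hm hs hF
  rw [← EE_update s (fun x => NU Δ U F x ^ m), ← EE_update s (fun x => NU Δ (U.erase s) F x ^ m),
    ← EE_mul_left]
  apply EE_mono
  intro x
  set c : Fin R → (Fin d → Option (Fin R)) → (Fin R → Bool) → ℝ := fun j K v =>
    ∑ J ∈ Δ.filter (fun J => (off U J, J s) = (K, j)),
      (∏ s' ∈ U.erase s, sg (x s' (J s'))) * F J (Function.update x s v) with hc
  have h1 := h R m (Fin d → Option (Fin R)) c hm (by
    intro j K v v' hv
    rw [hc]
    refine sum_congr rfl fun J hJ => ?_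
    rw [mem_filter, Prod.mk.injEq] at hJ
    obtain ⟨hJΔ, -, hJs⟩ := hJ
    congr 1
    apply hF J hJΔ
    · intro s' hs'
      rw [Function.update_of_ne hs', Function.update_of_ne hs']
    · intro i hi
      rw [Function.update_self, Function.update_self]
      exact hv i (by rw [← hJs]; exact hi))
  have h2 : ∀ v : Fin R → Bool, NU Δ U F (Function.update x s v) =
      ∑ K, (∑ j, sg (v j) * c j K v) ^ 2 := by
    intro v
    unfold NU
    refine sum_congr rfl fun K _ => ?_
    congr 1
    rw [← sum_fiberwise (Δ.filter fun J => off U J = K) (fun J => J s)]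
    refine sum_congr rfl fun j _ => ?_
    rw [hc, mul_sum, filter_filter]
    have hfe : (Δ.filter fun J => off U J = K ∧ J s = j) =
        Δ.filter fun J => (off U J, J s) = (K, j) := by
      refine filter_congr fun J _ => ?_
      rw [Prod.mk.injEq]
    rw [hfe]
    refine sum_congr rfl fun J hJ => ?_
    rw [mem_filter, Prod.mk.injEq] at hJ
    obtain ⟨-, -, hJs⟩ := hJ
    rw [← mul_prod_erase U _ hs, Function.update_self, hJs, mul_assoc]
    congr 2
    refine prod_congr rfl fun s' hs' => ?_
    rw [Function.update_of_ne (ne_of_mem_erase hs')]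
  have h3 : ∀ v : Fin R → Bool, NU Δ (U.erase s) F (Function.update x s v) =
      ∑ K, ∑ j, (c j K v) ^ 2 := by
    intro v
    unfold NU
    rw [STEP_sq Δ (fun J => off (U.erase s) J)]
    have e1 : ∑ K, ∑ j, (c j K v) ^ 2 = ∑ Kj : (Fin d → Option (Fin R)) × Fin R,
        (∑ J ∈ Δ.filter (fun J => (off U J, J s) = Kj),
          (∏ s' ∈ U.erase s, sg (x s' (J s'))) * F J (Function.update x s v)) ^ 2 := by
      rw [Fintype.sum_prod_type]
    rw [e1, STEP_sq Δ (fun J => (off U J, J s))]
    refine sum_congr rfl fun J _ => sum_congr rfl fun J' _ => ?_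
    have e2 : ∀ J : Fin d → Fin R, (∏ s' ∈ U.erase s, sg (Function.update x s v s' (J s'))) =
        ∏ s' ∈ U.erase s, sg (x s' (J s')) := by
      intro J
      refine prod_congr rfl fun s' hs' => ?_
      rw [Function.update_of_ne (ne_of_mem_erase hs')]
    rw [e2 J, e2 J']
    by_cases h4 : off (U.erase s) J = off (U.erase s) J'
    · rw [if_pos h4, if_pos ((STEP_off J J').mp h4)]
    · rw [if_neg h4, if_neg (fun h5 => h4 ((STEP_off J J').mpr h5))]
  simp only [h2, h3]
  exact h1

end Pool.Agent.H636R2.LD
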