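import Pool.Agent.H636R2.LD.Base
import Pool.Agent.H736R2.Lone.Final

set_option autoImplicit false

/-!
# Near-sharp `L^1` lower bound for the star discrepancy in all dimensions: statements of the tasks
-/

namespace Pool.Agent.H636R2.LD

open Finset

/-! ## Part I: one block. `τ` = thresholds of the fibres. -/

/-- hierarchy of thresholds -/
structure Thr {d : ℕ} (τ : Finset (Fin d) → ℝ) (ρ : ℝ) : Prop where
  rho : 0 ≤ ρ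
  pos : ∀ T : Finset (Fin d), T.Nonempty → 0 < τ T
  nonneg : 0 ≤ τ ∅
  le : ∀ T : Finset (Fin d), T ≠ univ → τ T ≤ ρ
  chain : ∀ T T' : Finset (Fin d), T ⊂ T' → T' ≠ univ → τ T ≤ ρ * τ T'
  pair : ∀ T T' : Finset (Fin d), T ≠ univ → T' ≠ univ → ¬ T ⊆ T' → ¬ T' ⊆ T →
    τ (T ∩ T') ≤ ρ * (τ T * τ T')

/-- EXP: product expansion up to quadratic terms -/
def S_EXP : Prop := ∀ (ι : Type) [DecidableEq ι] (s : Finset ι) (z : ι → ℂ),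
  (∀ i ∈ s, ‖z i‖ ≤ 2) →
  ‖∏ i ∈ s, (1 + z i) - 1 - ∑ i ∈ s, z i‖ ≤ 3 ^ s.card * ∑ i ∈ s, ∑ j ∈ s.erase i, ‖z i‖ * ‖z j‖

/-- PAIR: two different corners -/
def S_PAIR : Prop := ∀ (d : ℕ) (Ω : Type) [Fintype Ω] [Nonempty Ω] (g : (Fin d → Ω) → ℂ)
    (τ : Finset (Fin d) → ℝ) (ρ : ℝ), Thr τ ρ →
  ∀ W W' : Finset (Fin d), W ≠ W' →
    EE (fun x => EE fun y => KK g τ x y * (‖g (mix W y x)‖ * ‖g (mix W' y x)‖)) ≤
      ρ * EE fun x => ‖g x‖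

/-- SING: one corner, the other cut-offs may be dropped -/
def S_SING : Prop := ∀ (d : ℕ) (Ω : Type) [Fintype Ω] [Nonempty Ω] (g : (Fin d → Ω) → ℂ)
    (τ : Finset (Fin d) → ℝ) (ρ : ℝ), Thr τ ρ → EE (fun x => ‖g x‖) ≤ τ ∅ →
  ∀ W : Finset (Fin d),
    EE (fun x => EE fun y => (K0 g τ (mix W y x) - KK g τ x y) * ‖g (mix W y x)‖) ≤
      4 ^ d * ρ * EE fun x => ‖g x‖

/-- K1: the weight is `1` up to a small error -/
def S_K1 : Prop := ∀ (d : ℕ) (Ω : Type) [Fintype Ω] [Nonempty Ω] (g : (Fin d → Ω) → ℂ)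
    (τ : Finset (Fin d) → ℝ) (ρ : ℝ), Thr τ ρ → EE (fun x => ‖g x‖) ≤ τ ∅ →
    EE (fun x => EE fun y => 1 - KK g τ x y) ≤ 4 ^ d * ρ

/-- ZERO: a corner different from `x` leaves a coordinate of `x` free -/
def S_ZERO : Prop := ∀ (d : ℕ) (Ω : Type) [Fintype Ω] [Nonempty Ω] (h : Fin d → Ω → ℝ),
  (∀ s, EE (h s) = 0) → ∀ (F : (Fin d → Ω) → ℂ) (W : Finset (Fin d)), W.Nonempty →
    EE (fun x => EE fun y => ((∏ s, h s (x s) : ℝ) : ℂ) * F (mix W y x)) = 0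

/-- MAIN: the main term, for any real weight `K` -/
def S_MAIN : Prop := ∀ (d : ℕ) (Ω : Type) [Fintype Ω] [Nonempty Ω]
    (K : (Fin d → Ω) → (Fin d → Ω) → ℝ), (∀ x y, 0 ≤ K x y ∧ K x y ≤ 1) →
  ∀ (h : Fin d → Ω → ℝ), (∀ s w, |h s w| ≤ 1) → (∀ s, EE (h s) = 0) →
  ∀ (t : Fin d → Ω → ℝ) (Θ q : ℝ), q ≤ 1 →
    (∀ x y : Fin d → Ω, |Θ * ∏ s, (t s (x s) - t s (y s))| ≤ q) →
    |(EE fun x => EE fun y => ((∏ s, h s (x s) : ℝ) : ℂ) * ((K x y : ℝ) : ℂ) *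
        Complex.exp (-(Complex.I * ((Θ * ∏ s, (t s (x s) - t s (y s)) : ℝ) : ℂ)))).im
      + Θ * ∏ s, EE (fun w => h s w * t s w)| ≤
      q ^ 2 + q * EE (fun x => EE fun y => 1 - K x y)

/-- CLO: signed sum over chains of a family closed under intersection -/
def S_CLO : Prop := ∀ (d : ℕ) (b : Finset (Fin d) → ℝ), (∀ T, b T = 0 ∨ b T = 1) → b ∅ = 0 →
  (∀ T T' : Finset (Fin d), T ≠ univ → T' ≠ univ → b T = 1 → b T' = 1 → b (T ∩ T') = 1) →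
    kap b univ = ∏ T ∈ (univ : Finset (Finset (Fin d))).erase univ, (1 - b T)

/-- KBD: bound for the signed sum over chains -/
def S_KBD : Prop := ∀ (d : ℕ) (b : Finset (Fin d) → ℝ), (∀ T, |b T| ≤ 1) →
  ∀ U : Finset (Fin d), |kap b U| ≤ 2 ^ (U.card ^ 2)

/-- KAP: the product of the cut-offs agrees with the signed sum over chains up to a small error -/
def S_KAP : Prop := ∀ (d : ℕ) (Ω : Type) [Fintype Ω] [Nonempty Ω] (g : (Fin d → Ω) → ℂ)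
    (τ : Finset (Fin d) → ℝ) (ρ : ℝ), Thr τ ρ → EE (fun x => ‖g x‖) ≤ τ ∅ →
    EE (fun x => |K0 g τ x - kap (fun T => wild g τ T x) univ|) ≤
      4 ^ d * (1 + 2 ^ (d ^ 2)) * ρ * EE fun x => ‖g x‖

/-- constant of the block estimate -/
noncomputable def Cb (d : ℕ) : ℝ :=
  3 ^ (2 ^ d) * 4 ^ d + 8 ^ d + 2 * 4 ^ d * (1 + 2 ^ (d ^ 2)) + 4 ^ d + 1

/-- BLK: the block estimate -/
def S_BLK : Prop := ∀ (d : ℕ) (Ω : Type) [Fintype Ω] [Nonempty Ω] (g : (Fin d → Ω) → ℂ),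
  (∀ x, ‖1 + g x‖ = 1) →
  ∀ (τ : Finset (Fin d) → ℝ) (ρ : ℝ), Thr τ ρ → EE (fun x => ‖g x‖) ≤ τ ∅ →
  ∀ (h : Fin d → Ω → ℝ), (∀ s w, |h s w| ≤ 1) → (∀ s, EE (h s) = 0) →
  ∀ (t : Fin d → Ω → ℝ) (Θ q : ℝ), q ≤ 1 →
    (∀ x y : Fin d → Ω, |Θ * ∏ s, (t s (x s) - t s (y s))| ≤ q) →
    (∀ x y : Fin d → Ω, RR g x y =
      Complex.exp (-(Complex.I * ((Θ * ∏ s, (t s (x s) - t s (y s)) : ℝ) : ℂ)))) →
    |(EE fun x => ((∏ s, h s (x s) : ℝ) : ℂ) * g x *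
        ((kap (fun T => wild g τ T x) univ : ℝ) : ℂ)).im
      + Θ * ∏ s, EE (fun w => h s w * t s w)| ≤
      Cb d * (q ^ 2 + q * ρ + ρ * EE fun x => ‖g x‖)

/-! ## Part II: moments -/

/-- ONE: one-parameter inequality -/
def S_ONE : Prop := ∀ (R m : ℕ) (I : Type) [Fintype I] (c : Fin R → I → (Fin R → Bool) → ℝ),
  1 ≤ m → (∀ j k x y, (∀ i, i < j → x i = y i) → c j k x = c j k y) →
  EE (fun x : Fin R → Bool => (∑ k, (∑ j, sg (x j) * c j k x) ^ 2) ^ m) ≤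
    (8 * (m : ℝ) ^ 2) ^ m * EE (fun x : Fin R → Bool => (∑ k, ∑ j, (c j k x) ^ 2) ^ m)

/-- STEP: removing one coordinate from `U` -/
def S_STEP : Prop := ∀ (d R m : ℕ) (Δ : Finset (Fin d → Fin R)) (U : Finset (Fin d)) (s : Fin d)
    (F : (Fin d → Fin R) → Pt d R → ℝ), 1 ≤ m → s ∈ U → (∀ J ∈ Δ, Pred s J (F J)) →
  EE (fun x => NU Δ U F x ^ m) ≤
    (8 * (m : ℝ) ^ 2) ^ m * EE (fun x => NU Δ (U.erase s) F x ^ m)

/-- CHAOS: moments of the sum with the cut-offs -/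
def S_CHAOS : Prop := ∀ (d R m : ℕ) (Δ : Finset (Fin d → Fin R))
    (a : (Fin d → Fin R) → Pt d R → ℝ) (b : Finset (Fin d) → (Fin d → Fin R) → Pt d R → ℝ),
  1 ≤ m → (∀ J x, |a J x| ≤ 1) → (∀ s J, Pred s J (a J)) →
  (∀ T J x, 0 ≤ b T J x ∧ b T J x ≤ 1) → (∀ T J s, s ∉ T → Pred s J (b T J)) →
  (∀ T J J' x, (∀ s, s ∉ T → J s = J' s) → b T J x = b T J' x) →
  EE (fun x : Pt d R => (∑ J ∈ Δ, a J x * chi J x * kap (fun T => b T J x) univ) ^ (2 * m)) ≤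
    (32 ^ (d ^ 2) * (m : ℝ) ^ (2 * d) * Δ.card) ^ m

/-! ## Part III: the grid -/

open Classical in
/-- CNT: few boxes contain points -/
def S_CNT : Prop := ∀ (d R n : ℕ) (ι : Type) (S : Finset ι) (p : ι → Fin d → ℕ)
    (J : Fin d → Fin R), J ∈ lev d R n →
  EE (fun x : Pt d R => if Emp S p J x then (0 : ℝ) else 1) ≤ S.card / 2 ^ n

/-- coordinate function of a box -/
noncomputable def tt {d R : ℕ} (J : Fin d → Fin R) (x : Pt d R) (u : Fin d → ℝ) (s : Fin d)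
    (v : Fin R → Bool) : ℝ := ((num (splw (J s) (x s) v) : ℝ) + u s) / 2 ^ R

/-- `exp(i θ D) - 1` -/
noncomputable def gg {d R : ℕ} {ι : Type} (S : Finset ι) (w : ι → ℝ) (p : ι → Fin d → ℕ) (M : ℝ)
    (u : Fin d → ℝ) (θ : ℝ) (x : Pt d R) : ℂ :=
  Complex.exp (Complex.I * ((θ * DD S w p M u x : ℝ) : ℂ)) - 1

/-- PLQ: plaquette identity in a box without points -/
def S_PLQ : Prop := ∀ (d R : ℕ) (ι : Type) (S : Finset ι) (w : ι → ℝ) (p : ι → Fin d → ℕ) (M : ℝ)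
    (u : Fin d → ℝ) (θ : ℝ) (J : Fin d → Fin R) (x : Pt d R), Emp S p J x → ∀ y z : Pt d R,
  RR (fun v => gg S w p M u θ (spl J ∅ x v)) y z =
    Complex.exp (-(Complex.I *
      ((θ * M * ∏ s, (tt J x u s (y s) - tt J x u s (z s)) : ℝ) : ℂ)))

/-- HAAR: Haar coefficient of the coordinate function -/
def S_HAAR : Prop := ∀ (R : ℕ) (j : Fin R) (v : Fin R → Bool) (u : ℝ),
  EE (fun w : Fin R → Bool => sg (w j) * (((num (splw j v w) : ℝ) + u) / 2 ^ R)) =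
      1 / 2 ^ ((j : ℕ) + 2) ∧
    ∀ w w' : Fin R → Bool, |((num (splw j v w) : ℝ) + u) / 2 ^ R - ((num (splw j v w') : ℝ) + u) / 2 ^ R|
      ≤ 1 / 2 ^ (j : ℕ)

/-- thresholds as functions of the number of coordinates -/
noncomputable def tau (d : ℕ) (ρ : ℝ) (k : ℕ) : ℝ := ρ ^ (2 ^ (d - k) - 1)

/-- GB: estimate in a good box of the grid -/
def S_GB : Prop := ∀ (d R n : ℕ) (ι : Type) (S : Finset ι) (w : ι → ℝ) (p : ι → Fin d → ℕ) (M : ℝ)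
    (u : Fin d → ℝ) (θ ρ E : ℝ) (J : Fin d → Fin R) (x : Pt d R), 1 ≤ d → J ∈ lev d R n →
    0 < ρ → ρ ≤ 1 → 0 ≤ θ → 0 ≤ M → θ * M / 2 ^ n ≤ 1 →
    Emp S p J x → eta (gg S w p M u θ) J ∅ x ≤ E → E ≤ ρ ^ (2 ^ d - 1) →
    |(EE fun y : Pt d R => ((chi J (spl J ∅ x y) : ℝ) : ℂ) * gg S w p M u θ (spl J ∅ x y) *
        ((kap (fun T => bad (gg S w p M u θ) (tau d ρ) T J (spl J ∅ x y)) univ : ℝ) : ℂ)).im
      + θ * M / 2 ^ n / 4 ^ d| ≤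
      Cb d * ((θ * M / 2 ^ n) ^ 2 + (θ * M / 2 ^ n) * ρ + ρ * E)

/-- GRID: the inequality on the grid -/
def S_GRID : Prop := ∀ (d R n m : ℕ) (ι : Type) (S : Finset ι) (w : ι → ℝ) (p : ι → Fin d → ℕ)
    (M : ℝ) (u : Fin d → ℝ) (θ ρ : ℝ), 1 ≤ d → 1 ≤ m →
    0 < ρ → ρ ≤ 1 → 0 ≤ θ → 0 ≤ M → θ * M / 2 ^ n ≤ 1 → (S.card : ℝ) ≤ 2 ^ n / 8 →
    8 * EE (fun x : Pt d R => ‖gg S w p M u θ x‖) ≤ ρ ^ (2 ^ d - 1) →
    Cb d * ((θ * M / 2 ^ n) ^ 2 + (θ * M / 2 ^ n) * ρ +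
        ρ * (8 * EE (fun x : Pt d R => ‖gg S w p M u θ x‖))) ≤ θ * M / 2 ^ n / 4 ^ d / 2 →
    3 / 8 * (θ * M / 2 ^ n / 4 ^ d) * (lev d R n).card ≤
      2 * Real.sqrt (32 ^ (d ^ 2) * (m : ℝ) ^ (2 * d) * (lev d R n).card) *
        (EE (fun x : Pt d R => ‖gg S w p M u θ x‖) + 2 * (1 / 4) ^ m)

/-- LEV: number of levels -/
def S_LEV : Prop := ∀ (d n : ℕ), 1 ≤ d → ((n / d : ℕ) : ℝ) ^ (d - 1) ≤ ((lev d (n + 1) n).card : ℝ)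

/-- PAR: choice of the parameters -/
def S_PAR : Prop := ∀ d : ℕ, 2 ≤ d → ∀ C : ℝ, 0 < C → ∃ c : ℝ, 0 < c ∧ ∃ M₀ : ℝ, 16 ≤ M₀ ∧
  ∀ M : ℝ, M₀ ≤ M → ∃ R : ℕ, ∀ (ι : Type) (S : Finset ι) (w : ι → ℝ) (p : ι → Fin d → ℕ)
    (u : Fin d → ℝ), (S.card : ℝ) ≤ C * M →
    c * (Real.log M) ^ (((d : ℝ) - 1) / 2) / (Real.log (Real.log M)) ^ d ≤
      EE fun x : Pt d R => |DD S w p M u x|

/-! ## Part IV: from the grid to the cube -/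

open MeasureTheory in
/-- INT: averages over the shifts of a grid -/
def S_INT : Prop := ∀ (d R : ℕ) (F : (Fin d → ℝ) → ENNReal), Measurable F → ∀ B : ENNReal,
  (∀ u : Fin d → ℝ, B ≤ (∑ x : Pt d R, F (fun s => ((num (x s) : ℝ) + u s) / 2 ^ R)) / (2 ^ R) ^ d) →
  B ≤ ∫⁻ x in Set.Icc (0 : Fin d → ℝ) 1, F x

open MeasureTheory in
/-- CUBE: lower bound for weighted discrepancy functions on the cube -/
def S_CUBE : Prop := ∀ d : ℕ, 2 ≤ d → ∀ C : ℝ, 0 < C → ∃ c : ℝ, 0 < c ∧ ∃ M₀ : ℝ, 16 ≤ M₀ ∧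
  ∀ M : ℝ, M₀ ≤ M → ∀ (ι : Type) (S : Finset ι) (w : ι → ℝ) (P : ι → Fin d → ℝ),
    (S.card : ℝ) ≤ C * M →
    ENNReal.ofReal (c * (Real.log M) ^ (((d : ℝ) - 1) / 2) / (Real.log (Real.log M)) ^ d) ≤
      ∫⁻ x in Set.Icc (0 : Fin d → ℝ) 1, ENNReal.ofReal |H736R2.Lone.disc S w P M x|

open MeasureTheory in
/-- ALL: lower bound for all `m ≥ 3` -/
def S_ALL : Prop := ∀ d : ℕ, 2 ≤ d → ∃ c : ℝ, 0 < c ∧ ∀ m : ℕ, 3 ≤ m →
    ∀ (ι : Type) (S : Finset ι) (P : ι → Fin d → ℝ), S.card = m →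
    ENNReal.ofReal (c * (Real.log m) ^ (((d : ℝ) - 1) / 2) / (Real.log (Real.log m)) ^ d) ≤
      ∫⁻ x in Set.Icc (0 : Fin d → ℝ) 1,
        ENNReal.ofReal |H736R2.Lone.disc S (fun _ => 1) P (m : ℝ) x|

end Pool.Agent.H636R2.LD
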