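import Pool.Agent.H636R2.LD.Stmts

set_option autoImplicit false

namespace Pool.Agent.H636R2.LD

open Finset

theorem ZERO : S_ZERO := by
  intro d Ω _ _ h h0 F W hW
  classical
  obtain ⟨s, hs⟩ := hW
  rw [EE_comm]
  have key : ∀ y : Fin d → Ω,
      EE (fun x : Fin d → Ω => ((∏ s, h s (x s) : ℝ) : ℂ) * F (mix W y x)) = 0 := by
    intro y
    rw [← EE_update s]
    have h1 : ∀ x : Fin d → Ω, EE (fun v : Ω =>
        ((∏ s', h s' (Function.update x s v s') : ℝ) : ℂ) *
          F (mix W y (Function.update x s v))) = 0 := by
      intro x
      have e1 : ∀ v, mix W y (Function.update x s v) = mix W y x := by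
        intro v
        funext s'
        by_cases hs' : s' ∈ W
        · rw [mix_mem hs', mix_mem hs']
        · have hne : s' ≠ s := fun e => hs' (e ▸ hs)
          rw [mix_notMem hs', mix_notMem hs', Function.update_of_ne hne]
      have e2 : ∀ v, ∏ s', h s' (Function.update x s v s') =
          h s v * ∏ s' ∈ univ.erase s, h s' (x s') := by
        intro v
        rw [← Finset.mul_prod_erase univ _ (mem_univ s), Function.update_self]
        congr 1
        apply Finset.prod_congr rfl
        intro s' hs'
        rw [Function.update_of_ne (Finset.ne_of_mem_erase hs')]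
      have e3 : ∀ v, ((∏ s', h s' (Function.update x s v s') : ℝ) : ℂ) *
          F (mix W y (Function.update x s v)) =
          ((h s v : ℝ) : ℂ) * (((∏ s' ∈ univ.erase s, h s' (x s') : ℝ) : ℂ) * F (mix W y x)) := by
        intro v
        rw [e1, e2, Complex.ofReal_mul, mul_assoc]
      simp only [e3]
      rw [EE_mul_right, EE_ofReal, h0 s]
      simp
    simp only [h1]
    exact EE_const 0
  simp only [key]
  exact EE_const 0

end Pool.Agent.H636R2.LD
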